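import Mathlib
import Pool.Agent.H51.ZB.Ee

set_option autoImplicit false

/-!
A bilinear exponential sum bound.

Proof. Write S for the double sum. By Cauchy-Schwarz and the injectivity of b ↦ (u1 b, u2 b) ∈ [0,U)²,
|S|² ≤ |B| ∑_{b ∈ B} |∑_a ee (θ (v1 a u1 b + v2 a u2 b))|² ≤ |B| ∑_{x < U} ∑_{y < U} |∑_a ee (θ (v1 a x + v2 a y))|²
  = |B| ∑_{a,a'} D(θ (v1 a - v1 a')) D(θ (v2 a - v2 a')) ≤ |B| ∑_{a,a'} G(...) G(...),
where D(t) = ∑_{x < U} ee (t x), and |D(t)| ≤ G(t) := min(U, 1/(2‖t‖)), ‖t‖ the distance to the nearest integer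
(|1 - ee t| = 2 |sin π t| ≥ 4 ‖t‖ and |1 - ee (U t)| ≤ 2; Mathlib has Real.mul_le_sin / Real.mul_abs_le_abs_sin type bounds).
Fix a. For a' ∈ A put i = ⌊U fract(θ (v1 a - v1 a'))⌋, j = ⌊U fract(θ (v2 a - v2 a'))⌋, both in {0,...,U-1}.
Two a', a'' ∈ A with the same (i,j) satisfy the closeness conditions of hM, so every cell (i,j) contains at most M
elements a'. If fract(t) ∈ [i/U,(i+1)/U) then ‖t‖ ≥ min(i, U-1-i)/U and so G(t) ≤ g(i), g(i) = U if
i = 0 or i = U-1, and U/(2 min(i,U-1-i)) ≤ U/(2 i) + U/(2 (U-1-i)) otherwise.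
∑_{i<U} g(i) ≤ 2U + U ∑_{1≤i<U} 1/i ≤ 2U + U(1 + log U) ≤ 8 U (1 + log U).
Hence ∑_{a'} G G ≤ M (∑_i g(i))² and |S|² ≤ |B| |A| M (8U(1+log U))².
(Feel free to add lemmas; do not change the statement.)
-/

namespace Pool.Agent.H51.ZB

/-- the geometric sum -/
noncomputable def Bil_D (U : ℕ) (t : ℝ) : ℂ := ∑ x ∈ Finset.range U, ee (t * x)

theorem Bil_D_le (U : ℕ) (t : ℝ) : ‖Bil_D U t‖ ≤ U := by
  unfold Bil_D
  refine (norm_sum_le _ _).trans ?_
  rw [Finset.sum_congr rfl fun x _ => norm_ee _]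
  simp

theorem Bil_geom (U : ℕ) (t : ℝ) : (1 - ee t) * Bil_D U t = 1 - ee (t * U) := by
  induction U with
  | zero =>
    unfold Bil_D
    simp [ee_zero]
  | succ U ih =>
    have h : Bil_D (U + 1) t = Bil_D U t + ee (t * U) := by
      unfold Bil_D
      rw [Finset.sum_range_succ]
    rw [h, mul_add, ih]
    have e : t * ((U + 1 : ℕ) : ℝ) = t + t * U := by push_cast; ring
    rw [e, ee_add]
    ring

theorem Bil_norm_one_sub (t : ℝ) : ‖1 - ee t‖ = 2 * |Real.sin (Real.pi * t)| := by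
  have h1 : ‖1 - ee t‖ ^ 2 = (2 * |Real.sin (Real.pi * t)|) ^ 2 := by
    rw [← Complex.normSq_eq_norm_sq, Complex.normSq_apply]
    have e : ee t = Complex.exp (((2 * Real.pi * t : ℝ) : ℂ) * Complex.I) := by
      unfold ee
      congr 1
      push_cast
      ring
    have hre : (ee t).re = Real.cos (2 * Real.pi * t) := by rw [e, Complex.exp_ofReal_mul_I_re]
    have him : (ee t).im = Real.sin (2 * Real.pi * t) := by rw [e, Complex.exp_ofReal_mul_I_im]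
    rw [Complex.sub_re, Complex.sub_im, Complex.one_re, Complex.one_im, hre, him, mul_pow, sq_abs]
    have e2 : 2 * Real.pi * t = 2 * (Real.pi * t) := by ring
    rw [e2, Real.cos_two_mul, Real.sin_two_mul]
    have := Real.sin_sq_add_cos_sq (Real.pi * t)
    have h3 : Real.cos (Real.pi * t) ^ 2 = 1 - Real.sin (Real.pi * t) ^ 2 := by linarith
    ring_nf
    nlinarith [h3]
  have h2 : (0 : ℝ) ≤ 2 * |Real.sin (Real.pi * t)| := by positivity
  exact (sq_eq_sq₀ (norm_nonneg _) h2).1 h1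

theorem Bil_ee_fract (t : ℝ) : ee t = ee (Int.fract t) := by
  conv_lhs => rw [← Int.floor_add_fract t]
  rw [ee_add, ee_int, one_mul]

theorem Bil_sin (s : ℝ) (h0 : 0 ≤ s) (h1 : s ≤ 1) : 2 * min s (1 - s) ≤ Real.sin (Real.pi * s) := by
  have hpi := Real.pi_pos
  rcases le_total s (1 - s) with h | h
  · rw [min_eq_left h]
    have h2 := Real.mul_le_sin (x := Real.pi * s) (by positivity) (by nlinarith)
    have e : 2 / Real.pi * (Real.pi * s) = 2 * s := by field_simp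
    rwa [e] at h2
  · rw [min_eq_right h]
    have h2 := Real.mul_le_sin (x := Real.pi * (1 - s)) (by apply mul_nonneg hpi.le; linarith) (by nlinarith)
    have e : 2 / Real.pi * (Real.pi * (1 - s)) = 2 * (1 - s) := by field_simp
    have e2 : Real.sin (Real.pi * (1 - s)) = Real.sin (Real.pi * s) := by
      rw [show Real.pi * (1 - s) = Real.pi - Real.pi * s by ring, Real.sin_pi_sub]
    rwa [e, e2] at h2

theorem Bil_D_min (U : ℕ) (t : ℝ) : ‖Bil_D U t‖ * (2 * min (Int.fract t) (1 - Int.fract t)) ≤ 1 := by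
  have h0 := Int.fract_nonneg t
  have h1 := (Int.fract_lt_one t).le
  have h2 := Bil_sin _ h0 h1
  have h3 : ‖1 - ee t‖ = 2 * Real.sin (Real.pi * Int.fract t) := by
    rw [Bil_ee_fract, Bil_norm_one_sub, abs_of_nonneg]
    apply Real.sin_nonneg_of_nonneg_of_le_pi
    · exact mul_nonneg Real.pi_pos.le h0
    · nlinarith [Real.pi_pos]
  have h4 : ‖1 - ee t‖ * ‖Bil_D U t‖ ≤ 2 := by
    rw [← norm_mul, Bil_geom]
    refine (norm_sub_le _ _).trans ?_
    rw [norm_one, norm_ee]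
    norm_num
  rw [h3] at h4
  have h5 := norm_nonneg (Bil_D U t)
  have h6 : ‖Bil_D U t‖ * (2 * min (Int.fract t) (1 - Int.fract t)) ≤ ‖Bil_D U t‖ * Real.sin (Real.pi * Int.fract t) :=
    mul_le_mul_of_nonneg_left h2 h5
  linarith

/-- the cell -/
noncomputable def Bil_i (U : ℕ) (t : ℝ) : ℕ := ⌊(U : ℝ) * Int.fract t⌋₊

/-- the bound in the cell -/
noncomputable def Bil_g (U i : ℕ) : ℝ := U / ((i : ℝ) + 1) + U / ((U : ℝ) - i)

theorem Bil_i_lt {U : ℕ} (hU : 1 ≤ U) (t : ℝ) : Bil_i U t < U := by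
  have hU' : (0 : ℝ) < U := by exact_mod_cast hU
  unfold Bil_i
  rw [Nat.floor_lt (mul_nonneg hU'.le (Int.fract_nonneg t))]
  have := Int.fract_lt_one t
  nlinarith

theorem Bil_g_nonneg {U i : ℕ} (hi : i < U) : 0 ≤ Bil_g U i := by
  have h1 : (i : ℝ) < U := by exact_mod_cast hi
  have h2 : (0 : ℝ) < (U : ℝ) - i := by linarith
  unfold Bil_g
  positivity

theorem Bil_D_g {U : ℕ} (hU : 1 ≤ U) (t : ℝ) : ‖Bil_D U t‖ ≤ Bil_g U (Bil_i U t) := by
  have hU' : (0 : ℝ) < U := by exact_mod_cast hU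
  have hi := Bil_i_lt hU t
  set i := Bil_i U t with hidef
  have hi' : (i : ℝ) < U := by exact_mod_cast hi
  have hd : (0 : ℝ) < (U : ℝ) - i := by linarith
  have hi1 : (0 : ℝ) < (i : ℝ) + 1 := by positivity
  have hle := Bil_D_le U t
  have hmin := Bil_D_min U t
  set s := Int.fract t with hs
  set D := ‖Bil_D U t‖ with hD
  have hDn : 0 ≤ D := norm_nonneg _
  have h1 : (i : ℝ) ≤ U * s := by
    rw [hidef]
    exact Nat.floor_le (mul_nonneg hU'.le (Int.fract_nonneg t))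
  have h2 : (U : ℝ) * s < i + 1 := by
    rw [hidef]
    exact Nat.lt_floor_add_one _
  unfold Bil_g
  have p1 : (0 : ℝ) ≤ U / ((i : ℝ) + 1) := by positivity
  have p2 : (0 : ℝ) ≤ U / ((U : ℝ) - i) := by positivity
  rcases Nat.eq_zero_or_pos i with h0 | h0
  · rw [h0]
    rw [h0] at p2
    have e : (U : ℝ) / (((0 : ℕ) : ℝ) + 1) = U := by simp
    rw [e]
    linarith
  · rcases Nat.lt_or_ge (i + 1) U with h3 | h3
    · have hi1' : (1 : ℝ) ≤ i := by exact_mod_cast h0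
      have h3' : (i : ℝ) + 2 ≤ U := by exact_mod_cast h3
      rcases le_total s (1 - s) with h4 | h4
      · rw [min_eq_left h4] at hmin
        have h5 : D ≤ U / ((i : ℝ) + 1) := by
          rw [le_div_iff₀ hi1]
          have h6 : D * (2 * i) ≤ U := by
            have h7 : D * (2 * i) ≤ D * (2 * (U * s)) := by
              apply mul_le_mul_of_nonneg_left _ hDn
              linarith
            have h8 : D * (2 * (U * s)) = U * (D * (2 * s)) := by ring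
            have h9 : (U : ℝ) * (D * (2 * s)) ≤ U * 1 := mul_le_mul_of_nonneg_left hmin hU'.le
            linarith
          have h7 : D * ((i : ℝ) + 1) ≤ D * (2 * i) := by
            apply mul_le_mul_of_nonneg_left _ hDn
            linarith
          linarith
        linarith
      · rw [min_eq_right h4] at hmin
        have h5 : D ≤ U / ((U : ℝ) - i) := by
          rw [le_div_iff₀ hd]
          have h6 : D * (2 * ((U : ℝ) - 1 - i)) ≤ U := by
            have h7 : D * (2 * ((U : ℝ) - 1 - i)) ≤ D * (2 * (U * (1 - s))) := by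
              apply mul_le_mul_of_nonneg_left _ hDn
              nlinarith
            have h8 : D * (2 * (U * (1 - s))) = U * (D * (2 * (1 - s))) := by ring
            have h9 : (U : ℝ) * (D * (2 * (1 - s))) ≤ U * 1 := mul_le_mul_of_nonneg_left hmin hU'.le
            linarith
          have h7 : D * ((U : ℝ) - i) ≤ D * (2 * ((U : ℝ) - 1 - i)) := by
            apply mul_le_mul_of_nonneg_left _ hDn
            linarith
          linarith
        linarith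
    · have h4 : (U : ℝ) - i = 1 := by
        have : U = i + 1 := by omega
        have h5 : (U : ℝ) = i + 1 := by exact_mod_cast this
        linarith
      rw [h4]
      linarith

theorem Bil_sum_g {U : ℕ} (hU : 1 ≤ U) : ∑ i ∈ Finset.range U, Bil_g U i ≤ 8 * U * (1 + Real.log U) := by
  have hU' : (1 : ℝ) ≤ U := by exact_mod_cast hU
  have hlog : 0 ≤ Real.log U := Real.log_nonneg hU'
  have h1 : ∑ i ∈ Finset.range U, (U : ℝ) / ((i : ℝ) + 1) ≤ U * (1 + Real.log U) := by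
    have h2 := harmonic_le_one_add_log U
    have h3 : ((harmonic U : ℚ) : ℝ) = ∑ i ∈ Finset.range U, 1 / ((i : ℝ) + 1) := by
      unfold harmonic
      push_cast
      exact Finset.sum_congr rfl fun i _ => by rw [one_div]
    rw [h3] at h2
    have h4 : ∑ i ∈ Finset.range U, (U : ℝ) / ((i : ℝ) + 1) = U * ∑ i ∈ Finset.range U, 1 / ((i : ℝ) + 1) := by
      rw [Finset.mul_sum]
      exact Finset.sum_congr rfl fun i _ => by rw [mul_one_div]
    rw [h4]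
    exact mul_le_mul_of_nonneg_left h2 (by linarith)
  have h5 : ∑ i ∈ Finset.range U, (U : ℝ) / ((U : ℝ) - i) = ∑ i ∈ Finset.range U, (U : ℝ) / ((i : ℝ) + 1) := by
    rw [← Finset.sum_range_reflect]
    refine Finset.sum_congr rfl fun i hi => ?_
    rw [Finset.mem_range] at hi
    congr 1
    rw [Nat.cast_sub (by omega), Nat.cast_sub hU]
    push_cast
    ring
  unfold Bil_g
  rw [Finset.sum_add_distrib, h5]
  have h6 : 0 ≤ (U : ℝ) * (1 + Real.log U) := by positivity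
  linarith

theorem Bil_close {U : ℕ} (hU : 1 ≤ U) (t t' : ℝ) (h : Bil_i U t = Bil_i U t') :
    ∃ n : ℤ, |t' - t - n| < 1 / (U : ℝ) := by
  have hU' : (0 : ℝ) < U := by exact_mod_cast hU
  refine ⟨⌊t'⌋ - ⌊t⌋, ?_⟩
  have e : t' - t - ((⌊t'⌋ - ⌊t⌋ : ℤ) : ℝ) = Int.fract t' - Int.fract t := by
    push_cast
    have h1 := Int.floor_add_fract t
    have h2 := Int.floor_add_fract t'
    linarith
  rw [e]
  have a1 : (Bil_i U t : ℝ) ≤ U * Int.fract t := Nat.floor_le (mul_nonneg hU'.le (Int.fract_nonneg t))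
  have a2 : (U : ℝ) * Int.fract t < Bil_i U t + 1 := Nat.lt_floor_add_one _
  have b1 : (Bil_i U t' : ℝ) ≤ U * Int.fract t' := Nat.floor_le (mul_nonneg hU'.le (Int.fract_nonneg t'))
  have b2 : (U : ℝ) * Int.fract t' < Bil_i U t' + 1 := Nat.lt_floor_add_one _
  rw [← h] at b1 b2
  rw [abs_lt, lt_div_iff₀ hU', neg_lt_iff_pos_add, ← sub_pos]
  constructor
  · have h3 : 0 < (Int.fract t' - Int.fract t + 1 / U) * U := by
      rw [add_mul, one_div, inv_mul_cancel₀ hU'.ne']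
      nlinarith
    have h4 := (pos_iff_pos_of_mul_pos h3).2 hU'
    linarith
  · nlinarith

theorem Bil_expand {ι : Type} (A : Finset ι) (v1 v2 : ι → ℤ) (U : ℕ) (θ : ℝ) :
    ∑ z ∈ Finset.range U ×ˢ Finset.range U, ‖∑ a ∈ A, ee (θ * ((v1 a : ℝ) * z.1 + (v2 a : ℝ) * z.2))‖ ^ 2 ≤
      ∑ a ∈ A, ∑ a' ∈ A, ‖Bil_D U (θ * ((v1 a : ℝ) - v1 a'))‖ * ‖Bil_D U (θ * ((v2 a : ℝ) - v2 a'))‖ := by
  have h1 : ((∑ z ∈ Finset.range U ×ˢ Finset.range U, ‖∑ a ∈ A, ee (θ * ((v1 a : ℝ) * z.1 + (v2 a : ℝ) * z.2))‖ ^ 2 : ℝ) : ℂ) =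
      ∑ a ∈ A, ∑ a' ∈ A, Bil_D U (θ * ((v1 a : ℝ) - v1 a')) * Bil_D U (θ * ((v2 a : ℝ) - v2 a')) := by
    rw [Complex.ofReal_sum]
    have h2 : ∀ z : ℕ × ℕ, ((‖∑ a ∈ A, ee (θ * ((v1 a : ℝ) * z.1 + (v2 a : ℝ) * z.2))‖ ^ 2 : ℝ) : ℂ) =
        ∑ a ∈ A, ∑ a' ∈ A, ee (θ * ((v1 a : ℝ) - v1 a') * z.1) * ee (θ * ((v2 a : ℝ) - v2 a') * z.2) := by
      intro z
      rw [← Complex.normSq_eq_norm_sq, ← Complex.mul_conj, map_sum, Finset.sum_mul_sum]
      refine Finset.sum_congr rfl fun a _ => Finset.sum_congr rfl fun a' _ => ?_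
      rw [← ee_neg, ← ee_add, ← ee_add]
      congr 1
      ring
    rw [Finset.sum_congr rfl fun z _ => h2 z, Finset.sum_comm]
    refine Finset.sum_congr rfl fun a _ => ?_
    rw [Finset.sum_comm]
    refine Finset.sum_congr rfl fun a' _ => ?_
    unfold Bil_D
    rw [Finset.sum_mul_sum, Finset.sum_product]
  have h3 : (0 : ℝ) ≤ ∑ z ∈ Finset.range U ×ˢ Finset.range U, ‖∑ a ∈ A, ee (θ * ((v1 a : ℝ) * z.1 + (v2 a : ℝ) * z.2))‖ ^ 2 :=
    Finset.sum_nonneg fun z _ => by positivity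
  have h4 : ∑ z ∈ Finset.range U ×ˢ Finset.range U, ‖∑ a ∈ A, ee (θ * ((v1 a : ℝ) * z.1 + (v2 a : ℝ) * z.2))‖ ^ 2 =
      ‖∑ a ∈ A, ∑ a' ∈ A, Bil_D U (θ * ((v1 a : ℝ) - v1 a')) * Bil_D U (θ * ((v2 a : ℝ) - v2 a'))‖ := by
    rw [← h1, Complex.norm_real, Real.norm_of_nonneg h3]
  rw [h4]
  refine (norm_sum_le _ _).trans (Finset.sum_le_sum fun a _ => ?_)
  refine (norm_sum_le _ _).trans (Finset.sum_le_sum fun a' _ => ?_)
  rw [norm_mul]

theorem bilinear {ι κ : Type} (A : Finset ι) (B : Finset κ) (v1 v2 : ι → ℤ) (u1 u2 : κ → ℕ)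
    (U : ℕ) (hU : 1 ≤ U) (hu1 : ∀ b ∈ B, u1 b < U) (hu2 : ∀ b ∈ B, u2 b < U)
    (hinj : ∀ b ∈ B, ∀ b' ∈ B, u1 b = u1 b' → u2 b = u2 b' → b = b') (θ : ℝ) (M : ℕ)
    (hM : ∀ C : Finset ι, C ⊆ A →
      (∀ a ∈ C, ∀ a' ∈ C, (∃ n : ℤ, |θ * ((v1 a : ℝ) - v1 a') - n| < 1 / (U : ℝ)) ∧
        (∃ n : ℤ, |θ * ((v2 a : ℝ) - v2 a') - n| < 1 / (U : ℝ))) → C.card ≤ M) :
    ‖∑ a ∈ A, ∑ b ∈ B, ee (θ * ((v1 a : ℝ) * u1 b + (v2 a : ℝ) * u2 b))‖ ^ 2
      ≤ (A.card : ℝ) * B.card * M * (8 * U * (1 + Real.log U)) ^ 2 := by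
  classical
  have hcell : ∀ a ∈ A, ∑ a' ∈ A, ‖Bil_D U (θ * ((v1 a : ℝ) - v1 a'))‖ * ‖Bil_D U (θ * ((v2 a : ℝ) - v2 a'))‖ ≤
      M * (8 * U * (1 + Real.log U)) ^ 2 := by
    intro a _
    have h1 : ∀ a' ∈ A, ‖Bil_D U (θ * ((v1 a : ℝ) - v1 a'))‖ * ‖Bil_D U (θ * ((v2 a : ℝ) - v2 a'))‖ ≤
        Bil_g U (Bil_i U (θ * ((v1 a : ℝ) - v1 a'))) * Bil_g U (Bil_i U (θ * ((v2 a : ℝ) - v2 a'))) := by
      intro a' _
      exact mul_le_mul (Bil_D_g hU _) (Bil_D_g hU _) (norm_nonneg _) (Bil_g_nonneg (Bil_i_lt hU _))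
    refine (Finset.sum_le_sum h1).trans ?_
    rw [← Finset.sum_fiberwise_of_maps_to (s := A) (t := Finset.range U ×ˢ Finset.range U)
      (g := fun a' => (Bil_i U (θ * ((v1 a : ℝ) - v1 a')), Bil_i U (θ * ((v2 a : ℝ) - v2 a'))))
      (fun a' _ => Finset.mem_product.2 ⟨Finset.mem_range.2 (Bil_i_lt hU _), Finset.mem_range.2 (Bil_i_lt hU _)⟩)]
    have h2 : ∀ z ∈ Finset.range U ×ˢ Finset.range U,
        ∑ a' ∈ A.filter (fun a' => (Bil_i U (θ * ((v1 a : ℝ) - v1 a')), Bil_i U (θ * ((v2 a : ℝ) - v2 a'))) = z),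
          Bil_g U (Bil_i U (θ * ((v1 a : ℝ) - v1 a'))) * Bil_g U (Bil_i U (θ * ((v2 a : ℝ) - v2 a'))) ≤
        M * (Bil_g U z.1 * Bil_g U z.2) := by
      intro z hz
      rw [Finset.mem_product, Finset.mem_range, Finset.mem_range] at hz
      have h3 : ∀ a' ∈ A.filter (fun a' => (Bil_i U (θ * ((v1 a : ℝ) - v1 a')), Bil_i U (θ * ((v2 a : ℝ) - v2 a'))) = z),
          Bil_g U (Bil_i U (θ * ((v1 a : ℝ) - v1 a'))) * Bil_g U (Bil_i U (θ * ((v2 a : ℝ) - v2 a'))) =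
          Bil_g U z.1 * Bil_g U z.2 := by
        intro a' ha'
        have h4 := (Finset.mem_filter.1 ha').2
        rw [← h4]
      rw [Finset.sum_congr rfl h3, Finset.sum_const, nsmul_eq_mul]
      refine mul_le_mul_of_nonneg_right ?_ (mul_nonneg (Bil_g_nonneg hz.1) (Bil_g_nonneg hz.2))
      have h5 := hM (A.filter (fun a' => (Bil_i U (θ * ((v1 a : ℝ) - v1 a')), Bil_i U (θ * ((v2 a : ℝ) - v2 a'))) = z))
        (Finset.filter_subset _ _) (by
          intro b hb b' hb'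
          have e1 := (Finset.mem_filter.1 hb).2
          have e2 := (Finset.mem_filter.1 hb').2
          rw [← e2] at e1
          have e3 := Prod.mk.inj e1
          constructor
          · obtain ⟨n, hn⟩ := Bil_close hU _ _ e3.1
            refine ⟨n, ?_⟩
            rw [show θ * ((v1 b : ℝ) - v1 b') - n = θ * ((v1 a : ℝ) - v1 b') - θ * ((v1 a : ℝ) - v1 b) - n by ring]
            exact hn
          · obtain ⟨n, hn⟩ := Bil_close hU _ _ e3.2
            refine ⟨n, ?_⟩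
            rw [show θ * ((v2 b : ℝ) - v2 b') - n = θ * ((v2 a : ℝ) - v2 b') - θ * ((v2 a : ℝ) - v2 b) - n by ring]
            exact hn)
      exact_mod_cast h5
    refine (Finset.sum_le_sum h2).trans ?_
    rw [← Finset.mul_sum]
    refine mul_le_mul_of_nonneg_left ?_ (Nat.cast_nonneg M)
    have h6 : ∑ z ∈ Finset.range U ×ˢ Finset.range U, Bil_g U z.1 * Bil_g U z.2 = (∑ i ∈ Finset.range U, Bil_g U i) ^ 2 := by
      rw [sq, Finset.sum_mul_sum, Finset.sum_product]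
    rw [h6]
    exact pow_le_pow_left₀ (Finset.sum_nonneg fun i hi => Bil_g_nonneg (Finset.mem_range.1 hi)) (Bil_sum_g hU) 2
  have hS : ∑ a ∈ A, ∑ b ∈ B, ee (θ * ((v1 a : ℝ) * u1 b + (v2 a : ℝ) * u2 b)) =
      ∑ b ∈ B, ∑ a ∈ A, ee (θ * ((v1 a : ℝ) * u1 b + (v2 a : ℝ) * u2 b)) := Finset.sum_comm
  rw [hS]
  have h1 : ‖∑ b ∈ B, ∑ a ∈ A, ee (θ * ((v1 a : ℝ) * u1 b + (v2 a : ℝ) * u2 b))‖ ^ 2 ≤
      B.card * ∑ b ∈ B, ‖∑ a ∈ A, ee (θ * ((v1 a : ℝ) * u1 b + (v2 a : ℝ) * u2 b))‖ ^ 2 := by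
    refine (pow_le_pow_left₀ (norm_nonneg _) (norm_sum_le _ _) 2).trans ?_
    exact sq_sum_le_card_mul_sum_sq
  have h2 : ∑ b ∈ B, ‖∑ a ∈ A, ee (θ * ((v1 a : ℝ) * u1 b + (v2 a : ℝ) * u2 b))‖ ^ 2 ≤
      ∑ z ∈ Finset.range U ×ˢ Finset.range U, ‖∑ a ∈ A, ee (θ * ((v1 a : ℝ) * z.1 + (v2 a : ℝ) * z.2))‖ ^ 2 := by
    have h3 : ∑ z ∈ B.image (fun b => (u1 b, u2 b)), ‖∑ a ∈ A, ee (θ * ((v1 a : ℝ) * z.1 + (v2 a : ℝ) * z.2))‖ ^ 2 =
        ∑ b ∈ B, ‖∑ a ∈ A, ee (θ * ((v1 a : ℝ) * u1 b + (v2 a : ℝ) * u2 b))‖ ^ 2 := by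
      rw [Finset.sum_image]
      intro b hb b' hb' he
      have := Prod.mk.inj he
      exact hinj b hb b' hb' this.1 this.2
    rw [← h3]
    refine Finset.sum_le_sum_of_subset_of_nonneg ?_ (fun z _ _ => by positivity)
    intro z hz
    obtain ⟨b, hb, rfl⟩ := Finset.mem_image.1 hz
    exact Finset.mem_product.2 ⟨Finset.mem_range.2 (hu1 b hb), Finset.mem_range.2 (hu2 b hb)⟩
  have h4 := Bil_expand A v1 v2 U θ
  have h5 : ∑ a ∈ A, ∑ a' ∈ A, ‖Bil_D U (θ * ((v1 a : ℝ) - v1 a'))‖ * ‖Bil_D U (θ * ((v2 a : ℝ) - v2 a'))‖ ≤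
      A.card * (M * (8 * U * (1 + Real.log U)) ^ 2) := by
    refine (Finset.sum_le_sum hcell).trans ?_
    rw [Finset.sum_const, nsmul_eq_mul]
  calc ‖∑ b ∈ B, ∑ a ∈ A, ee (θ * ((v1 a : ℝ) * u1 b + (v2 a : ℝ) * u2 b))‖ ^ 2
      ≤ B.card * (A.card * (M * (8 * U * (1 + Real.log U)) ^ 2)) :=
        h1.trans (mul_le_mul_of_nonneg_left (h2.trans (h4.trans h5)) (Nat.cast_nonneg _))
    _ = (A.card : ℝ) * B.card * M * (8 * U * (1 + Real.log U)) ^ 2 := by ring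

end Pool.Agent.H51.ZB
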