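import Mathlib

set_option autoImplicit false

/-!
Words over {1,2} and their continuants. `cmat w` is the product of the matrices with rows (a, 1),
(1, 0) over the word `w`; its entries are the continuants K(w), K(w without last letter),
K(w without first letter), K(w without both).
-/

namespace Pool.Agent.H51.ZB

open Matrix

/-- The matrix of continuants of the word `w`. -/
def cmat (w : List ℤ) : Matrix (Fin 2) (Fin 2) ℤ :=
  (w.map (fun a => !![a, 1; 1, 0])).prod

/-- `w` is a word over the alphabet `{1,2}`. -/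
def Word12 (w : List ℤ) : Prop := ∀ a ∈ w, a = 1 ∨ a = 2

theorem cmat_nil : cmat [] = 1 := rfl

theorem cmat_cons (a : ℤ) (w : List ℤ) : cmat (a :: w) = !![a, 1; 1, 0] * cmat w := by
  simp [cmat]

theorem cmat_append (u v : List ℤ) : cmat (u ++ v) = cmat u * cmat v := by
  simp [cmat]

theorem cmat_reverse (w : List ℤ) : cmat w.reverse = (cmat w)ᵀ := by
  induction w with
  | nil => simp [cmat]
  | cons a w ih =>
    have h1 : cmat [a] = (!![a, 1; 1, 0] : Matrix (Fin 2) (Fin 2) ℤ)ᵀ := by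
      ext i j
      fin_cases i <;> fin_cases j <;> simp [cmat]
    rw [List.reverse_cons, cmat_append, ih, cmat_cons a w, Matrix.transpose_mul, h1]

theorem det_cmat (w : List ℤ) : (cmat w).det = 1 ∨ (cmat w).det = -1 := by
  induction w with
  | nil => left; simp [cmat]
  | cons a w ih =>
    rw [cmat_cons, Matrix.det_mul]
    have h : (!![a, 1; 1, 0] : Matrix (Fin 2) (Fin 2) ℤ).det = -1 := by
      simp [Matrix.det_fin_two]
    rw [h]
    rcases ih with h1 | h1 <;> rw [h1] <;> simp

theorem entries_cons (a : ℤ) (w : List ℤ) :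
    cmat (a :: w) 0 0 = a * cmat w 0 0 + cmat w 1 0 ∧ cmat (a :: w) 1 0 = cmat w 0 0 := by
  rw [cmat_cons]
  constructor <;> simp [Matrix.mul_apply, Fin.sum_univ_two]

theorem growth (w : List ℤ) (hw : Word12 w) :
    1 ≤ cmat w 0 0 ∧ 0 ≤ cmat w 1 0 ∧ (w ≠ [] → 1 ≤ cmat w 1 0) ∧ (w.length : ℤ) ≤ cmat w 0 0 := by
  induction w with
  | nil => simp [cmat]
  | cons a w ih =>
    have hw' : Word12 w := fun b hb => hw b (List.mem_cons_of_mem _ hb)
    obtain ⟨h1, h2, h3, h4⟩ := ih hw'
    obtain ⟨e1, e2⟩ := entries_cons a w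
    have ha : 1 ≤ a := by
      rcases hw a (List.mem_cons_self) with h | h <;> omega
    have hm : cmat w 0 0 ≤ a * cmat w 0 0 := by nlinarith
    refine ⟨by omega, by omega, fun _ => by omega, ?_⟩
    rw [e1]
    rcases w with _ | ⟨b, w⟩
    · simp at h4 h1 ⊢
      omega
    · have := h3 (by simp)
      simp only [List.length_cons] at h4 ⊢
      push_cast at h4 ⊢
      omega

theorem word_append {v w : List ℤ} (hv : Word12 v) (hw : Word12 w) : Word12 (v ++ w) := by
  intro a ha
  rcases List.mem_append.mp ha with h | h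
  · exact hv a h
  · exact hw a h

theorem word_reverse {w : List ℤ} (hw : Word12 w) : Word12 w.reverse :=
  fun a ha => hw a (List.mem_reverse.mp ha)

theorem lt_of_end (v : List ℤ) (hv : Word12 v) (h2 : v = [] ∨ v.getLast? = some 2) :
    cmat v 1 0 < cmat v 0 0 := by
  rcases v with _ | ⟨a, v⟩
  · simp [cmat]
  · obtain ⟨e1, e2⟩ := entries_cons a v
    have hv' : Word12 v := fun b hb => hv b (List.mem_cons_of_mem _ hb)
    obtain ⟨g1, g2, g3, _⟩ := growth v hv'
    rw [e1, e2]
    rcases v with _ | ⟨b, v⟩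
    · rcases h2 with h | h
      · simp at h
      · simp at h
        subst h
        simp [cmat]
    · have := g3 (by simp)
      have ha : 1 ≤ a := by
        rcases hv a (List.mem_cons_self) with h | h <;> omega
      nlinarith

theorem col_inj (w : List ℤ) : ∀ w' : List ℤ, Word12 w → Word12 w' →
    (w = [] ∨ w.getLast? = some 2) → (w' = [] ∨ w'.getLast? = some 2) →
    cmat w 0 0 = cmat w' 0 0 → cmat w 1 0 = cmat w' 1 0 → w = w' := by
  induction w with
  | nil =>
    intro w' _ hw' _ _ _ h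
    rcases w' with _ | ⟨b, w'⟩
    · rfl
    · exfalso
      have := (growth (b :: w') hw').2.2.1 (by simp)
      rw [← h] at this
      simp [cmat] at this
  | cons a v ih =>
    intro w' hw hw' h2 h2' e0 e1
    rcases w' with _ | ⟨b, v'⟩
    · exfalso
      have := (growth (a :: v) hw).2.2.1 (by simp)
      rw [e1] at this
      simp [cmat] at this
    · have hv : Word12 v := fun b hb => hw b (List.mem_cons_of_mem _ hb)
      have hv' : Word12 v' := fun b hb => hw' b (List.mem_cons_of_mem _ hb)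
      have tail : ∀ (a : ℤ) (v : List ℤ), ((a :: v) = [] ∨ (a :: v).getLast? = some 2) →
          (v = [] ∨ v.getLast? = some 2) := by
        intro a v h
        rcases v with _ | ⟨c, v⟩
        · left; rfl
        · right
          rcases h with h | h
          · simp at h
          · simpa using h
      have t1 := tail a v h2
      have t2 := tail b v' h2'
      rw [(entries_cons a v).1, (entries_cons b v').1] at e0
      rw [(entries_cons a v).2, (entries_cons b v').2] at e1
      have l1 := lt_of_end v hv t1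
      have l2 := lt_of_end v' hv' t2
      have p1 := (growth v hv).2.1
      have p2 := (growth v' hv').2.1
      have p3 := (growth v hv).1
      rw [← e1] at e0 l2
      have hab : a = b := by
        rcases lt_trichotomy a b with h | h | h
        · exfalso; nlinarith
        · exact h
        · exfalso; nlinarith
      subst hab
      have e2 : cmat v 1 0 = cmat v' 1 0 := by linarith
      rw [ih v' hv hv' t1 t2 e1 e2]

/-- The sum of the entries. -/
def nrm (w : List ℤ) : ℤ := cmat w 0 0 + cmat w 0 1 + cmat w 1 0 + cmat w 1 1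

theorem ent01 (w : List ℤ) : cmat w 0 1 = cmat w.reverse 1 0 := by
  rw [cmat_reverse]; rfl

theorem ent_le (w : List ℤ) (hw : Word12 w) : cmat w 1 0 ≤ cmat w 0 0 := by
  rcases w with _ | ⟨a, v⟩
  · simp [cmat]
  · obtain ⟨e1, e2⟩ := entries_cons a v
    have hv' : Word12 v := fun b hb => hw b (List.mem_cons_of_mem _ hb)
    obtain ⟨g1, g2, g3, _⟩ := growth v hv'
    have ha : 1 ≤ a := by
      rcases hw a (List.mem_cons_self) with h | h <;> omega
    rw [e1, e2]
    nlinarith

theorem ent01_bd (w : List ℤ) (hw : Word12 w) : 0 ≤ cmat w 0 1 ∧ cmat w 0 1 ≤ cmat w 0 0 := by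
  have e0 : cmat w 0 0 = cmat w.reverse 0 0 := by rw [cmat_reverse]; rfl
  rw [ent01, e0]
  exact ⟨(growth _ (word_reverse hw)).2.1, ent_le _ (word_reverse hw)⟩

theorem ent11_bd (w : List ℤ) (hw : Word12 w) : 0 ≤ cmat w 1 1 ∧ cmat w 1 1 ≤ cmat w 0 0 := by
  rcases w with _ | ⟨a, v⟩
  · simp [cmat]
  · have hv' : Word12 v := fun b hb => hw b (List.mem_cons_of_mem _ hb)
    have e : cmat (a :: v) 1 1 = cmat v 0 1 := by
      rw [cmat_cons]; simp [Matrix.mul_apply, Fin.sum_univ_two]
    obtain ⟨h1, h2⟩ := ent01_bd v hv'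
    have h3 := ent_le (a :: v) hw
    rw [(entries_cons a v).2] at h3
    rw [e]
    exact ⟨h1, h2.trans h3⟩

theorem nrm_bd (w : List ℤ) (hw : Word12 w) : cmat w 0 0 ≤ nrm w ∧ nrm w ≤ 4 * cmat w 0 0 := by
  have h1 := ent01_bd w hw
  have h2 := ent11_bd w hw
  have h3 := ent_le w hw
  have h4 := (growth w hw).2.1
  unfold nrm
  constructor <;> linarith

theorem nrm_pos (w : List ℤ) (hw : Word12 w) : 1 ≤ nrm w :=
  (growth w hw).1.trans (nrm_bd w hw).1

theorem nrm_append (v w : List ℤ) (hv : Word12 v) (hw : Word12 w) :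
    nrm (v ++ w) ≤ nrm v * nrm w := by
  have a1 := ent01_bd v hv
  have a2 := ent11_bd v hv
  have a3 := (growth v hv).2.1
  have a4 := (growth v hv).1
  have b1 := ent01_bd w hw
  have b2 := ent11_bd w hw
  have b3 := (growth w hw).2.1
  have b4 := (growth w hw).1
  unfold nrm
  rw [cmat_append]
  simp only [Matrix.mul_apply, Fin.sum_univ_two]
  have m1 := mul_nonneg (show 0 ≤ cmat v 0 0 by linarith) b3
  have m2 := mul_nonneg (show 0 ≤ cmat v 0 0 by linarith) b2.1
  have m3 := mul_nonneg a1.1 (show 0 ≤ cmat w 0 0 by linarith)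
  have m4 := mul_nonneg a1.1 b1.1
  have m5 := mul_nonneg a3 b3
  have m6 := mul_nonneg a3 b2.1
  have m7 := mul_nonneg a2.1 (show 0 ≤ cmat w 0 0 by linarith)
  have m8 := mul_nonneg a2.1 b1.1
  nlinarith

theorem nrm_reverse (w : List ℤ) : nrm w.reverse = nrm w := by
  unfold nrm
  rw [cmat_reverse]
  simp only [Matrix.transpose_apply]
  ring

theorem pow_bound (y y0 b : ℝ) (hy : 0 < y) (hy0 : 0 < y0) (hb : 0 < b) (h : y0 ^ 2 ≤ b ^ 33) :
    y ^ (2 / 33 : ℝ) ≤ b * (1 + 2 / 33 * (y / y0 - 1)) := by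
  have h1 : y0 ^ (2 / 33 : ℝ) ≤ b := by
    have h2 : (y0 ^ 2) ^ (1 / 33 : ℝ) ≤ (b ^ 33) ^ (1 / 33 : ℝ) :=
      Real.rpow_le_rpow (by positivity) h (by norm_num)
    rw [← Real.rpow_natCast y0 2, ← Real.rpow_natCast b 33, ← Real.rpow_mul hy0.le,
      ← Real.rpow_mul hb.le] at h2
    norm_num at h2
    exact h2
  have h3 : y = y0 * (1 + (y / y0 - 1)) := by field_simp; ring
  have hpos : 0 < y / y0 := div_pos hy hy0
  have h4 : (1 + (y / y0 - 1)) ^ (2 / 33 : ℝ) ≤ 1 + 2 / 33 * (y / y0 - 1) :=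
    rpow_one_add_le_one_add_mul_self (by linarith) (by norm_num) (by norm_num)
  calc y ^ (2 / 33 : ℝ) = y0 ^ (2 / 33 : ℝ) * (1 + (y / y0 - 1)) ^ (2 / 33 : ℝ) := by
        rw [← Real.mul_rpow hy0.le (by linarith), ← h3]
    _ ≤ b * (1 + 2 / 33 * (y / y0 - 1)) :=
        mul_le_mul h1 h4 (Real.rpow_nonneg (by linarith) _) hb.le

theorem poly_ineq (x : ℝ) (h1 : 9 / 25 ≤ x) (h2 : x ≤ 37 / 50) :
    1 / (171 / 100 + x) ≤
      1 / ((271 / 100 + 171 / 100 * x) * (1242667 / 1237500 + 12811 / 309375 * x))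
      + 1 / ((442 / 100 + 171 / 100 * x) * (5743631 / 5500000 + 35237 / 1375000 * x)) := by
  have e : (171 / 100 + x) * ((271 / 100 + 171 / 100 * x) * (1242667 / 1237500 + 12811 / 309375 * x)
      + (442 / 100 + 171 / 100 * x) * (5743631 / 5500000 + 35237 / 1375000 * x))
      - (271 / 100 + 171 / 100 * x) * (1242667 / 1237500 + 12811 / 309375 * x)
        * ((442 / 100 + 171 / 100 * x) * (5743631 / 5500000 + 35237 / 1375000 * x))
      = 233732883151905341969/277186658203125000000 * (37/50 - x)^4 + 5043252500642883732761/1108746632812500000000 * (x - 9/25) * (37/50 - x)^3 + 17410969268073555630497/2217493265625000000000 * (x - 9/25)^2 * (37/50 - x)^2 + 2858057253417537857483/554373316406250000000 * (x - 9/25)^3 * (37/50 - x) + 67606688756068226009/67196765625000000000 * (x - 9/25)^4 := by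
    ring
  have p1 : 0 ≤ x - 9 / 25 := by linarith
  have p2 : 0 ≤ 37 / 50 - x := by linarith
  have hx : 0 < x := by linarith
  have e2 : 0 ≤ (171 / 100 + x) * ((271 / 100 + 171 / 100 * x) * (1242667 / 1237500 + 12811 / 309375 * x)
      + (442 / 100 + 171 / 100 * x) * (5743631 / 5500000 + 35237 / 1375000 * x))
      - (271 / 100 + 171 / 100 * x) * (1242667 / 1237500 + 12811 / 309375 * x)
        * ((442 / 100 + 171 / 100 * x) * (5743631 / 5500000 + 35237 / 1375000 * x)) := by
    rw [e]; positivity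
  have d1 : 0 < (271 / 100 + 171 / 100 * x) * (1242667 / 1237500 + 12811 / 309375 * x) := by
    positivity
  have d2 : 0 < (442 / 100 + 171 / 100 * x) * (5743631 / 5500000 + 35237 / 1375000 * x) := by
    positivity
  rw [div_add_div _ _ d1.ne' d2.ne', div_le_div_iff₀ (by positivity) (by positivity)]
  linarith

theorem step_bound (a x X b y0 : ℝ) (ha : 1 ≤ a) (hx : 0 < x) (hX : 0 < X) (hb : 0 < b)
    (hy0 : 0 < y0) (h : y0 ^ 2 ≤ b ^ 33) :
    X ^ (35 / 33 : ℝ) * (1 / ((1 + 171 / 100 * (a + x)) * (b * (1 + 2 / 33 * ((a + x) / y0 - 1)))))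
      ≤ (X / (a + x)) ^ (35 / 33 : ℝ) / (171 / 100 + 1 / (a + x)) := by
  have hy : 0 < a + x := by linarith
  have h1 : (a + x) ^ (35 / 33 : ℝ) ≤ (a + x) * (b * (1 + 2 / 33 * ((a + x) / y0 - 1))) := by
    have : (35 / 33 : ℝ) = 1 + 2 / 33 := by norm_num
    rw [this, Real.rpow_add hy, Real.rpow_one]
    exact mul_le_mul_of_nonneg_left (pow_bound _ _ _ hy hy0 hb h) hy.le
  rw [Real.div_rpow hX.le hy.le, div_div, ← mul_one_div (X ^ (35 / 33 : ℝ)) _]
  refine mul_le_mul_of_nonneg_left ?_ (Real.rpow_nonneg hX.le _)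
  have h2 : (171 / 100 + 1 / (a + x)) = (1 + 171 / 100 * (a + x)) / (a + x) := by
    field_simp; ring
  have hpw : 0 < (a + x) ^ (35 / 33 : ℝ) := Real.rpow_pos_of_pos hy _
  rw [h2]
  apply one_div_le_one_div_of_le
  · positivity
  · calc (a + x) ^ (35 / 33 : ℝ) * ((1 + 171 / 100 * (a + x)) / (a + x))
        ≤ ((a + x) * (b * (1 + 2 / 33 * ((a + x) / y0 - 1)))) * ((1 + 171 / 100 * (a + x)) / (a + x)) :=
          mul_le_mul_of_nonneg_right h1 (by positivity)
      _ = (1 + 171 / 100 * (a + x)) * (b * (1 + 2 / 33 * ((a + x) / y0 - 1))) := by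
          field_simp

theorem count_aux (n : ℕ) : ∀ x X : ℝ, 9 / 25 ≤ x → x ≤ 37 / 50 → 1 ≤ X → X ≤ 3 * (4 / 3) ^ n →
    ∃ F : Finset (List ℤ), (∀ w ∈ F, Word12 w ∧ (cmat w 0 0 : ℝ) + x * cmat w 1 0 ≤ X) ∧
      1 / 9 * (X ^ (35 / 33 : ℝ) / (171 / 100 + x)) ≤ F.card := by
  have base : ∀ x X : ℝ, 9 / 25 ≤ x → x ≤ 37 / 50 → 1 ≤ X → X ≤ 3 →
      ∃ F : Finset (List ℤ), (∀ w ∈ F, Word12 w ∧ (cmat w 0 0 : ℝ) + x * cmat w 1 0 ≤ X) ∧
      1 / 9 * (X ^ (35 / 33 : ℝ) / (171 / 100 + x)) ≤ F.card := by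
    intro x X h1 h2 h3 h4
    refine ⟨{[]}, ?_, ?_⟩
    · intro w hw
      rw [Finset.mem_singleton] at hw
      subst hw
      refine ⟨by intro a ha; simp at ha, ?_⟩
      simp [cmat]; linarith
    · have h5 : X ^ (35 / 33 : ℝ) ≤ X ^ (2 : ℝ) :=
        Real.rpow_le_rpow_of_exponent_le h3 (by norm_num)
      have h6 : X ^ (2 : ℝ) ≤ 9 := by
        rw [Real.rpow_two]; nlinarith
      have h7 : X ^ (35 / 33 : ℝ) / (171 / 100 + x) ≤ 9 := by
        rw [div_le_iff₀ (by linarith)]; linarith
      simp only [Finset.card_singleton]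
      push_cast
      linarith
  induction n with
  | zero =>
    intro x X h1 h2 h3 h4
    exact base x X h1 h2 h3 (by simpa using h4)
  | succ n ih =>
    intro x X h1 h2 h3 h4
    rcases le_or_gt X 3 with h | h
    · exact base x X h1 h2 h3 h
    have hx0 : 0 < x := by linarith
    have y1 : 0 < 1 + x := by linarith
    have y2 : 0 < 2 + x := by linarith
    have q1 : 1 ≤ X / (1 + x) := by rw [le_div_iff₀ y1]; linarith
    have q2 : 1 ≤ X / (2 + x) := by rw [le_div_iff₀ y2]; linarith
    have hpn : X ≤ 3 * (4 / 3) ^ n * (4 / 3) := by rw [pow_succ] at h4; linarith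
    have hpos : (0 : ℝ) < 3 * (4 / 3) ^ n := by positivity
    have r1 : X / (1 + x) ≤ 3 * (4 / 3) ^ n := by
      rw [div_le_iff₀ y1]; nlinarith
    have r2 : X / (2 + x) ≤ 3 * (4 / 3) ^ n := by
      rw [div_le_iff₀ y2]; nlinarith
    obtain ⟨F1, hF1, hc1⟩ := ih (1 / (1 + x)) (X / (1 + x))
      (by rw [le_div_iff₀ y1]; linarith) (by rw [div_le_iff₀ y1]; linarith) q1 r1
    obtain ⟨F2, hF2, hc2⟩ := ih (1 / (2 + x)) (X / (2 + x))
      (by rw [le_div_iff₀ y2]; linarith) (by rw [div_le_iff₀ y2]; linarith) q2 r2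
    refine ⟨F1.map ⟨List.cons 1, List.cons_injective⟩ ∪ F2.map ⟨List.cons 2, List.cons_injective⟩,
      ?_, ?_⟩
    · intro w hw
      rw [Finset.mem_union, Finset.mem_map, Finset.mem_map] at hw
      rcases hw with ⟨v, hv, rfl⟩ | ⟨v, hv, rfl⟩
      · obtain ⟨hv1, hv2⟩ := hF1 v hv
        refine ⟨?_, ?_⟩
        · intro a ha
          simp only [Function.Embedding.coeFn_mk, List.mem_cons] at ha
          rcases ha with ha | ha
          · left; exact ha
          · exact hv1 a ha
        · simp only [Function.Embedding.coeFn_mk]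
          rw [(entries_cons 1 v).1, (entries_cons 1 v).2]
          push_cast
          rw [le_div_iff₀ y1] at hv2
          have e : ((cmat v 0 0 : ℝ) + 1 / (1 + x) * cmat v 1 0) * (1 + x)
              = 1 * (cmat v 0 0 : ℝ) + cmat v 1 0 + x * cmat v 0 0 := by
            field_simp
            ring
          rw [e] at hv2; exact hv2
      · obtain ⟨hv1, hv2⟩ := hF2 v hv
        refine ⟨?_, ?_⟩
        · intro a ha
          simp only [Function.Embedding.coeFn_mk, List.mem_cons] at ha
          rcases ha with ha | ha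
          · right; exact ha
          · exact hv1 a ha
        · simp only [Function.Embedding.coeFn_mk]
          rw [(entries_cons 2 v).1, (entries_cons 2 v).2]
          push_cast
          rw [le_div_iff₀ y2] at hv2
          have e : ((cmat v 0 0 : ℝ) + 1 / (2 + x) * cmat v 1 0) * (2 + x)
              = 2 * (cmat v 0 0 : ℝ) + cmat v 1 0 + x * cmat v 0 0 := by
            field_simp
            ring
          rw [e] at hv2; exact hv2
    · rw [Finset.card_union_of_disjoint, Finset.card_map, Finset.card_map]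
      · push_cast
        have s1 := step_bound 1 x X (12811 / 12500) (3 / 2) (by norm_num) hx0 (by linarith)
          (by norm_num) (by norm_num) (by norm_num)
        have s2 := step_bound 2 x X (105711 / 100000) (5 / 2) (by norm_num) hx0 (by linarith)
          (by norm_num) (by norm_num) (by norm_num)
        have hP := poly_ineq x h1 h2
        have hXp : 0 ≤ X ^ (35 / 33 : ℝ) := Real.rpow_nonneg (by linarith) _
        have e1 : (1 + 171 / 100 * (1 + x)) * (12811 / 12500 * (1 + 2 / 33 * ((1 + x) / (3 / 2) - 1)))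
            = (271 / 100 + 171 / 100 * x) * (1242667 / 1237500 + 12811 / 309375 * x) := by ring
        have e2 : (1 + 171 / 100 * (2 + x)) * (105711 / 100000 * (1 + 2 / 33 * ((2 + x) / (5 / 2) - 1)))
            = (442 / 100 + 171 / 100 * x) * (5743631 / 5500000 + 35237 / 1375000 * x) := by ring
        rw [e1] at s1
        rw [e2] at s2
        have h5 : X ^ (35 / 33 : ℝ) / (171 / 100 + x) ≤
            (X / (1 + x)) ^ (35 / 33 : ℝ) / (171 / 100 + 1 / (1 + x))
            + (X / (2 + x)) ^ (35 / 33 : ℝ) / (171 / 100 + 1 / (2 + x)) := by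
          rw [← mul_one_div (X ^ (35 / 33 : ℝ)) _]
          refine (mul_le_mul_of_nonneg_left hP hXp).trans ?_
          rw [mul_add]
          exact add_le_add s1 s2
        linarith
      · rw [Finset.disjoint_left]
        intro w hw1 hw2
        rw [Finset.mem_map] at hw1 hw2
        obtain ⟨v1, _, hv1⟩ := hw1
        obtain ⟨v2, _, hv2⟩ := hw2
        simp only [Function.Embedding.coeFn_mk] at hv1 hv2
        rw [← hv2] at hv1
        have := (List.cons_eq_cons.mp hv1).1
        norm_num at this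

theorem words_count (Y : ℝ) (hY : 1 ≤ Y) : ∃ F : Finset (List ℤ),
    (∀ w ∈ F, Word12 w ∧ (cmat w 0 0 : ℝ) ≤ Y) ∧ 1 / 20 * Y ^ (35 / 33 : ℝ) ≤ F.card := by
  obtain ⟨n, hn⟩ := pow_unbounded_of_one_lt Y (show (1 : ℝ) < 4 / 3 by norm_num)
  obtain ⟨F, hF, hc⟩ := count_aux n (1 / 2) Y (by norm_num) (by norm_num) hY
    (by have : (0 : ℝ) < (4 / 3) ^ n := by positivity
        linarith)
  refine ⟨F, fun w hw => ?_, ?_⟩
  · obtain ⟨h1, h2⟩ := hF w hw
    refine ⟨h1, ?_⟩
    have h3 := (growth w h1).2.1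
    have h4 : (0 : ℝ) ≤ (cmat w 1 0 : ℝ) := by exact_mod_cast h3
    linarith
  · refine le_trans ?_ hc
    have h5 : (0 : ℝ) ≤ Y ^ (35 / 33 : ℝ) := Real.rpow_nonneg (by linarith) _
    have h6 : 1 / 9 * (Y ^ (35 / 33 : ℝ) / (171 / 100 + 1 / 2))
        = 100 / 1989 * Y ^ (35 / 33 : ℝ) := by ring
    rw [h6]
    nlinarith


theorem K_append (u v : List ℤ) :
    cmat (u ++ v) 0 0 = cmat u 0 0 * cmat v 0 0 + cmat u 0 1 * cmat v 1 0 := by
  rw [cmat_append]; simp [Matrix.mul_apply, Fin.sum_univ_two]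

theorem K_append_bd (u v : List ℤ) (hu : Word12 u) (hv : Word12 v) :
    cmat u 0 0 * cmat v 0 0 ≤ cmat (u ++ v) 0 0 ∧
      cmat (u ++ v) 0 0 ≤ 2 * cmat u 0 0 * cmat v 0 0 := by
  have h1 := ent01_bd u hu
  have h2 := ent_le v hv
  have h3 := (growth v hv).2.1
  have h4 := (growth u hu).1
  rw [K_append]
  constructor
  · nlinarith [mul_nonneg h1.1 h3]
  · have : cmat u 0 1 * cmat v 1 0 ≤ cmat u 0 0 * cmat v 0 0 :=
      mul_le_mul h1.2 h2 h3 (by omega)
    linarith

theorem K_reverse (w : List ℤ) : cmat w.reverse 0 0 = cmat w 0 0 := by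
  rw [cmat_reverse]; rfl

end Pool.Agent.H51.ZB
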