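import Mathlib
import Pool.Agent.H51.ZB.Df

set_option autoImplicit false

/-!
Large sets of words of equal length with nearly equal continuant matrices.

Proof. Let F be the set of `words_count Y` (words w over {1,2} with K(w) = cmat w 0 0 ≤ Y, |F| ≥ Y^(35/33)/20), without the
(at most 7) words of length < 2 (length ≥ 2 makes all four entries ≥ 1: write w = a :: b :: w'). All entries of cmat w
lie in [1, K(w)] (lemmas growth, ent_le, ent01_bd, ent11_bd of Df). Put ε = Y^(-1/500) ≤ 1, and give w the key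
(length of w, and for the four entries x of cmat w the natural numbers ⌊log x / log(1+ε)⌋). 2^(length/2) ≤ K(w) (since K(a::b::w) ≥ 2 K(w)),
so length ≤ 2 log Y/log 2 + 2; log(1+ε) ≥ ε/2, so the number of keys is at most (2 log Y/log 2 + 3) (2 Y^(1/500) log Y + 1)^4.
By pigeonhole some class B0 of words with equal key has at least (|F| - 7) / (number of keys) elements, and
this is ≥ (2Y)^(21/20) for Y ≥ Y₀, because 35/33 - 4/500 > 21/20 (asymptotics). Within B0 the entries compare up to the factor 1+ε.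
Padding: for l : ℕ put B_l = {b ++ 1^l : b ∈ B0} (List.replicate l 1). It has |B0| elements, equal lengths, the entries still compare
with the factor 1+ε (multiply on the right by the nonnegative matrix cmat 1^l), and K grows with l, unboundedly. Let l be maximal with
K ≤ Y for all b ∈ B_l (l = 0 is allowed). Then some b ∈ B0 has K(b ++ 1^(l+1)) > Y, and K(w ++ [1]) ≤ 2 K(w), so K(b ++ 1^l) > Y/2,
and all others have K ≥ (Y/2)/(1+ε) ≥ Y/4 ≥ Y/8. Take B = B_l.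
-/

namespace Pool.Agent.H51.ZB

private theorem Blk_asym : ∃ Y₀ : ℝ, 120 ≤ Y₀ ∧ ∀ Y : ℝ, Y₀ ≤ Y →
    ((2 * Real.log Y / Real.log 2 + 3) * (2 * Y ^ (1 / 500 : ℝ) * Real.log Y + 1) ^ 4) *
      (2 * Y) ^ (21 / 20 : ℝ) ≤ 1 / 20 * Y ^ (35 / 33 : ℝ) - 3 := by
  have h1 := (isLittleO_log_rpow_rpow_atTop (5 : ℝ) (by norm_num : (0 : ℝ) < 43 / 16500)).bound
    (by norm_num : (0 : ℝ) < 1 / 77760)
  obtain ⟨Y1, hY1⟩ := Filter.eventually_atTop.1 h1
  refine ⟨max Y1 120, le_max_right _ _, fun Y hY => ?_⟩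
  have hY120 : 120 ≤ Y := (le_max_right _ _).trans hY
  have hY0 : 0 < Y := by linarith
  have h2 := hY1 Y ((le_max_left _ _).trans hY)
  have hl1 : 1 ≤ Real.log Y := by
    rw [Real.le_log_iff_exp_le hY0]
    have := Real.exp_one_lt_d9
    linarith
  have hl0 : 0 < Real.log Y := by linarith
  rw [Real.norm_of_nonneg (by positivity), Real.norm_of_nonneg (by positivity)] at h2
  have e5 : Real.log Y ^ (5 : ℝ) = Real.log Y ^ 5 := by
    rw [← Real.rpow_natCast]; norm_num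
  rw [e5] at h2
  have hlog2 := Real.log_two_gt_d9
  have b1 : 2 * Real.log Y / Real.log 2 + 3 ≤ 6 * Real.log Y := by
    have : 2 * Real.log Y / Real.log 2 ≤ 3 * Real.log Y := by
      rw [div_le_iff₀ (by linarith)]
      nlinarith
    linarith
  have hu : 1 ≤ Y ^ (1 / 500 : ℝ) := Real.one_le_rpow (by linarith) (by norm_num)
  have b2 : 2 * Y ^ (1 / 500 : ℝ) * Real.log Y + 1 ≤ 3 * (Y ^ (1 / 500 : ℝ) * Real.log Y) := by
    have : 1 ≤ Y ^ (1 / 500 : ℝ) * Real.log Y := by nlinarith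
    linarith
  have b3 : (2 * Y ^ (1 / 500 : ℝ) * Real.log Y + 1) ^ 4 ≤
      81 * (Y ^ (4 / 500 : ℝ) * Real.log Y ^ 4) := by
    have h3 : (2 * Y ^ (1 / 500 : ℝ) * Real.log Y + 1) ^ 4 ≤
        (3 * (Y ^ (1 / 500 : ℝ) * Real.log Y)) ^ 4 :=
      pow_le_pow_left₀ (by positivity) b2 4
    refine h3.trans (le_of_eq ?_)
    have h4 : (Y ^ (1 / 500 : ℝ)) ^ 4 = Y ^ (4 / 500 : ℝ) := by
      rw [← Real.rpow_natCast, ← Real.rpow_mul hY0.le]; norm_num
    rw [mul_pow, mul_pow, h4]; norm_num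
  have b4 : (2 * Y) ^ (21 / 20 : ℝ) ≤ 4 * Y ^ (21 / 20 : ℝ) := by
    rw [Real.mul_rpow (by norm_num) hY0.le]
    refine mul_le_mul_of_nonneg_right ?_ (by positivity)
    have : (2 : ℝ) ^ (21 / 20 : ℝ) ≤ 2 ^ (2 : ℝ) :=
      Real.rpow_le_rpow_of_exponent_le (by norm_num) (by norm_num)
    refine this.trans (le_of_eq ?_)
    norm_num
  have b5 : ((2 * Real.log Y / Real.log 2 + 3) * (2 * Y ^ (1 / 500 : ℝ) * Real.log Y + 1) ^ 4) *
      (2 * Y) ^ (21 / 20 : ℝ) ≤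
      ((6 * Real.log Y) * (81 * (Y ^ (4 / 500 : ℝ) * Real.log Y ^ 4))) * (4 * Y ^ (21 / 20 : ℝ)) := by
    have hl2 : 0 < Real.log 2 := by linarith
    gcongr
  have e6 : ((6 * Real.log Y) * (81 * (Y ^ (4 / 500 : ℝ) * Real.log Y ^ 4))) * (4 * Y ^ (21 / 20 : ℝ)) =
      1944 * Real.log Y ^ 5 * (Y ^ (4 / 500 : ℝ) * Y ^ (21 / 20 : ℝ)) := by ring
  have e7 : Y ^ (4 / 500 : ℝ) * Y ^ (21 / 20 : ℝ) * Y ^ (43 / 16500 : ℝ) = Y ^ (35 / 33 : ℝ) := by
    rw [← Real.rpow_add hY0, ← Real.rpow_add hY0]; norm_num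
  have hP : 0 < Y ^ (4 / 500 : ℝ) * Y ^ (21 / 20 : ℝ) := by positivity
  have b6 : 1944 * Real.log Y ^ 5 * (Y ^ (4 / 500 : ℝ) * Y ^ (21 / 20 : ℝ)) ≤
      1 / 40 * Y ^ (35 / 33 : ℝ) := by
    have h3 : Real.log Y ^ 5 * (Y ^ (4 / 500 : ℝ) * Y ^ (21 / 20 : ℝ)) ≤
        (1 / 77760 * Y ^ (43 / 16500 : ℝ)) * (Y ^ (4 / 500 : ℝ) * Y ^ (21 / 20 : ℝ)) :=
      mul_le_mul_of_nonneg_right h2 hP.le
    have h4 : (1 / 77760 * Y ^ (43 / 16500 : ℝ)) * (Y ^ (4 / 500 : ℝ) * Y ^ (21 / 20 : ℝ)) =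
        1 / 77760 * Y ^ (35 / 33 : ℝ) := by
      rw [← e7]; ring
    rw [h4] at h3
    nlinarith
  have b7 : Y ≤ Y ^ (35 / 33 : ℝ) := by
    conv_lhs => rw [← Real.rpow_one Y]
    exact Real.rpow_le_rpow_of_exponent_le (by linarith) (by norm_num)
  rw [e6] at b5
  linarith

private theorem Blk_pow : ∀ w : List ℤ, Word12 w → (2 : ℤ) ^ (w.length / 2) ≤ cmat w 0 0
  | [], _ => by simp [cmat]
  | [a], h => by
    have := (growth [a] h).1
    simpa using this
  | a :: b :: w, h => by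
    have hw : Word12 w := fun c hc => h c (by simp [hc])
    have hbw : Word12 (b :: w) := fun c hc => h c (by simp [List.mem_cons] at hc ⊢; tauto)
    have ih := Blk_pow w hw
    obtain ⟨e1, e2⟩ := entries_cons a (b :: w)
    obtain ⟨e3, e4⟩ := entries_cons b w
    obtain ⟨g1, g2, _, _⟩ := growth w hw
    obtain ⟨g3, _, _, _⟩ := growth (b :: w) hbw
    have ha : 1 ≤ a := by
      rcases h a (by simp) with h | h <;> omega
    have hb : 1 ≤ b := by
      rcases h b (by simp) with h | h <;> omega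
    have hl : (a :: b :: w).length / 2 = w.length / 2 + 1 := by
      simp only [List.length_cons]; omega
    rw [hl, pow_succ, e1, e4]
    have h3 : cmat w 0 0 ≤ cmat (b :: w) 0 0 := by
      rw [e3]; nlinarith
    nlinarith

private theorem Blk_pos (w : List ℤ) (hw : Word12 w) (h2 : 2 ≤ w.length) (i j : Fin 2) :
    1 ≤ cmat w i j ∧ cmat w i j ≤ cmat w 0 0 := by
  obtain _ | ⟨a, _ | ⟨b, v⟩⟩ := w
  · simp at h2
  · simp at h2
  have hv : Word12 (b :: v) := fun c hc => hw c (List.mem_cons_of_mem _ hc)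
  have hr : Word12 (a :: b :: v).reverse := word_reverse hw
  have hr' : Word12 (b :: v).reverse := word_reverse hv
  have g := growth _ hw
  have e := ent_le _ hw
  have e1 := ent01_bd _ hw
  have e2 := ent11_bd _ hw
  have h01 : 1 ≤ cmat (a :: b :: v) 0 1 := by
    rw [ent01]; exact (growth _ hr).2.2.1 (by simp)
  have h11 : 1 ≤ cmat (a :: b :: v) 1 1 := by
    have e : cmat (a :: b :: v) 1 1 = cmat (b :: v) 0 1 := by
      rw [cmat_cons a]; simp [Matrix.mul_apply, Fin.sum_univ_two]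
    rw [e, ent01]; exact (growth _ hr').2.2.1 (by simp)
  have h10 : 1 ≤ cmat (a :: b :: v) 1 0 := g.2.2.1 (by simp)
  fin_cases i <;> fin_cases j
  · exact ⟨g.1, le_rfl⟩
  · exact ⟨h01, e1.2⟩
  · exact ⟨h10, e⟩
  · exact ⟨h11, e2.2⟩

private theorem Blk_nonneg (w : List ℤ) (hw : Word12 w) (i j : Fin 2) : 0 ≤ cmat w i j := by
  have g := growth _ hw
  have e1 := ent01_bd _ hw
  have e2 := ent11_bd _ hw
  fin_cases i <;> fin_cases j
  · exact le_trans (by norm_num) g.1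
  · exact e1.1
  · exact g.2.1
  · exact e2.1

private theorem Blk_rep (l : ℕ) : Word12 (List.replicate l 1) := fun a ha =>
  Or.inl (List.eq_of_mem_replicate ha)

/-- padding -/
private theorem Blk_pad (Y ε : ℝ) (hε0 : 0 ≤ ε) (hε : ε ≤ 1) (B : Finset (List ℤ)) (hB : B.Nonempty)
    (l₀ : ℕ) (hl : 2 ≤ l₀) (hlen : ∀ b ∈ B, b.length = l₀)
    (hw : ∀ b ∈ B, Word12 b ∧ (cmat b 0 0 : ℝ) ≤ Y)
    (hc : ∀ b ∈ B, ∀ b' ∈ B, ∀ i j, (cmat b i j : ℝ) ≤ (1 + ε) * (cmat b' i j : ℝ)) :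
    ∃ B' : Finset (List ℤ), B'.card = B.card ∧ (∃ l : ℕ, 2 ≤ l ∧ ∀ b ∈ B', b.length = l) ∧
      (∀ b ∈ B', Word12 b ∧ Y / 8 ≤ (cmat b 0 0 : ℝ) ∧ (cmat b 0 0 : ℝ) ≤ Y) ∧
      (∀ b ∈ B', ∀ b' ∈ B', ∀ i j, (cmat b i j : ℝ) ≤ (1 + ε) * (cmat b' i j : ℝ)) := by
  classical
  have hcl : ∀ l : ℕ, ∀ b ∈ B, ∀ b' ∈ B, ∀ i j,
      (cmat (b ++ List.replicate l 1) i j : ℝ) ≤
        (1 + ε) * (cmat (b' ++ List.replicate l 1) i j : ℝ) := by
    intro l b hb b' hb' i j
    rw [cmat_append, cmat_append]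
    simp only [Matrix.mul_apply, Fin.sum_univ_two]
    push_cast
    have n0 : (0 : ℝ) ≤ (cmat (List.replicate l 1) 0 j : ℝ) := by
      exact_mod_cast Blk_nonneg _ (Blk_rep l) 0 j
    have n1 : (0 : ℝ) ≤ (cmat (List.replicate l 1) 1 j : ℝ) := by
      exact_mod_cast Blk_nonneg _ (Blk_rep l) 1 j
    have c0 := mul_le_mul_of_nonneg_right (hc b hb b' hb' i 0) n0
    have c1 := mul_le_mul_of_nonneg_right (hc b hb b' hb' i 1) n1
    linarith
  have hex : ∃ l : ℕ, ¬ ∀ b ∈ B, (cmat (b ++ List.replicate l 1) 0 0 : ℝ) ≤ Y := by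
    obtain ⟨b, hb⟩ := hB
    obtain ⟨l, hl⟩ := exists_nat_gt Y
    refine ⟨l, fun h => ?_⟩
    have h1 := h b hb
    have h2 := (growth (b ++ List.replicate l 1) (word_append (hw b hb).1 (Blk_rep l))).2.2.2
    have h3 : ((b ++ List.replicate l 1).length : ℝ) ≤ (cmat (b ++ List.replicate l 1) 0 0 : ℝ) := by
      exact_mod_cast h2
    rw [List.length_append, List.length_replicate] at h3
    push_cast at h3
    have h4 : (0 : ℝ) ≤ (b.length : ℝ) := by positivity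
    linarith
  obtain ⟨l, hPl, b₁, hb₁, hbig⟩ : ∃ l : ℕ, (∀ b ∈ B, (cmat (b ++ List.replicate l 1) 0 0 : ℝ) ≤ Y) ∧
      ∃ b ∈ B, Y < (cmat (b ++ List.replicate (l + 1) 1) 0 0 : ℝ) := by
    have hs := Nat.find_spec hex
    have hm := fun {m : ℕ} => Nat.find_min hex (m := m)
    have h0 : Nat.find hex ≠ 0 := by
      intro h0
      rw [h0] at hs
      exact hs fun b hb => by simpa using (hw b hb).2
    obtain ⟨l, hl⟩ := Nat.exists_eq_succ_of_ne_zero h0
    refine ⟨l, not_not.1 (hm (by omega)), ?_⟩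
    rw [hl] at hs
    push Not at hs
    exact hs
  have hhalf : Y / 2 ≤ (cmat (b₁ ++ List.replicate l 1) 0 0 : ℝ) := by
    have h1 := (K_append_bd (b₁ ++ List.replicate l 1) [1]
      (word_append (hw b₁ hb₁).1 (Blk_rep l)) (by intro a ha; simp at ha; exact Or.inl ha)).2
    have h2 : cmat [1] 0 0 = 1 := by simp [cmat]
    have h3 : b₁ ++ List.replicate (l + 1) 1 = (b₁ ++ List.replicate l 1) ++ [1] := by
      rw [List.replicate_succ', List.append_assoc]
    rw [h2, mul_one, ← h3] at h1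
    have h4 : (cmat (b₁ ++ List.replicate (l + 1) 1) 0 0 : ℝ) ≤
        2 * (cmat (b₁ ++ List.replicate l 1) 0 0 : ℝ) := by exact_mod_cast h1
    linarith
  refine ⟨B.image fun b => b ++ List.replicate l 1, ?_, ⟨l₀ + l, by omega, ?_⟩, ?_, ?_⟩
  · exact Finset.card_image_of_injective _ fun a b h => List.append_cancel_right h
  · intro b hb
    obtain ⟨a, ha, rfl⟩ := Finset.mem_image.1 hb
    rw [List.length_append, List.length_replicate, hlen a ha]
  · intro b hb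
    obtain ⟨a, ha, rfl⟩ := Finset.mem_image.1 hb
    refine ⟨word_append (hw a ha).1 (Blk_rep l), ?_, hPl a ha⟩
    have h1 := hcl l b₁ hb₁ a ha 0 0
    have h2 : (0 : ℝ) ≤ (cmat (a ++ List.replicate l 1) 0 0 : ℝ) := by
      exact_mod_cast Blk_nonneg _ (word_append (hw a ha).1 (Blk_rep l)) 0 0
    nlinarith
  · intro b hb b' hb' i j
    obtain ⟨a, ha, rfl⟩ := Finset.mem_image.1 hb
    obtain ⟨a', ha', rfl⟩ := Finset.mem_image.1 hb'
    exact hcl l a ha a' ha' i j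

/-- equal keys -/
private theorem Blk_key {x x' L ε : ℝ} (hx : 1 ≤ x) (hx' : 1 ≤ x') (hε : 0 < ε)
    (hL : L = Real.log (1 + ε)) (h : ⌊Real.log x / L⌋₊ = ⌊Real.log x' / L⌋₊) :
    x ≤ (1 + ε) * x' := by
  have hL0 : 0 < L := by rw [hL]; exact Real.log_pos (by linarith)
  have h1 : Real.log x / L < ⌊Real.log x / L⌋₊ + 1 := Nat.lt_floor_add_one _
  have h2 : (⌊Real.log x' / L⌋₊ : ℝ) ≤ Real.log x' / L :=
    Nat.floor_le (div_nonneg (Real.log_nonneg hx') hL0.le)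
  rw [h] at h1
  have h3 : Real.log x / L < Real.log x' / L + 1 := by linarith
  rw [div_lt_iff₀ hL0, add_mul, div_mul_cancel₀ _ hL0.ne', one_mul] at h3
  have h4 : Real.log x < Real.log ((1 + ε) * x') := by
    rw [Real.log_mul (by linarith) (by linarith), ← hL]; linarith
  exact ((Real.log_lt_log_iff (by linarith) (by positivity)).1 h4).le

theorem block : ∃ Y₀ : ℝ, 1 ≤ Y₀ ∧ ∀ Y : ℝ, Y₀ ≤ Y → ∃ B : Finset (List ℤ), B.Nonempty ∧
    (∃ l : ℕ, 2 ≤ l ∧ ∀ b ∈ B, b.length = l) ∧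
    (∀ b ∈ B, Word12 b ∧ Y / 8 ≤ (cmat b 0 0 : ℝ) ∧ (cmat b 0 0 : ℝ) ≤ Y) ∧
    (∀ b ∈ B, ∀ b' ∈ B, ∀ i j,
      (cmat b i j : ℝ) ≤ (1 + Y ^ (-(1 / 500) : ℝ)) * (cmat b' i j : ℝ)) ∧
    (2 * Y) ^ (21 / 20 : ℝ) ≤ (B.card : ℝ) := by
  classical
  obtain ⟨Y₀, hY₀, hasym⟩ := Blk_asym
  refine ⟨Y₀, by linarith, fun Y hY => ?_⟩
  have hY120 : 120 ≤ Y := hY₀.trans hY
  have hY0 : 0 < Y := by linarith
  have hY1 : 1 ≤ Y := by linarith
  obtain ⟨F, hF, hFc⟩ := words_count Y hY1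
  set ε : ℝ := Y ^ (-(1 / 500) : ℝ) with hε
  have hε0 : 0 < ε := Real.rpow_pos_of_pos hY0 _
  have hε1 : ε ≤ 1 := Real.rpow_le_one_of_one_le_of_nonpos hY1 (by norm_num)
  set L : ℝ := Real.log (1 + ε) with hL
  have hL0 : 0 < L := Real.log_pos (by linarith)
  have hL2 : ε / 2 ≤ L := by
    have h1 := Real.one_sub_inv_le_log_of_pos (by linarith : 0 < 1 + ε)
    have h2 : ε / 2 ≤ 1 - (1 + ε)⁻¹ := by
      have h3 : 1 - (1 + ε)⁻¹ = ε / (1 + ε) := by
        field_simp; ring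
      rw [h3]
      gcongr
      linarith
    linarith
  have hεinv : ε * Y ^ (1 / 500 : ℝ) = 1 := by
    rw [hε, ← Real.rpow_add hY0]; norm_num
  have hlY : 0 ≤ Real.log Y := Real.log_nonneg hY1
  -- the words of length at least two
  set F' : Finset (List ℤ) := F.filter fun w => 2 ≤ w.length with hF'
  have hF'c : (F.card : ℝ) - 3 ≤ F'.card := by
    have h1 : (F.filter fun w => ¬ 2 ≤ w.length) ⊆ {[], [1], [2]} := by
      intro w hw
      rw [Finset.mem_filter] at hw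
      have hw12 := (hF w hw.1).1
      obtain _ | ⟨a, _ | ⟨b, v⟩⟩ := w
      · simp
      · rcases hw12 a (by simp) with h | h <;> simp [h]
      · exfalso; apply hw.2; simp
    have h2 : (F.filter fun w => ¬ 2 ≤ w.length).card ≤ 3 :=
      (Finset.card_le_card h1).trans Finset.card_le_three
    have h3 := Finset.card_filter_add_card_filter_not (s := F) (fun w => 2 ≤ w.length)
    have h4 : (F.card : ℝ) ≤ F'.card + 3 := by
      have : F.card ≤ F'.card + 3 := by rw [hF']; omega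
      exact_mod_cast this
    linarith
  -- keys
  set n1 : ℕ := ⌊2 * Real.log Y / Real.log 2 + 1⌋₊ + 1 with hn1
  set n2 : ℕ := ⌊Real.log Y / L⌋₊ + 1 with hn2
  set κ : List ℤ → Fin 2 → Fin 2 → ℕ := fun w i j => ⌊Real.log (cmat w i j : ℝ) / L⌋₊ with hκ
  set key : List ℤ → ℕ × ℕ × ℕ × ℕ × ℕ := fun w =>
    (w.length, κ w 0 0, κ w 0 1, κ w 1 0, κ w 1 1) with hkey
  set T : Finset (ℕ × ℕ × ℕ × ℕ × ℕ) := Finset.range n1 ×ˢ Finset.range n2 ×ˢ Finset.range n2 ×ˢ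
    Finset.range n2 ×ˢ Finset.range n2 with hT
  have hlog2 : 0 < Real.log 2 := Real.log_pos (by norm_num)
  have hmaps : ∀ w ∈ F', key w ∈ T := by
    intro w hw
    rw [hF', Finset.mem_filter] at hw
    obtain ⟨hw12, hwY⟩ := hF w hw.1
    have hent : ∀ i j, κ w i j < n2 := by
      intro i j
      obtain ⟨p1, p2⟩ := Blk_pos w hw12 hw.2 i j
      have p3 : (1 : ℝ) ≤ (cmat w i j : ℝ) := by exact_mod_cast p1
      have p4 : (cmat w i j : ℝ) ≤ (cmat w 0 0 : ℝ) := by exact_mod_cast p2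
      have p5 : Real.log (cmat w i j : ℝ) ≤ Real.log Y := Real.log_le_log (by linarith) (by linarith)
      rw [hn2, Nat.lt_succ_iff]
      exact Nat.floor_mono (by gcongr)
    have hlen : w.length < n1 := by
      have h1 := Blk_pow w hw12
      have h2 : (2 : ℝ) ^ (w.length / 2) ≤ Y := by
        have : (2 : ℝ) ^ (w.length / 2) ≤ (cmat w 0 0 : ℝ) := by exact_mod_cast h1
        linarith
      have h3 : (w.length / 2 : ℕ) * Real.log 2 ≤ Real.log Y := by
        rw [← Real.log_pow]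
        exact Real.log_le_log (by positivity) h2
      have h4 : ((w.length / 2 : ℕ) : ℝ) ≤ Real.log Y / Real.log 2 := by
        rw [le_div_iff₀ hlog2]; exact h3
      have h5 : (w.length : ℝ) ≤ 2 * ((w.length / 2 : ℕ) : ℝ) + 1 := by
        have : w.length ≤ 2 * (w.length / 2) + 1 := by omega
        exact_mod_cast this
      rw [hn1, Nat.lt_succ_iff]
      apply Nat.le_floor
      have h6 : 2 * Real.log Y / Real.log 2 = 2 * (Real.log Y / Real.log 2) := by ring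
      rw [h6]; linarith
    rw [hT, hkey]
    simp only [Finset.mem_product, Finset.mem_range]
    exact ⟨hlen, hent 0 0, hent 0 1, hent 1 0, hent 1 1⟩
  have hTne : T.Nonempty := by
    rw [hT]
    refine ⟨(0, 0, 0, 0, 0), ?_⟩
    simp [hn1, hn2]
  have hTcard : (T.card : ℝ) ≤
      (2 * Real.log Y / Real.log 2 + 3) * (2 * Y ^ (1 / 500 : ℝ) * Real.log Y + 1) ^ 4 := by
    have h1 : T.card = n1 * n2 ^ 4 := by
      rw [hT]
      simp only [Finset.card_product, Finset.card_range]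
      ring
    rw [h1]
    push_cast
    have h2 : (n1 : ℝ) ≤ 2 * Real.log Y / Real.log 2 + 3 := by
      rw [hn1]
      push_cast
      have := Nat.floor_le (show 0 ≤ 2 * Real.log Y / Real.log 2 + 1 by positivity)
      linarith
    have h3 : (n2 : ℝ) ≤ 2 * Y ^ (1 / 500 : ℝ) * Real.log Y + 1 := by
      rw [hn2]
      push_cast
      have h4 := Nat.floor_le (show 0 ≤ Real.log Y / L by positivity)
      have h5 : Real.log Y / L ≤ 2 * Y ^ (1 / 500 : ℝ) * Real.log Y := by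
        rw [div_le_iff₀ hL0]
        have h6 : 1 ≤ 2 * Y ^ (1 / 500 : ℝ) * L := by
          have h7 : 0 < Y ^ (1 / 500 : ℝ) := by positivity
          nlinarith
        nlinarith
      linarith
    gcongr
  have hpig : ∃ y ∈ T, (2 * Y) ^ (21 / 20 : ℝ) ≤ ((F'.filter fun w => key w = y).card : ℝ) := by
    refine Finset.exists_le_card_fiber_of_nsmul_le_card_of_maps_to hmaps hTne ?_
    rw [nsmul_eq_mul]
    have h1 := hasym Y hY
    have h2 : (T.card : ℝ) * (2 * Y) ^ (21 / 20 : ℝ) ≤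
        ((2 * Real.log Y / Real.log 2 + 3) * (2 * Y ^ (1 / 500 : ℝ) * Real.log Y + 1) ^ 4) *
          (2 * Y) ^ (21 / 20 : ℝ) :=
      mul_le_mul_of_nonneg_right hTcard (by positivity)
    linarith
  obtain ⟨y, -, hcard⟩ := hpig
  set B0 : Finset (List ℤ) := F'.filter fun w => key w = y with hB0
  have hB0ne : B0.Nonempty := by
    rw [← Finset.card_pos]
    have : 0 < (2 * Y) ^ (21 / 20 : ℝ) := by positivity
    exact_mod_cast lt_of_lt_of_le this hcard
  have hmem : ∀ b ∈ B0, Word12 b ∧ (cmat b 0 0 : ℝ) ≤ Y ∧ 2 ≤ b.length ∧ key b = y := by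
    intro b hb
    rw [hB0, Finset.mem_filter, hF', Finset.mem_filter] at hb
    exact ⟨(hF b hb.1.1).1, (hF b hb.1.1).2, hb.1.2, hb.2⟩
  obtain ⟨b₀, hb₀⟩ := hB0ne
  have hlen : ∀ b ∈ B0, b.length = y.1 := by
    intro b hb
    rw [← (hmem b hb).2.2.2]
  have hcmp : ∀ b ∈ B0, ∀ b' ∈ B0, ∀ i j, (cmat b i j : ℝ) ≤ (1 + ε) * (cmat b' i j : ℝ) := by
    intro b hb b' hb' i j
    have hk : key b = key b' := by rw [(hmem b hb).2.2.2, (hmem b' hb').2.2.2]
    have hk' : κ b i j = κ b' i j := by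
      simp only [hkey, Prod.mk.injEq] at hk
      fin_cases i <;> fin_cases j
      · exact hk.2.1
      · exact hk.2.2.1
      · exact hk.2.2.2.1
      · exact hk.2.2.2.2
    have p1 := (Blk_pos b (hmem b hb).1 (hmem b hb).2.2.1 i j).1
    have p2 := (Blk_pos b' (hmem b' hb').1 (hmem b' hb').2.2.1 i j).1
    exact Blk_key (by exact_mod_cast p1) (by exact_mod_cast p2) hε0 hL hk'
  obtain ⟨B, hBc, hBl, hBw, hBe⟩ := Blk_pad Y ε hε0.le hε1 B0 ⟨b₀, hb₀⟩ y.1
    (by rw [← hlen b₀ hb₀]; exact (hmem b₀ hb₀).2.2.1) hlen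
    (fun b hb => ⟨(hmem b hb).1, (hmem b hb).2.1⟩) hcmp
  refine ⟨B, ?_, hBl, hBw, hBe, by rw [hBc]; exact hcard⟩
  rw [← Finset.card_pos, hBc, Finset.card_pos]
  exact ⟨b₀, hb₀⟩

end Pool.Agent.H51.ZB
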