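import Mathlib
import Pool.Agent.H51.ZB.Df
import Pool.Agent.H51.ZB.Blk

set_option autoImplicit false

namespace Pool.Agent.H51.ZB

open Matrix

/-- A block: a finite set of words with a representative and a comparison constant. -/
structure Rec where
  B : Finset (List ℤ)
  b : List ℤ
  e : ℝ

def Rec.Ok (r : Rec) : Prop :=
  r.b ∈ r.B ∧ 0 ≤ r.e ∧ 2 ≤ r.b.length ∧ (∀ w ∈ r.B, Word12 w ∧ w.length = r.b.length) ∧
  (∀ w ∈ r.B, ∀ w' ∈ r.B, ∀ i j, (cmat w i j : ℝ) ≤ (1 + r.e) * (cmat w' i j : ℝ)) ∧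
  (2 * (cmat r.b 0 0 : ℝ)) ^ (21 / 20 : ℝ) ≤ (r.B.card : ℝ)

def prodF : List Rec → Finset (List ℤ)
  | [] => {[]}
  | r :: L => Finset.image₂ (fun x y => x ++ y) r.B (prodF L)

def rep : List Rec → List ℤ
  | [] => []
  | r :: L => r.b ++ rep L

def Ef : List Rec → ℝ
  | [] => 1
  | r :: L => (1 + r.e) * Ef L

theorem rep_append (L1 L2 : List Rec) : rep (L1 ++ L2) = rep L1 ++ rep L2 := by
  induction L1 with
  | nil => rfl
  | cons r L ih => simp only [List.cons_append, rep, ih, List.append_assoc]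

theorem Ef_append (L1 L2 : List Rec) : Ef (L1 ++ L2) = Ef L1 * Ef L2 := by
  induction L1 with
  | nil => simp [Ef]
  | cons r L ih => simp only [List.cons_append, Ef, ih, mul_assoc]

theorem Ef_one_le (L : List Rec) (hL : ∀ r ∈ L, r.Ok) : 1 ≤ Ef L := by
  induction L with
  | nil => simp [Ef]
  | cons r L ih =>
    have h1 := ih (fun s hs => hL s (List.mem_cons_of_mem _ hs))
    have h2 := (hL r List.mem_cons_self).2.1
    simp only [Ef]
    nlinarith

theorem mem_prodF (L : List Rec) (hL : ∀ r ∈ L, r.Ok) :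
    ∀ w ∈ prodF L, Word12 w ∧ w.length = (rep L).length := by
  induction L with
  | nil =>
    intro w hw
    simp only [prodF, Finset.mem_singleton] at hw
    subst hw
    exact ⟨by intro a ha; simp at ha, rfl⟩
  | cons r L ih =>
    intro w hw
    simp only [prodF, Finset.mem_image₂] at hw
    obtain ⟨x, hx, y, hy, rfl⟩ := hw
    obtain ⟨_, _, _, h4, _⟩ := hL r List.mem_cons_self
    obtain ⟨hx1, hx2⟩ := h4 x hx
    obtain ⟨hy1, hy2⟩ := ih (fun s hs => hL s (List.mem_cons_of_mem _ hs)) y hy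
    refine ⟨word_append hx1 hy1, ?_⟩
    simp only [rep, List.length_append, hx2, hy2]

theorem rep_mem (L : List Rec) (hL : ∀ r ∈ L, r.Ok) : rep L ∈ prodF L := by
  induction L with
  | nil => simp [rep, prodF]
  | cons r L ih =>
    simp only [rep, prodF]
    exact Finset.mem_image₂_of_mem (hL r List.mem_cons_self).1
      (ih (fun s hs => hL s (List.mem_cons_of_mem _ hs)))

theorem sum_prodF_cons {β : Type} [AddCommMonoid β] (r : Rec) (L : List Rec)
    (hL : ∀ s ∈ r :: L, s.Ok) (f : List ℤ → β) :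
    ∑ w ∈ prodF (r :: L), f w = ∑ x ∈ r.B, ∑ y ∈ prodF L, f (x ++ y) := by
  have h1 : prodF (r :: L) = (r.B ×ˢ prodF L).image (fun p => p.1 ++ p.2) := by
    ext w
    simp only [prodF, Finset.mem_image₂, Finset.mem_image, Finset.mem_product, Prod.exists]
    constructor
    · rintro ⟨x, hx, y, hy, rfl⟩
      exact ⟨x, y, ⟨hx, hy⟩, rfl⟩
    · rintro ⟨x, y, ⟨hx, hy⟩, rfl⟩
      exact ⟨x, hx, y, hy, rfl⟩
  rw [h1, Finset.sum_image, Finset.sum_product]
  intro p hp p' hp' h
  rw [Finset.mem_coe, Finset.mem_product] at hp hp'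
  obtain ⟨_, _, _, h4, _⟩ := hL r List.mem_cons_self
  have e1 := (h4 p.1 hp.1).2
  have e2 := (h4 p'.1 hp'.1).2
  have := List.append_inj h (by rw [e1, e2])
  exact Prod.ext this.1 this.2

theorem sum_prodF_append {β : Type} [AddCommMonoid β] (L1 L2 : List Rec)
    (hL : ∀ s ∈ L1 ++ L2, s.Ok) (f : List ℤ → β) :
    ∑ w ∈ prodF (L1 ++ L2), f w = ∑ x ∈ prodF L1, ∑ y ∈ prodF L2, f (x ++ y) := by
  induction L1 generalizing f with
  | nil => simp [prodF]
  | cons r L ih =>
    have hL1 : ∀ s ∈ r :: L, s.Ok := fun s hs => hL s (List.mem_append_left _ hs)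
    rw [List.cons_append, sum_prodF_cons r (L ++ L2) hL, sum_prodF_cons r L hL1]
    refine Finset.sum_congr rfl (fun x _ => ?_)
    rw [ih (fun s hs => hL s (List.mem_cons_of_mem _ hs))]
    refine Finset.sum_congr rfl (fun y _ => Finset.sum_congr rfl (fun z _ => ?_))
    rw [List.append_assoc]

theorem card_prodF_append (L1 L2 : List Rec) (hL : ∀ s ∈ L1 ++ L2, s.Ok) :
    (prodF (L1 ++ L2)).card = (prodF L1).card * (prodF L2).card := by
  have h := sum_prodF_append L1 L2 hL (fun _ => (1 : ℕ))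
  simpa using h

theorem ent_nonneg (w : List ℤ) (hw : Word12 w) (i j : Fin 2) : 0 ≤ cmat w i j := by
  fin_cases i <;> fin_cases j
  · have := (growth w hw).1
    simp only [Fin.zero_eta]; omega
  · exact (ent01_bd w hw).1
  · exact (growth w hw).2.1
  · exact (ent11_bd w hw).1

theorem comp_prodF (L : List Rec) (hL : ∀ r ∈ L, r.Ok) : ∀ w ∈ prodF L, ∀ w' ∈ prodF L,
    ∀ i j, (cmat w i j : ℝ) ≤ Ef L * (cmat w' i j : ℝ) := by
  induction L with
  | nil =>
    intro w hw w' hw' i j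
    simp only [prodF, Finset.mem_singleton] at hw hw'
    subst hw; subst hw'
    simp [Ef]
  | cons r L ih =>
    intro w hw w' hw' i j
    have hL' : ∀ s ∈ L, s.Ok := fun s hs => hL s (List.mem_cons_of_mem _ hs)
    simp only [prodF, Finset.mem_image₂] at hw hw'
    obtain ⟨x, hx, y, hy, rfl⟩ := hw
    obtain ⟨x', hx', y', hy', rfl⟩ := hw'
    obtain ⟨_, he, _, h4, h5, _⟩ := hL r List.mem_cons_self
    have hc := ih hL' y hy y' hy'
    have hE := Ef_one_le L hL'
    have n1 : ∀ k l, (0 : ℝ) ≤ cmat x k l := fun k l => by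
      exact_mod_cast ent_nonneg x (h4 x hx).1 k l
    have n2 : ∀ k l, (0 : ℝ) ≤ cmat x' k l := fun k l => by
      exact_mod_cast ent_nonneg x' (h4 x' hx').1 k l
    have n3 : ∀ k l, (0 : ℝ) ≤ cmat y k l := fun k l => by
      exact_mod_cast ent_nonneg y (mem_prodF L hL' y hy).1 k l
    have n4 : ∀ k l, (0 : ℝ) ≤ cmat y' k l := fun k l => by
      exact_mod_cast ent_nonneg y' (mem_prodF L hL' y' hy').1 k l
    rw [cmat_append, cmat_append]
    simp only [Matrix.mul_apply, Fin.sum_univ_two, Ef]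
    push_cast
    have p : ∀ k, (cmat x i k : ℝ) * cmat y k j
        ≤ ((1 + r.e) * Ef L) * ((cmat x' i k : ℝ) * cmat y' k j) := by
      intro k
      calc (cmat x i k : ℝ) * cmat y k j
          ≤ ((1 + r.e) * cmat x' i k) * (Ef L * cmat y' k j) :=
            mul_le_mul (h5 x hx x' hx' i k) (hc k j) (n3 k j)
              (mul_nonneg (by linarith) (n2 i k))
        _ = _ := by ring
    have := add_le_add (p 0) (p 1)
    linarith

theorem K_pos (w : List ℤ) (hw : Word12 w) : (1 : ℝ) ≤ cmat w 0 0 := by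
  exact_mod_cast (growth w hw).1

theorem K_bdR (u v : List ℤ) (hu : Word12 u) (hv : Word12 v) :
    (cmat u 0 0 : ℝ) * cmat v 0 0 ≤ cmat (u ++ v) 0 0 ∧
      (cmat (u ++ v) 0 0 : ℝ) ≤ 2 * cmat u 0 0 * cmat v 0 0 := by
  have h := K_append_bd u v hu hv
  exact ⟨by exact_mod_cast h.1, by exact_mod_cast h.2⟩

theorem rep_word (L : List Rec) (hL : ∀ r ∈ L, r.Ok) : Word12 (rep L) :=
  (mem_prodF L hL _ (rep_mem L hL)).1

theorem card_prodF (L : List Rec) (hL : ∀ r ∈ L, r.Ok) :
    (cmat (rep L) 0 0 : ℝ) ^ (21 / 20 : ℝ) ≤ ((prodF L).card : ℝ) := by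
  induction L with
  | nil => simp [rep, prodF, cmat]
  | cons r L ih =>
    have hL' : ∀ s ∈ L, s.Ok := fun s hs => hL s (List.mem_cons_of_mem _ hs)
    have hc : (prodF (r :: L)).card = r.B.card * (prodF L).card := by
      have h := sum_prodF_cons r L hL (fun _ => (1 : ℕ))
      simpa using h
    obtain ⟨hb, _, _, h4, _, h6⟩ := hL r List.mem_cons_self
    have hbw := (h4 r.b hb).1
    have k1 := K_pos r.b hbw
    have k2 := K_pos (rep L) (rep_word L hL')
    rw [hc]
    push_cast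
    simp only [rep]
    calc (cmat (r.b ++ rep L) 0 0 : ℝ) ^ (21 / 20 : ℝ)
        ≤ ((2 * cmat r.b 0 0) * cmat (rep L) 0 0) ^ (21 / 20 : ℝ) := by
          apply Real.rpow_le_rpow
          · have := K_pos _ (word_append hbw (rep_word L hL')); linarith
          · exact (K_bdR r.b (rep L) hbw (rep_word L hL')).2
          · norm_num
      _ = (2 * (cmat r.b 0 0 : ℝ)) ^ (21 / 20 : ℝ) * (cmat (rep L) 0 0 : ℝ) ^ (21 / 20 : ℝ) :=
          Real.mul_rpow (by linarith) (by linarith)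
      _ ≤ (r.B.card : ℝ) * ((prodF L).card : ℝ) :=
          mul_le_mul h6 (ih hL') (Real.rpow_nonneg (by linarith) _) (by positivity)

/-- The mirror image of a block. -/
def Rec.mir (r : Rec) : Rec := ⟨r.B.image List.reverse, r.b.reverse, r.e⟩

theorem mir_ok (r : Rec) (h : r.Ok) : r.mir.Ok := by
  obtain ⟨h1, h2, h3, h4, h5, h6⟩ := h
  refine ⟨Finset.mem_image_of_mem _ h1, h2, by simpa [Rec.mir] using h3, ?_, ?_, ?_⟩
  · intro w hw
    simp only [Rec.mir, Finset.mem_image] at hw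
    obtain ⟨x, hx, rfl⟩ := hw
    exact ⟨word_reverse (h4 x hx).1, by simp [Rec.mir, (h4 x hx).2]⟩
  · intro w hw w' hw' i j
    simp only [Rec.mir, Finset.mem_image] at hw hw'
    obtain ⟨x, hx, rfl⟩ := hw
    obtain ⟨x', hx', rfl⟩ := hw'
    rw [cmat_reverse, cmat_reverse]
    exact h5 x hx x' hx' j i
  · simp only [Rec.mir]
    rw [K_reverse, Finset.card_image_of_injective _ List.reverse_injective]
    exact h6

theorem mir_mir (r : Rec) : r.mir.mir = r := by
  unfold Rec.mir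
  simp only [Finset.image_image, List.reverse_reverse]
  have : (List.reverse ∘ List.reverse : List ℤ → List ℤ) = id := by
    funext x; simp
  rw [this, Finset.image_id]

def mirL (L : List Rec) : List Rec := (L.map Rec.mir).reverse

theorem rep_mirL (L : List Rec) : rep (mirL L) = (rep L).reverse := by
  induction L with
  | nil => rfl
  | cons r L ih =>
    have : mirL (r :: L) = mirL L ++ [r.mir] := by simp [mirL]
    rw [this, rep_append, ih]
    simp [rep, Rec.mir]

theorem Ef_mirL (L : List Rec) : Ef (mirL L) = Ef L := by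
  induction L with
  | nil => rfl
  | cons r L ih =>
    have : mirL (r :: L) = mirL L ++ [r.mir] := by simp [mirL]
    rw [this, Ef_append, ih]
    simp [Ef, Rec.mir, mul_comm]

theorem mirL_ok (L : List Rec) (hL : ∀ r ∈ L, r.Ok) : ∀ r ∈ mirL L, r.Ok := by
  intro r hr
  simp only [mirL, List.mem_reverse, List.mem_map] at hr
  obtain ⟨s, hs, rfl⟩ := hr
  exact mir_ok s (hL s hs)

/-- Granularity of a one-sided chain. -/
def Gran (C : ℝ) (L : List Rec) : Prop := ∀ L1 r L2, L = L1 ++ r :: L2 →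
  (cmat r.b 0 0 : ℝ) ≤ C * (cmat (rep L1) 0 0 : ℝ) ^ (1 / 500 : ℝ)

theorem gran_snoc (C : ℝ) (L : List Rec) (r : Rec) (hL : Gran C L)
    (hr : (cmat r.b 0 0 : ℝ) ≤ C * (cmat (rep L) 0 0 : ℝ) ^ (1 / 500 : ℝ)) :
    Gran C (L ++ [r]) := by
  intro L1 s L2 h
  rcases List.eq_nil_or_concat L2 with h2 | ⟨M, t, h2⟩
  · subst h2
    have := List.append_inj' h rfl
    obtain ⟨e1, e2⟩ := this
    subst e1
    have e3 : r = s := by simpa using e2
    subst e3
    exact hr
  · subst h2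
    have h3 : L ++ [r] = (L1 ++ s :: M) ++ [t] := by simpa using h
    have := List.append_inj' h3 rfl
    exact hL L1 s M this.1

theorem one_block (Y₀ : ℝ) (hY₀ : 1 ≤ Y₀)
    (hB : ∀ Y : ℝ, Y₀ ≤ Y → ∃ B : Finset (List ℤ), B.Nonempty ∧
    (∃ l : ℕ, 2 ≤ l ∧ ∀ b ∈ B, b.length = l) ∧
    (∀ b ∈ B, Word12 b ∧ Y / 8 ≤ (cmat b 0 0 : ℝ) ∧ (cmat b 0 0 : ℝ) ≤ Y) ∧
    (∀ b ∈ B, ∀ b' ∈ B, ∀ i j,
      (cmat b i j : ℝ) ≤ (1 + Y ^ (-(1 / 500) : ℝ)) * (cmat b' i j : ℝ)) ∧
    (2 * Y) ^ (21 / 20 : ℝ) ≤ (B.card : ℝ)) (Y : ℝ) (hY : Y₀ ≤ Y) :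
    ∃ r : Rec, r.Ok ∧ r.e = Y ^ (-(1 / 500) : ℝ) ∧ Y / 8 ≤ (cmat r.b 0 0 : ℝ) ∧
      (cmat r.b 0 0 : ℝ) ≤ Y := by
  obtain ⟨B, ⟨b, hb⟩, ⟨l, hl, hlb⟩, h3, h4, h5⟩ := hB Y hY
  have hY1 : 1 ≤ Y := hY₀.trans hY
  refine ⟨⟨B, b, Y ^ (-(1 / 500) : ℝ)⟩, ⟨hb, by positivity, ?_, ?_, h4, ?_⟩, rfl, (h3 b hb).2.1,
    (h3 b hb).2.2⟩
  · simp only; rw [hlb b hb]; exact hl
  · intro w hw
    exact ⟨(h3 w hw).1, by simp only; rw [hlb w hw, hlb b hb]⟩
  · refine le_trans ?_ h5
    have := K_pos b (h3 b hb).1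
    apply Real.rpow_le_rpow (by simp only; linarith) _ (by norm_num)
    have := (h3 b hb).2.2
    simp only
    linarith

theorem chain_exists : ∃ C X₀ : ℝ, 1 ≤ C ∧ 1 ≤ X₀ ∧ ∀ X : ℝ, X₀ ≤ X → ∃ L : List Rec,
    (∀ r ∈ L, r.Ok) ∧ Ef L ≤ C ∧ X / C ≤ (cmat (rep L) 0 0 : ℝ) ∧
    (cmat (rep L) 0 0 : ℝ) ≤ X ∧ Gran C L := by
  obtain ⟨Y₀, hY₀, hB⟩ := block
  have hblock := one_block Y₀ hY₀ hB
  obtain ⟨η, hη⟩ : ∃ η : ℝ, η = 1 / 250000 := ⟨_, rfl⟩
  have hηpos : 0 < η := by rw [hη]; norm_num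
  have h2η : (2 : ℝ) ^ (-η) < 1 := Real.rpow_lt_one_of_one_lt_of_neg (by norm_num) (by linarith)
  have h2η0 : (0 : ℝ) < (2 : ℝ) ^ (-η) := Real.rpow_pos_of_pos (by norm_num) _
  obtain ⟨c', hc'⟩ : ∃ c' : ℝ, c' = 1 / (1 - (2 : ℝ) ^ (-η)) := ⟨_, rfl⟩
  have hc'pos : 0 < c' := by rw [hc']; apply div_pos one_pos; linarith
  have hc'eq : 1 + c' * (2 : ℝ) ^ (-η) = c' := by
    rw [hc']
    have : (1 - (2 : ℝ) ^ (-η)) ≠ 0 := by linarith
    field_simp
    ring
  obtain ⟨C, hC⟩ : ∃ C : ℝ, C = 16 + 2 * Y₀ ^ 2 + 2 * Real.exp c' := ⟨_, rfl⟩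
  have hexp : 0 < Real.exp c' := Real.exp_pos _
  have hC16 : 16 ≤ C := by rw [hC]; nlinarith
  have hCY : 2 * Y₀ ^ 2 ≤ C := by rw [hC]; nlinarith
  have hCexp : 2 * Real.exp c' ≤ C := by rw [hC]; nlinarith
  have hCY1 : Y₀ ≤ C := by nlinarith
  refine ⟨C, 2 * Y₀, by linarith, by linarith, fun X hX => ?_⟩
  have hXpos : 0 < X := by linarith
  -- the induction
  have key : ∀ n : ℕ, (∃ L : List Rec, (∀ r ∈ L, r.Ok) ∧
      Ef L * Real.exp (c' * (cmat (rep L) 0 0 : ℝ) ^ (-η)) ≤ Real.exp c' ∧ Gran C L ∧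
      (2 : ℝ) ^ n ≤ (cmat (rep L) 0 0 : ℝ) ∧ (cmat (rep L) 0 0 : ℝ) * (2 * Y₀) ≤ X) ∨
      (∃ L : List Rec,
    (∀ r ∈ L, r.Ok) ∧ Ef L ≤ C ∧ X / C ≤ (cmat (rep L) 0 0 : ℝ) ∧
    (cmat (rep L) 0 0 : ℝ) ≤ X ∧ Gran C L) := by
    intro n
    induction n with
    | zero =>
      left
      refine ⟨[], by simp, ?_, ?_, ?_, ?_⟩
      · simp [Ef, rep, cmat]
      · intro L1 r L2 h
        simp at h
      · simp [rep, cmat]
      · simp [rep, cmat]; linarith
    | succ n ih =>
      rcases ih with ⟨L, hL, hE, hG, h2n, hLX⟩ | h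
      · have hw := rep_word L hL
        obtain ⟨K, hK⟩ : ∃ K : ℝ, K = (cmat (rep L) 0 0 : ℝ) := ⟨_, rfl⟩
        have hK1 : 1 ≤ K := by rw [hK]; exact K_pos _ hw
        rw [← hK] at hE h2n hLX
        have hKp : 1 ≤ K ^ (1 / 500 : ℝ) := Real.one_le_rpow hK1 (by norm_num)
        obtain ⟨Y, hY⟩ : ∃ Y : ℝ, Y = max Y₀ (K ^ (1 / 500 : ℝ)) := ⟨_, rfl⟩
        have hYY₀ : Y₀ ≤ Y := by rw [hY]; exact le_max_left _ _
        have hYK : K ^ (1 / 500 : ℝ) ≤ Y := by rw [hY]; exact le_max_right _ _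
        have hYub : Y ≤ Y₀ * K ^ (1 / 500 : ℝ) := by
          rw [hY]
          apply max_le
          · nlinarith
          · nlinarith
        obtain ⟨r, hr, hre, hr1, hr2⟩ := hblock Y hYY₀
        have hrw : Word12 r.b := (hr.2.2.2.1 r.b hr.1).1
        have hrlen : (2 : ℝ) ≤ cmat r.b 0 0 := by
          have h1 := (growth r.b hrw).2.2.2
          have h2 := hr.2.2.1
          have : (2 : ℤ) ≤ cmat r.b 0 0 := by omega
          exact_mod_cast this
        have hrep : rep (L ++ [r]) = rep L ++ r.b := by rw [rep_append]; simp [rep]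
        have hKK := K_bdR (rep L) r.b hw hrw
        rw [← hK, ← hrep] at hKK
        have hL' : ∀ s ∈ L ++ [r], s.Ok := by
          intro s hs
          rcases List.mem_append.mp hs with h | h
          · exact hL s h
          · rw [List.mem_singleton] at h; rw [h]; exact hr
        rcases le_or_gt ((cmat (rep (L ++ [r])) 0 0 : ℝ) * (2 * Y₀)) X with hle | hgt
        · left
          refine ⟨L ++ [r], hL', ?_, ?_, ?_, hle⟩
          · obtain ⟨K', hK'⟩ : ∃ K' : ℝ, K' = (cmat (rep (L ++ [r])) 0 0 : ℝ) := ⟨_, rfl⟩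
            rw [← hK'] at hKK ⊢
            have hK'2 : 2 * K ≤ K' := by nlinarith
            have hEf : Ef (L ++ [r]) = Ef L * (1 + r.e) := by
              rw [Ef_append]; simp [Ef]
            have e1 : r.e ≤ K ^ (-η) := by
              rw [hre]
              calc Y ^ (-(1 / 500) : ℝ) ≤ (K ^ (1 / 500 : ℝ)) ^ (-(1 / 500) : ℝ) :=
                    Real.rpow_le_rpow_of_nonpos (by positivity) hYK (by norm_num)
                _ = K ^ (-η) := by
                    rw [← Real.rpow_mul (by linarith), hη]; norm_num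
            have e2 : K' ^ (-η) ≤ (2 : ℝ) ^ (-η) * K ^ (-η) := by
              rw [← Real.mul_rpow (by norm_num) (by linarith)]
              exact Real.rpow_le_rpow_of_nonpos (by positivity) hK'2 (by linarith)
            have e3 : (1 + r.e) ≤ Real.exp (K ^ (-η)) := by
              have := Real.add_one_le_exp (K ^ (-η))
              linarith
            have hE0 : 0 ≤ Ef L := by linarith [Ef_one_le L hL]
            calc Ef (L ++ [r]) * Real.exp (c' * K' ^ (-η))
                ≤ (Ef L * Real.exp (K ^ (-η))) * Real.exp (c' * ((2 : ℝ) ^ (-η) * K ^ (-η))) := by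
                  rw [hEf]
                  apply mul_le_mul
                  · exact mul_le_mul_of_nonneg_left e3 hE0
                  · exact Real.exp_le_exp.mpr (mul_le_mul_of_nonneg_left e2 hc'pos.le)
                  · positivity
                  · positivity
              _ = Ef L * Real.exp (c' * K ^ (-η)) := by
                  rw [mul_assoc, ← Real.exp_add]
                  congr 2
                  calc K ^ (-η) + c' * ((2 : ℝ) ^ (-η) * K ^ (-η))
                      = (1 + c' * (2 : ℝ) ^ (-η)) * K ^ (-η) := by ring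
                    _ = _ := by rw [hc'eq]
              _ ≤ _ := hE
          · apply gran_snoc C L r hG
            rw [← hK]
            calc (cmat r.b 0 0 : ℝ) ≤ Y := hr2
              _ ≤ Y₀ * K ^ (1 / 500 : ℝ) := hYub
              _ ≤ C * K ^ (1 / 500 : ℝ) := mul_le_mul_of_nonneg_right hCY1 (by linarith)
          · rw [pow_succ]
            have : (2 : ℝ) ^ n * 2 ≤ K * cmat r.b 0 0 :=
              mul_le_mul h2n hrlen (by norm_num) (by linarith)
            linarith [hKK.1]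
        · right
          obtain ⟨Z, hZ⟩ : ∃ Z : ℝ, Z = X / (2 * K) := ⟨_, rfl⟩
          have hZY : Y₀ ≤ Z := by
            rw [hZ, le_div_iff₀ (by positivity)]; linarith
          have hZK : 2 * K * Z = X := by rw [hZ]; field_simp
          obtain ⟨s, hs, hse, hs1, hs2⟩ := hblock Z hZY
          have hsw : Word12 s.b := (hs.2.2.2.1 s.b hs.1).1
          have hreps : rep (L ++ [s]) = rep L ++ s.b := by rw [rep_append]; simp [rep]
          have hKs := K_bdR (rep L) s.b hw hsw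
          rw [← hK, ← hreps] at hKs
          have hLs : ∀ t ∈ L ++ [s], t.Ok := by
            intro t ht
            rcases List.mem_append.mp ht with h | h
            · exact hL t h
            · rw [List.mem_singleton] at h; rw [h]; exact hs
          have hEf : Ef (L ++ [s]) = Ef L * (1 + s.e) := by
            rw [Ef_append]; simp [Ef]
          have hse1 : s.e ≤ 1 := by
            rw [hse]
            exact Real.rpow_le_one_of_one_le_of_nonpos (by linarith) (by norm_num)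
          have hEL : Ef L ≤ Real.exp c' := by
            have h1 : 1 ≤ Real.exp (c' * K ^ (-η)) :=
              Real.one_le_exp (by positivity)
            have h2 := Ef_one_le L hL
            nlinarith
          refine ⟨L ++ [s], hLs, ?_, ?_, ?_, ?_⟩
          · rw [hEf]
            have h0 := hs.2.1
            have h1 := Ef_one_le L hL
            nlinarith
          · rw [div_le_iff₀ (by linarith)]
            have h1 : K * (Z / 8) ≤ cmat (rep (L ++ [s])) 0 0 :=
              (mul_le_mul_of_nonneg_left hs1 (by linarith)).trans hKs.1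
            have h2 : X = 16 * (K * (Z / 8)) := by rw [← hZK]; ring
            have h3 : 0 ≤ (cmat (rep (L ++ [s])) 0 0 : ℝ) := by
              have := K_pos _ (rep_word _ hLs); linarith
            nlinarith
          · have h1 : 2 * K * cmat s.b 0 0 ≤ 2 * K * Z :=
              mul_le_mul_of_nonneg_left hs2 (by linarith)
            linarith [hKs.2]
          · apply gran_snoc C L s hG
            rw [← hK]
            have h1 : X < (2 * K * Y) * (2 * Y₀) := by
              have h2 : (cmat (rep (L ++ [r])) 0 0 : ℝ) ≤ 2 * K * Y :=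
                hKK.2.trans (mul_le_mul_of_nonneg_left hr2 (by linarith))
              have h3 := mul_le_mul_of_nonneg_right h2 (show 0 ≤ 2 * Y₀ by linarith)
              linarith
            have h4 : Z ≤ 2 * Y₀ * Y := by
              rw [← hZK] at h1
              have h5 : 2 * K * Z < 2 * K * (2 * Y₀ * Y) := by linarith
              exact (lt_of_mul_lt_mul_left h5 (by linarith)).le
            calc (cmat s.b 0 0 : ℝ) ≤ Z := hs2
              _ ≤ 2 * Y₀ * Y := h4
              _ ≤ 2 * Y₀ * (Y₀ * K ^ (1 / 500 : ℝ)) :=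
                  mul_le_mul_of_nonneg_left hYub (by linarith)
              _ = 2 * Y₀ ^ 2 * K ^ (1 / 500 : ℝ) := by ring
              _ ≤ C * K ^ (1 / 500 : ℝ) := mul_le_mul_of_nonneg_right hCY (by linarith)
      · right; exact h
  obtain ⟨n, hn⟩ := pow_unbounded_of_one_lt X (show (1 : ℝ) < 2 by norm_num)
  rcases key n with ⟨L, hL, _, _, h2n, hLX⟩ | h
  · exfalso
    have := K_pos _ (rep_word L hL)
    nlinarith
  · exact h

theorem ensemble : ∃ C : ℝ, ∃ N₀ : ℕ, 1 ≤ C ∧ 1 ≤ N₀ ∧ ∀ N : ℕ, N₀ ≤ N → ∃ L : List Rec,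
    (∀ r ∈ L, r.Ok) ∧ Ef L ≤ C ∧
    (∀ w ∈ prodF L, (cmat ([2] ++ w ++ [2]) 0 0 : ℝ) ≤ N) ∧
    (N : ℝ) / C ≤ (cmat (rep L) 0 0 : ℝ) ∧
    (∀ L1 r L2, L = L1 ++ r :: L2 → (cmat r.b 0 0 : ℝ) ≤
      C * (min (cmat (rep L1) 0 0 : ℝ) (cmat (rep L2) 0 0 : ℝ)) ^ (1 / 500 : ℝ)) := by
  obtain ⟨C, X₀, hC, hX₀, hch⟩ := chain_exists
  refine ⟨36 * C ^ 4, ⌈(6 * C * X₀) ^ 2⌉₊ + 1, ?_, by omega, fun N hN => ?_⟩
  · have : 1 ≤ C ^ 4 := one_le_pow₀ hC
    linarith
  have hNr : (6 * C * X₀) ^ 2 ≤ N := by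
    have h1 := Nat.le_ceil ((6 * C * X₀) ^ 2)
    have h2 : ((⌈(6 * C * X₀) ^ 2⌉₊ : ℕ) : ℝ) ≤ N := by exact_mod_cast (by omega)
    linarith
  obtain ⟨X, hX⟩ : ∃ X : ℝ, X = Real.sqrt N / (6 * C) := ⟨_, rfl⟩
  have hXX : X₀ ≤ X := by
    rw [hX, le_div_iff₀ (by positivity)]
    apply Real.le_sqrt_of_sq_le
    have e : (X₀ * (6 * C)) ^ 2 = (6 * C * X₀) ^ 2 := by ring
    rw [e]; exact hNr
  have hX2 : X ^ 2 * (36 * C ^ 2) = N := by
    rw [hX, div_pow, Real.sq_sqrt (Nat.cast_nonneg N)]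
    field_simp
    norm_num
  obtain ⟨L, hL, hE, hlo, hhi, hG⟩ := hch X hXX
  have hXpos : 0 < X := by linarith
  have hw := rep_word L hL
  obtain ⟨K, hK⟩ : ∃ K : ℝ, K = (cmat (rep L) 0 0 : ℝ) := ⟨_, rfl⟩
  have hK1 : 1 ≤ K := by rw [hK]; exact K_pos _ hw
  rw [← hK] at hlo hhi
  have hrr : (cmat (rep (mirL L)) 0 0 : ℝ) = K := by
    rw [rep_mirL, K_reverse, hK]
  have hLL : ∀ r ∈ L ++ mirL L, r.Ok := by
    intro r hr
    rcases List.mem_append.mp hr with h | h
    · exact hL r h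
    · exact mirL_ok L hL r h
  have hE1 := Ef_one_le L hL
  have hEE : Ef (L ++ mirL L) ≤ C ^ 2 := by
    rw [Ef_append, Ef_mirL]; nlinarith
  have hbd := K_bdR (rep L) (rep (mirL L)) hw (rep_word _ (mirL_ok L hL))
  rw [← rep_append, hrr, ← hK] at hbd
  have hC2 : 1 ≤ C ^ 2 := one_le_pow₀ hC
  have hC4 : C ^ 2 ≤ C ^ 4 := pow_le_pow_right₀ hC (by norm_num)
  refine ⟨L ++ mirL L, hLL, ?_, ?_, ?_, ?_⟩
  · linarith
  · intro v hv
    have hvw := (mem_prodF _ hLL v hv).1
    have hcmp := comp_prodF _ hLL v hv _ (rep_mem _ hLL) 0 0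
    have h2w : Word12 [2] := by intro a ha; right; simpa using ha
    have a1 := (K_bdR [2] v h2w hvw).2
    have a2 := (K_bdR ([2] ++ v) [2] (word_append h2w hvw) h2w).2
    have a3 : (cmat [2] 0 0 : ℝ) = 2 := by simp [cmat]
    rw [a3] at a1 a2
    have a4 : (cmat v 0 0 : ℝ) ≤ C ^ 2 * (2 * K * K) := by
      refine hcmp.trans ?_
      apply mul_le_mul hEE hbd.2 _ (by positivity)
      have := K_pos _ (rep_word _ hLL); linarith
    have a5 : K ^ 2 ≤ X ^ 2 := pow_le_pow_left₀ (by linarith) hhi 2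
    have a6 : C ^ 2 * K ^ 2 ≤ C ^ 2 * X ^ 2 := mul_le_mul_of_nonneg_left a5 (by linarith)
    have a7 : (cmat ([2] ++ v ++ [2]) 0 0 : ℝ) ≤ 16 * cmat v 0 0 := by linarith
    have a8 : (16 : ℝ) * cmat v 0 0 ≤ 32 * (C ^ 2 * K ^ 2) := by nlinarith
    have a9 : 0 ≤ C ^ 2 * X ^ 2 := by positivity
    nlinarith
  · have h1 : X ^ 2 ≤ C ^ 2 * K ^ 2 := by
      have : X ≤ C * K := by rw [div_le_iff₀ (by linarith)] at hlo; linarith
      calc X ^ 2 ≤ (C * K) ^ 2 := pow_le_pow_left₀ hXpos.le this 2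
        _ = _ := by ring
    rw [div_le_iff₀ (by positivity)]
    calc (N : ℝ) = X ^ 2 * (36 * C ^ 2) := hX2.symm
      _ ≤ (C ^ 2 * K ^ 2) * (36 * C ^ 2) := mul_le_mul_of_nonneg_right h1 (by positivity)
      _ = (K * K) * (36 * C ^ 4) := by ring
      _ ≤ _ := mul_le_mul_of_nonneg_right hbd.1 (by positivity)
  · have hCC : C ≤ 36 * C ^ 4 := by nlinarith
    have one : ∀ L1 r L2 M, L = L1 ++ r :: L2 → (∀ s ∈ M, s.Ok) →
        K ≤ (cmat (rep M) 0 0 : ℝ) → (cmat r.b 0 0 : ℝ) ≤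
        36 * C ^ 4 * (min (cmat (rep L1) 0 0 : ℝ) (cmat (rep (L2 ++ M)) 0 0 : ℝ))
          ^ (1 / 500 : ℝ) := by
      intro L1 r L2 M h hM hKM
      have hok1 : ∀ s ∈ L1, s.Ok := fun s hs => hL s (by rw [h]; exact List.mem_append_left _ hs)
      have hok2 : ∀ s ∈ r :: L2, s.Ok := fun s hs => hL s (by rw [h]; exact List.mem_append_right _ hs)
      have hok3 : ∀ s ∈ L2, s.Ok := fun s hs => hok2 s (List.mem_cons_of_mem _ hs)
      have k1 := K_pos _ (rep_word L1 hok1)
      have k2 := K_pos _ (rep_word _ hok2)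
      have k3 := K_pos _ (rep_word _ hok3)
      have e1 := (K_bdR _ _ (rep_word L1 hok1) (rep_word _ hok2)).1
      rw [← rep_append, ← h, ← hK] at e1
      have e2 : (cmat (rep L1) 0 0 : ℝ) ≤ K := by nlinarith
      have e3 := (K_bdR _ _ (rep_word L2 hok3) (rep_word _ hM)).1
      rw [← rep_append] at e3
      have e4 : (cmat (rep L1) 0 0 : ℝ) ≤ cmat (rep (L2 ++ M)) 0 0 := by nlinarith
      rw [min_eq_left e4]
      have := hG L1 r L2 h
      refine this.trans ?_
      exact mul_le_mul_of_nonneg_right hCC (Real.rpow_nonneg (by linarith) _)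
    intro L1 r L2 h
    rcases List.append_eq_append_iff.mp h with ⟨as, h1, h2⟩ | ⟨bs, h1, h2⟩
    · -- L1 = L ++ as, mirL L = as ++ r :: L2
      have h3 : L = mirL L2 ++ r.mir :: mirL as := by
        have h4 : mirL (mirL L) = L := by
          unfold mirL
          rw [List.map_reverse, List.reverse_reverse, List.map_map]
          have : (Rec.mir ∘ Rec.mir) = id := by funext x; exact mir_mir x
          rw [this, List.map_id]
        rw [← h4, h2]
        simp [mirL]
      have hok : ∀ s ∈ as, s.Ok := fun s hs => mirL_ok L hL s (by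
        rw [h2]; exact List.mem_append_left _ hs)
      have h5 := one (mirL L2) r.mir (mirL as) (mirL L) h3 (mirL_ok L hL) (le_of_eq hrr.symm)
      rw [rep_mirL, K_reverse] at h5
      have h6 : (cmat (rep (mirL as ++ mirL L)) 0 0 : ℝ) = cmat (rep L1) 0 0 := by
        rw [h1, rep_append, rep_append, rep_mirL, rep_mirL, ← List.reverse_append, K_reverse]
      rw [h6, min_comm] at h5
      have h7 : (cmat r.mir.b 0 0 : ℝ) = cmat r.b 0 0 := by
        simp only [Rec.mir]; rw [K_reverse]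
      rw [h7] at h5
      exact h5
    · -- L = L1 ++ bs, r :: L2 = bs ++ mirL L
      rcases bs with _ | ⟨t, bs⟩
      · -- bs = [], so L = L1 and mirL L = r :: L2
        simp only [List.append_nil] at h1
        simp only [List.nil_append] at h2
        have h3 : L = mirL L2 ++ r.mir :: mirL [] := by
          have h4 : mirL (mirL L) = L := by
            unfold mirL
            rw [List.map_reverse, List.reverse_reverse, List.map_map]
            have : (Rec.mir ∘ Rec.mir) = id := by funext x; exact mir_mir x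
            rw [this, List.map_id]
          rw [← h4, ← h2]
          simp [mirL]
        have h5 := one (mirL L2) r.mir (mirL []) (mirL L) h3 (mirL_ok L hL) (le_of_eq hrr.symm)
        rw [rep_mirL, K_reverse] at h5
        have h6 : (cmat (rep (mirL [] ++ mirL L)) 0 0 : ℝ) = cmat (rep L1) 0 0 := by
          rw [← h1]
          simp only [mirL, List.map_nil, List.reverse_nil, List.nil_append]
          rw [← hK, ← hrr]; rfl
        rw [h6, min_comm] at h5
        have h7 : (cmat r.mir.b 0 0 : ℝ) = cmat r.b 0 0 := by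
          simp only [Rec.mir]; rw [K_reverse]
        rw [h7] at h5
        exact h5
      · rw [List.cons_append] at h2
        obtain ⟨e1, e2⟩ := List.cons_eq_cons.mp h2
        subst e1
        rw [e2]
        exact one L1 r bs (mirL L) h1 (mirL_ok L hL) (le_of_eq hrr.symm)

end Pool.Agent.H51.ZB
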