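import Mathlib
import Pool.Agent.H51.ZB.Ee

set_option autoImplicit false

/-!
From a pointwise bound of an exponential sum to the number of representations.

Proof. All sums are < P := k N + 1. Orthogonality: for an integer m with |m| < P, ∑_{h < P} ee (h m / P) = P if m = 0
and 0 otherwise (geometric sum). Hence, with S(θ) = ∑_{w ∈ Ω} ee (θ κ w), for n ≤ k N (for n > k N the count is 0),
P · #{f : Fin k → Ω, ∑ κ (f i) = n} = ∑_{h<P} ee (-h n / P) S(h/P)^k ≤ ∑_{h<P} |S(h/P)|^k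
(use Finset.prod_univ_sum / Finset.sum_pow' to expand the power over Fintype.piFinset).
For each h take by Dirichlet (Real.exists_rat_abs_sub_le_and_den_le or similar) a rational r = a/q, q = r.den ≤ n0 := Nat.sqrt N
(n0 ≥ 1), |h/P - r| ≤ 1/((n0+1) q), in lowest terms. As 0 ≤ h/P < 1 and 1/((n0+1) q) < 1/q one gets 0 ≤ a ≤ q.
The hypothesis gives |S(h/P)|^k ≤ (C |Ω|)^k (q (1 + N|h/P - a/q|))^(-c k) ≤ (C|Ω|)^k q^(-4) (1 + N |h/P - a/q|)^(-4)
since c k ≥ 4 and the base is ≥ 1. Summing over all (q,a) with q ≥ 1, 0 ≤ a ≤ q instead of the chosen one: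
∑_h |S(h/P)|^k ≤ (C|Ω|)^k ∑_{q ≥ 1} ∑_{0≤a≤q} q^(-4) ∑_{h<P} (1 + N|h/P - a/q|)^(-2).
N/P ≥ 1/(k+1), so 1 + N|h/P - x| ≥ (1 + |h - P x|)/(k+1), and ∑_{h<P} (1+|h-y|)^(-2) ≤ 4 or 10 for every real y
(compare with ∑ 1/j²). So the inner sum is ≤ 10 (k+1)², and ∑_q (q+1) q^(-4) ≤ ∑ 2 q^(-3) ≤ 4. In total
the count is ≤ 40 (k+1)² C^k |Ω|^k / P and P ≥ N. The statement only asks for some constant C' depending on C, c, k only.
-/

namespace Pool.Agent.H51.ZB

theorem ee_nat_mul (h : ℕ) (x : ℝ) : ee (h * x) = ee x ^ h := by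
  induction h with
  | zero => simp [ee_zero]
  | succ h ih =>
    rw [pow_succ, ← ih, ← ee_add]
    congr 1
    push_cast
    ring

theorem ee_sum {J : Type} (s : Finset J) (g : J → ℝ) : ee (∑ i ∈ s, g i) = ∏ i ∈ s, ee (g i) := by
  classical
  induction s using Finset.induction_on with
  | empty => simp [ee_zero]
  | insert a s ha ih => rw [Finset.sum_insert ha, Finset.prod_insert ha, ee_add, ih]

theorem ee_eq_one {x : ℝ} (h : ee x = 1) : ∃ n : ℤ, x = n := by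
  unfold ee at h
  rw [Complex.exp_eq_one_iff] at h
  obtain ⟨n, hn⟩ := h
  refine ⟨n, ?_⟩
  have hne : (2 * Real.pi * Complex.I : ℂ) ≠ 0 := Complex.two_pi_I_ne_zero
  have h1 : (2 * Real.pi * Complex.I : ℂ) * x = (2 * Real.pi * Complex.I : ℂ) * n := by
    rw [hn]
    ring
  have h2 := mul_left_cancel₀ hne h1
  exact_mod_cast h2

theorem cir_orth (P : ℕ) (hP : 0 < P) (s n : ℕ) (hs : s < P) (hn : n < P) :
    ∑ h ∈ Finset.range P, ee ((h : ℝ) / P * s) * ee (-((h : ℝ) / P * n)) =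
      if s = n then (P : ℂ) else 0 := by
  have hP' : (0 : ℝ) < P := by exact_mod_cast hP
  have e : ∀ h : ℕ, ee ((h : ℝ) / P * s) * ee (-((h : ℝ) / P * n)) =
      ee (((s : ℝ) - n) / P) ^ h := by
    intro h
    rw [← ee_add, ← ee_nat_mul]
    congr 1
    ring
  simp only [e]
  split_ifs with hsn
  · subst hsn
    simp [ee_zero]
  · have h1 : ee (((s : ℝ) - n) / P) ≠ 1 := by
      intro h
      obtain ⟨m, hm⟩ := ee_eq_one h
      rw [div_eq_iff hP'.ne'] at hm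
      have h2 : ((s : ℤ) - n) = m * P := by exact_mod_cast hm
      have h3 : ((s : ℤ) - n) ≠ 0 := by
        intro h4
        apply hsn
        omega
      have h5 : |((s : ℤ) - n)| < P := by
        rw [abs_lt]
        constructor <;> omega
      have h6 : m ≠ 0 := by
        rintro rfl
        rw [zero_mul] at h2
        exact h3 h2
      have h7 : (P : ℤ) ≤ |m * P| := by
        rw [abs_mul, Nat.abs_cast]
        have : 1 ≤ |m| := Int.one_le_abs h6
        have hP0 : (0 : ℤ) ≤ P := Int.natCast_nonneg P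
        nlinarith
      rw [h2] at h5
      omega
    have h3 : ee (((s : ℝ) - n) / P) ^ P = 1 := by
      rw [← ee_nat_mul]
      have h4 : (P : ℝ) * (((s : ℝ) - n) / P) = (((s : ℤ) - n : ℤ) : ℝ) := by
        push_cast
        field_simp
      rw [h4, ee_int]
    have h4 := geom_sum_mul (ee (((s : ℝ) - n) / P)) P
    rw [h3, sub_self] at h4
    rcases mul_eq_zero.1 h4 with h5 | h5
    · exact h5
    · exact absurd (sub_eq_zero.1 h5) h1

theorem cir_sumB : Summable (fun j : ℤ => 1 / (1 + |(j : ℝ)|) ^ 2) := by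
  have h1 : Summable (fun j : ℤ => 1 / (j : ℝ) ^ 2) := Real.summable_one_div_int_pow.2 (by norm_num)
  have h2 : Summable (fun j : ℤ => if j = 0 then (1 : ℝ) else 0) :=
    (hasSum_ite_eq (0 : ℤ) (1 : ℝ)).summable
  refine Summable.of_nonneg_of_le (fun j => by positivity) (fun j => ?_) (h1.add h2)
  by_cases hj : j = 0
  · subst hj
    simp
  · rw [if_neg hj, add_zero]
    have h3 : (0 : ℝ) < |(j : ℝ)| := abs_pos.2 (by exact_mod_cast hj)
    have h4 : (j : ℝ) ^ 2 = |(j : ℝ)| ^ 2 := (sq_abs _).symm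
    rw [h4]
    refine one_div_le_one_div_of_le (by positivity) ?_
    nlinarith

theorem cir_inner (k N : ℕ) (hN : 1 ≤ N) (x : ℝ) :
    ∑ h ∈ Finset.range (k * N + 1), 1 / (1 + N * |(h : ℝ) / ((k * N + 1 : ℕ) : ℝ) - x|) ^ 2 ≤
      4 * ((k : ℝ) + 1) ^ 2 * ∑' j : ℤ, 1 / (1 + |(j : ℝ)|) ^ 2 := by
  classical
  have hN' : (1 : ℝ) ≤ N := by exact_mod_cast hN
  have hk0 : (0 : ℝ) ≤ k := Nat.cast_nonneg k
  obtain ⟨P, hP⟩ : ∃ P : ℝ, P = ((k * N + 1 : ℕ) : ℝ) := ⟨_, rfl⟩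
  rw [← hP]
  have hP1 : P = k * N + 1 := by rw [hP]; push_cast; ring
  have hPpos : 0 < P := by rw [hP1]; positivity
  have hPle : P ≤ (k + 1) * N := by rw [hP1]; nlinarith
  obtain ⟨y0, hy0⟩ : ∃ y0 : ℤ, y0 = ⌊P * x⌋ := ⟨_, rfl⟩
  have hf1 : (y0 : ℝ) ≤ P * x := by rw [hy0]; exact Int.floor_le _
  have hf2 : P * x < y0 + 1 := by rw [hy0]; exact Int.lt_floor_add_one _
  have key : ∀ h : ℕ, 1 / (1 + N * |(h : ℝ) / P - x|) ^ 2 ≤
      4 * ((k : ℝ) + 1) ^ 2 * (1 / (1 + |(((h : ℤ) - y0 : ℤ) : ℝ)|) ^ 2) := by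
    intro h
    have e1 : |(h : ℝ) - P * x| = P * |(h : ℝ) / P - x| := by
      rw [← abs_of_pos hPpos, ← abs_mul, abs_of_pos hPpos]
      congr 1
      field_simp
    have e2 : |(((h : ℤ) - y0 : ℤ) : ℝ)| ≤ |(h : ℝ) - P * x| + 1 := by
      have e3 : (((h : ℤ) - y0 : ℤ) : ℝ) = ((h : ℝ) - P * x) + (P * x - y0) := by
        push_cast
        ring
      rw [e3]
      refine (abs_add_le _ _).trans (add_le_add le_rfl ?_)
      rw [abs_le]
      constructor <;> linarith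
    have ha : 0 ≤ |(h : ℝ) / P - x| := abs_nonneg _
    have e4 : 1 + |(((h : ℤ) - y0 : ℤ) : ℝ)| ≤ 2 * (k + 1) * (1 + N * |(h : ℝ) / P - x|) := by
      have e5 : P * |(h : ℝ) / P - x| ≤ (k + 1) * N * |(h : ℝ) / P - x| :=
        mul_le_mul_of_nonneg_right hPle ha
      have e6 : 0 ≤ (k + 1) * N * |(h : ℝ) / P - x| := by positivity
      nlinarith
    have p1 : 0 < 1 + |(((h : ℤ) - y0 : ℤ) : ℝ)| := by positivity
    have p2 : 0 < 1 + N * |(h : ℝ) / P - x| := by positivity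
    have e7 : (1 + |(((h : ℤ) - y0 : ℤ) : ℝ)|) ^ 2 ≤
        4 * ((k : ℝ) + 1) ^ 2 * (1 + N * |(h : ℝ) / P - x|) ^ 2 := by
      calc (1 + |(((h : ℤ) - y0 : ℤ) : ℝ)|) ^ 2 ≤ (2 * (k + 1) * (1 + N * |(h : ℝ) / P - x|)) ^ 2 :=
            pow_le_pow_left₀ p1.le e4 2
        _ = _ := by ring
    rw [mul_one_div, div_le_div_iff₀ (by positivity) (by positivity), one_mul]
    exact e7
  refine (Finset.sum_le_sum fun h _ => key h).trans ?_
  rw [← Finset.mul_sum]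
  refine mul_le_mul_of_nonneg_left ?_ (by positivity)
  have hinj : Function.Injective (fun h : ℕ => (h : ℤ) - y0) := by
    intro a b hab
    have : (a : ℤ) - y0 = (b : ℤ) - y0 := hab
    omega
  have h8 : ∑ h ∈ Finset.range (k * N + 1), 1 / (1 + |(((h : ℤ) - y0 : ℤ) : ℝ)|) ^ 2 =
      ∑ j ∈ (Finset.range (k * N + 1)).image (fun h : ℕ => (h : ℤ) - y0),
        1 / (1 + |(j : ℝ)|) ^ 2 := by
    rw [Finset.sum_image (fun a _ b _ hab => hinj hab)]
  rw [h8]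
  exact cir_sumB.sum_le_tsum _ (fun j _ => by positivity)

theorem cir_pow {b c C W : ℝ} {k : ℕ} {s : ℝ} (hb : 1 ≤ b) (hck : 4 ≤ c * k) (hC : 0 < C)
    (hW : 0 ≤ W) (hs0 : 0 ≤ s) (hs : s ≤ C * W * b ^ (-c)) :
    s ^ k ≤ (C * W) ^ k * (1 / b ^ 4) := by
  have hb0 : 0 < b := lt_of_lt_of_le one_pos hb
  have h1 : s ^ k ≤ (C * W * b ^ (-c)) ^ k := pow_le_pow_left₀ hs0 hs k
  have h2 : (b ^ (-c)) ^ k = b ^ (-(c * k)) := by
    rw [← Real.rpow_natCast, ← Real.rpow_mul hb0.le]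
    congr 1
    ring
  have h3 : b ^ (-(c * k)) ≤ b ^ (-(4 : ℝ)) :=
    Real.rpow_le_rpow_of_exponent_le hb (by linarith)
  have h4 : b ^ (-(4 : ℝ)) = 1 / b ^ 4 := by
    rw [Real.rpow_neg hb0.le, one_div]
    congr 1
    exact_mod_cast Real.rpow_natCast b 4
  rw [mul_pow, h2] at h1
  refine h1.trans (mul_le_mul_of_nonneg_left (h3.trans h4.le) (by positivity))

theorem circle (C c : ℝ) (hC : 0 < C) (hc : 0 < c) (k : ℕ) (hk : 1 ≤ k) (hck : 4 ≤ c * k) :
    ∃ C' : ℝ, 0 < C' ∧ ∀ (ι : Type) [DecidableEq ι] (Ω : Finset ι) (κ : ι → ℕ) (N : ℕ), 1 ≤ N →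
      (∀ w ∈ Ω, κ w ≤ N) →
      (∀ (θ : ℝ) (r : ℚ), r.den ≤ Nat.sqrt N →
        |θ - r| ≤ 1 / ((Nat.sqrt N + 1 : ℝ) * r.den) →
        ‖∑ w ∈ Ω, ee (θ * κ w)‖ ≤ C * Ω.card * ((r.den : ℝ) * (1 + N * |θ - r|)) ^ (-c)) →
      ∀ n : ℕ, (((Fintype.piFinset (fun _ : Fin k => Ω)).filter
        (fun f => ∑ i, κ (f i) = n)).card : ℝ) ≤ C' * (Ω.card : ℝ) ^ k / N := by
  obtain ⟨B, hB⟩ : ∃ B : ℝ, B = ∑' j : ℤ, 1 / (1 + |(j : ℝ)|) ^ 2 := ⟨_, rfl⟩
  obtain ⟨E, hE⟩ : ∃ E : ℝ, E = ∑' d : ℕ, 2 * (1 / (d : ℝ) ^ 3) := ⟨_, rfl⟩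
  have hB0 : 0 ≤ B := by rw [hB]; exact tsum_nonneg fun j => by positivity
  have hE0 : 0 ≤ E := by rw [hE]; exact tsum_nonneg fun j => by positivity
  have hEs : Summable fun d : ℕ => 2 * (1 / (d : ℝ) ^ 3) :=
    (Real.summable_one_div_nat_pow.2 (by norm_num)).mul_left 2
  refine ⟨C ^ k * (4 * ((k : ℝ) + 1) ^ 2 * B * E) + 1, by positivity, ?_⟩
  intro ι _ Ω κ N hN hκ hS n
  have hN' : (1 : ℝ) ≤ N := by exact_mod_cast hN
  have hNpos : (0 : ℝ) < N := by linarith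
  have hsum : ∀ f ∈ Fintype.piFinset (fun _ : Fin k => Ω), ∑ i, κ (f i) ≤ k * N := by
    intro f hf
    rw [Fintype.mem_piFinset] at hf
    calc ∑ i, κ (f i) ≤ ∑ _i : Fin k, N := Finset.sum_le_sum fun i _ => hκ _ (hf i)
      _ = k * N := by simp
  by_cases hn : n ≤ k * N
  swap
  · have h0 : (Fintype.piFinset (fun _ : Fin k => Ω)).filter (fun f => ∑ i, κ (f i) = n) = ∅ := by
      rw [Finset.filter_eq_empty_iff]
      intro f hf h
      have := hsum f hf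
      omega
    rw [h0]
    simp only [Finset.card_empty, Nat.cast_zero]
    positivity
  obtain ⟨P, hP⟩ : ∃ P : ℕ, P = k * N + 1 := ⟨_, rfl⟩
  have hPpos : 0 < P := by omega
  have hPr : (0 : ℝ) < P := by exact_mod_cast hPpos
  have hNP : (N : ℝ) ≤ P := by
    have : N ≤ P := by
      rw [hP]
      nlinarith
    exact_mod_cast this
  obtain ⟨S, hSd⟩ : ∃ S : ℕ → ℂ, S = fun h : ℕ => ∑ w ∈ Ω, ee ((h : ℝ) / P * κ w) := ⟨_, rfl⟩
  -- the identity
  have hid : (P : ℂ) * (((Fintype.piFinset (fun _ : Fin k => Ω)).filter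
      (fun f => ∑ i, κ (f i) = n)).card : ℂ) =
      ∑ h ∈ Finset.range P, ee (-((h : ℝ) / P * n)) * S h ^ k := by
    have h1 : ∀ h : ℕ, S h ^ k = ∑ f ∈ Fintype.piFinset (fun _ : Fin k => Ω),
        ee ((h : ℝ) / P * ((∑ i, κ (f i) : ℕ) : ℝ)) := by
      intro h
      have h2 : S h ^ k = ∏ _i : Fin k, ∑ w ∈ Ω, ee ((h : ℝ) / P * κ w) := by
        rw [hSd]
        simp
      rw [h2, Finset.prod_univ_sum]
      refine Finset.sum_congr rfl fun f _ => ?_
      rw [← ee_sum]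
      congr 1
      rw [← Finset.mul_sum]
      push_cast
      rfl
    have h3 : ∀ h : ℕ, ee (-((h : ℝ) / P * n)) * S h ^ k =
        ∑ f ∈ Fintype.piFinset (fun _ : Fin k => Ω),
          ee ((h : ℝ) / P * ((∑ i, κ (f i) : ℕ) : ℝ)) * ee (-((h : ℝ) / P * n)) := by
      intro h
      rw [h1, Finset.mul_sum]
      exact Finset.sum_congr rfl fun f _ => mul_comm _ _
    simp only [h3]
    rw [Finset.sum_comm]
    have h4 : ∀ f ∈ Fintype.piFinset (fun _ : Fin k => Ω), ∑ h ∈ Finset.range P,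
        ee ((h : ℝ) / P * ((∑ i, κ (f i) : ℕ) : ℝ)) * ee (-((h : ℝ) / P * n)) =
        if ∑ i, κ (f i) = n then (P : ℂ) else 0 := by
      intro f hf
      have := hsum f hf
      exact cir_orth P hPpos _ n (by omega) (by omega)
    rw [Finset.sum_congr rfl h4, ← Finset.sum_filter, Finset.sum_const, nsmul_eq_mul, mul_comm]
  have hcount : (P : ℝ) * (((Fintype.piFinset (fun _ : Fin k => Ω)).filter
      (fun f => ∑ i, κ (f i) = n)).card : ℝ) ≤ ∑ h ∈ Finset.range P, ‖S h‖ ^ k := by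
    have h1 : (P : ℝ) * (((Fintype.piFinset (fun _ : Fin k => Ω)).filter
      (fun f => ∑ i, κ (f i) = n)).card : ℝ) = ‖(P : ℂ) * (((Fintype.piFinset
        (fun _ : Fin k => Ω)).filter (fun f => ∑ i, κ (f i) = n)).card : ℂ)‖ := by
      rw [norm_mul, Complex.norm_natCast, Complex.norm_natCast]
    rw [h1, hid]
    refine (norm_sum_le _ _).trans (Finset.sum_le_sum fun h _ => ?_)
    rw [norm_mul, norm_ee, one_mul, norm_pow]
  -- the pointwise bound
  have hM : 0 < Nat.sqrt N := Nat.sqrt_pos.2 (by omega)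
  have hpt : ∀ h ∈ Finset.range P, ‖S h‖ ^ k ≤ (C * Ω.card) ^ k *
      ∑ d ∈ Finset.Icc 1 (Nat.sqrt N), ∑ a ∈ Finset.range (d + 1),
        1 / (d : ℝ) ^ 4 * (1 / (1 + N * |(h : ℝ) / P - (a : ℝ) / d|) ^ 2) := by
    intro h hh
    rw [Finset.mem_range] at hh
    obtain ⟨r, hr1, hr2⟩ := Real.exists_rat_abs_sub_le_and_den_le ((h : ℝ) / P) hM
    have hS' := hS ((h : ℝ) / P) r hr2 (by exact_mod_cast hr1)
    have hSh : S h = ∑ w ∈ Ω, ee ((h : ℝ) / P * κ w) := by rw [hSd]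
    rw [← hSh] at hS'
    have hd : 0 < r.den := r.den_pos
    have hd' : (1 : ℝ) ≤ r.den := by exact_mod_cast hd
    have hdpos : (0 : ℝ) < r.den := by linarith
    have hrr : (r : ℝ) = (r.num : ℝ) / (r.den : ℝ) := by
      exact_mod_cast (Rat.cast_def r : (r : ℝ) = _)
    have ht0 : 0 ≤ (h : ℝ) / P := by positivity
    have ht1 : (h : ℝ) / P < 1 := by
      rw [div_lt_one hPr]
      exact_mod_cast hh
    have hlt : |(h : ℝ) / P - r| < 1 / r.den := by
      refine lt_of_le_of_lt hr1 ?_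
      rw [div_lt_div_iff₀ (by positivity) hdpos, one_mul, one_mul]
      have : (1 : ℝ) ≤ (Nat.sqrt N : ℝ) := by exact_mod_cast hM
      nlinarith
    rw [abs_lt] at hlt
    have ha0 : 0 ≤ r.num := by
      have h1 : -(1 : ℝ) < r.num := by
        have h2 : -(1 / (r.den : ℝ)) < (r.num : ℝ) / r.den := by
          rw [← hrr]
          linarith [hlt.2]
        rw [← neg_div, div_lt_div_iff_of_pos_right hdpos] at h2
        exact h2
      have h3 : (-1 : ℤ) < r.num := by exact_mod_cast h1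
      omega
    have ha1 : r.num ≤ r.den := by
      have h1 : (r.num : ℝ) < r.den + 1 := by
        have h2 : (r.num : ℝ) / r.den < 1 + 1 / r.den := by
          rw [← hrr]
          linarith [hlt.1]
        rw [div_lt_iff₀ hdpos] at h2
        have h3 : (1 + 1 / (r.den : ℝ)) * r.den = r.den + 1 := by
          field_simp
        linarith
      have h3 : r.num < (r.den : ℤ) + 1 := by exact_mod_cast h1
      omega
    obtain ⟨a, ha⟩ := Int.eq_ofNat_of_zero_le ha0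
    have hra : (r : ℝ) = (a : ℝ) / (r.den : ℝ) := by
      rw [hrr, ha]
      simp
    have hab : a ≤ r.den := by omega
    have hb1 : 1 ≤ (r.den : ℝ) * (1 + N * |(h : ℝ) / P - r|) := by
      have : 0 ≤ (N : ℝ) * |(h : ℝ) / P - r| := by positivity
      nlinarith
    have h5 := cir_pow hb1 hck hC (Nat.cast_nonneg _) (norm_nonneg _) hS'
    refine h5.trans (mul_le_mul_of_nonneg_left ?_ (by positivity))
    have h6 : 1 / ((r.den : ℝ) * (1 + N * |(h : ℝ) / P - r|)) ^ 4 ≤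
        1 / (r.den : ℝ) ^ 4 * (1 / (1 + N * |(h : ℝ) / P - (a : ℝ) / r.den|) ^ 2) := by
      rw [← hra, mul_pow, one_div_mul_one_div]
      refine one_div_le_one_div_of_le (by positivity) ?_
      refine mul_le_mul_of_nonneg_left ?_ (by positivity)
      refine pow_le_pow_right₀ ?_ (by norm_num)
      have : 0 ≤ (N : ℝ) * |(h : ℝ) / P - r| := by positivity
      linarith
    refine h6.trans ?_
    have h7 : 1 / (r.den : ℝ) ^ 4 * (1 / (1 + N * |(h : ℝ) / P - (a : ℝ) / r.den|) ^ 2) ≤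
        ∑ a ∈ Finset.range (r.den + 1), 1 / (r.den : ℝ) ^ 4 *
          (1 / (1 + N * |(h : ℝ) / P - (a : ℝ) / r.den|) ^ 2) :=
      Finset.single_le_sum (f := fun a : ℕ => 1 / (r.den : ℝ) ^ 4 *
          (1 / (1 + N * |(h : ℝ) / P - (a : ℝ) / r.den|) ^ 2))
        (fun a _ => by positivity) (Finset.mem_range.2 (by omega))
    refine h7.trans ?_
    exact Finset.single_le_sum (f := fun d : ℕ => ∑ a ∈ Finset.range (d + 1), 1 / (d : ℝ) ^ 4 *
          (1 / (1 + N * |(h : ℝ) / P - (a : ℝ) / d|) ^ 2))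
        (fun d _ => Finset.sum_nonneg fun a _ => by positivity)
        (Finset.mem_Icc.2 ⟨hd, hr2⟩)
  -- the sum
  have htot : ∑ h ∈ Finset.range P, ‖S h‖ ^ k ≤
      (C * Ω.card) ^ k * (4 * ((k : ℝ) + 1) ^ 2 * B * E) := by
    refine (Finset.sum_le_sum hpt).trans ?_
    rw [← Finset.mul_sum]
    refine mul_le_mul_of_nonneg_left ?_ (by positivity)
    rw [Finset.sum_comm]
    have h1 : ∀ d ∈ Finset.Icc 1 (Nat.sqrt N), ∑ h ∈ Finset.range P,
        ∑ a ∈ Finset.range (d + 1), 1 / (d : ℝ) ^ 4 *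
          (1 / (1 + N * |(h : ℝ) / P - (a : ℝ) / d|) ^ 2) ≤
        4 * ((k : ℝ) + 1) ^ 2 * B * (2 * (1 / (d : ℝ) ^ 3)) := by
      intro d hd
      rw [Finset.mem_Icc] at hd
      have hd1 : (1 : ℝ) ≤ d := by exact_mod_cast hd.1
      rw [Finset.sum_comm]
      have h2 : ∀ a ∈ Finset.range (d + 1), ∑ h ∈ Finset.range P, 1 / (d : ℝ) ^ 4 *
          (1 / (1 + N * |(h : ℝ) / P - (a : ℝ) / d|) ^ 2) ≤
          1 / (d : ℝ) ^ 4 * (4 * ((k : ℝ) + 1) ^ 2 * B) := by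
        intro a _
        rw [← Finset.mul_sum]
        refine mul_le_mul_of_nonneg_left ?_ (by positivity)
        have := cir_inner k N hN ((a : ℝ) / d)
        rw [← hP, ← hB] at this
        exact this
      refine (Finset.sum_le_sum h2).trans ?_
      rw [Finset.sum_const, Finset.card_range, nsmul_eq_mul]
      have h3 : ((d + 1 : ℕ) : ℝ) * (1 / (d : ℝ) ^ 4) ≤ 2 * (1 / (d : ℝ) ^ 3) := by
        rw [mul_one_div, mul_one_div, div_le_div_iff₀ (by positivity) (by positivity)]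
        push_cast
        have h4 : ((d : ℝ) + 1) * d ^ 3 ≤ (2 * d) * d ^ 3 :=
          mul_le_mul_of_nonneg_right (by linarith) (by positivity)
        calc ((d : ℝ) + 1) * d ^ 3 ≤ (2 * d) * d ^ 3 := h4
          _ = 2 * d ^ 4 := by ring
      have h5 : 0 ≤ 4 * ((k : ℝ) + 1) ^ 2 * B := by positivity
      calc ((d + 1 : ℕ) : ℝ) * (1 / (d : ℝ) ^ 4 * (4 * ((k : ℝ) + 1) ^ 2 * B))
          = ((d + 1 : ℕ) : ℝ) * (1 / (d : ℝ) ^ 4) * (4 * ((k : ℝ) + 1) ^ 2 * B) := by ring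
        _ ≤ 2 * (1 / (d : ℝ) ^ 3) * (4 * ((k : ℝ) + 1) ^ 2 * B) :=
            mul_le_mul_of_nonneg_right h3 h5
        _ = _ := by ring
    refine (Finset.sum_le_sum h1).trans ?_
    rw [← Finset.mul_sum]
    refine mul_le_mul_of_nonneg_left ?_ (by positivity)
    rw [hE]
    exact hEs.sum_le_tsum _ (fun d _ => by positivity)
  have hfin := hcount.trans htot
  rw [le_div_iff₀ hNpos]
  have hcard : 0 ≤ (((Fintype.piFinset (fun _ : Fin k => Ω)).filter
      (fun f => ∑ i, κ (f i) = n)).card : ℝ) := Nat.cast_nonneg _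
  calc (((Fintype.piFinset (fun _ : Fin k => Ω)).filter
      (fun f => ∑ i, κ (f i) = n)).card : ℝ) * N
      ≤ (((Fintype.piFinset (fun _ : Fin k => Ω)).filter
      (fun f => ∑ i, κ (f i) = n)).card : ℝ) * P := mul_le_mul_of_nonneg_left hNP hcard
    _ = P * (((Fintype.piFinset (fun _ : Fin k => Ω)).filter
      (fun f => ∑ i, κ (f i) = n)).card : ℝ) := mul_comm _ _
    _ ≤ (C * Ω.card) ^ k * (4 * ((k : ℝ) + 1) ^ 2 * B * E) := hfin
    _ = C ^ k * (4 * ((k : ℝ) + 1) ^ 2 * B * E) * (Ω.card : ℝ) ^ k := by rw [mul_pow]; ring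
    _ ≤ (C ^ k * (4 * ((k : ℝ) + 1) ^ 2 * B * E) + 1) * (Ω.card : ℝ) ^ k :=
        mul_le_mul_of_nonneg_right (by linarith) (by positivity)

end Pool.Agent.H51.ZB
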