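import Mathlib
import Pool.Agent.H51.ZB.Chn

set_option autoImplicit false

namespace Pool.Agent.H51.ZB

open Matrix

theorem K_nil : (cmat [] 0 0 : ℝ) = 1 := by simp [cmat]

/-- Two-sided granularity. -/
def Gran2 (C : ℝ) (L : List Rec) : Prop := ∀ L1 r L2, L = L1 ++ r :: L2 →
  (cmat r.b 0 0 : ℝ) ≤
    C * (min (cmat (rep L1) 0 0 : ℝ) (cmat (rep L2) 0 0 : ℝ)) ^ (1 / 500 : ℝ)

theorem gran_right {C : ℝ} (hC : 1 ≤ C) {L : List Rec} (hL : ∀ s ∈ L, s.Ok) (hG : Gran2 C L)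
    (L1 : List Rec) (r : Rec) (L2 : List Rec) (h : L = L1 ++ r :: L2) :
    (cmat r.b 0 0 : ℝ) ≤ C * (cmat (rep L2) 0 0 : ℝ) ^ (1 / 500 : ℝ) := by
  have h1 : ∀ s ∈ L1, s.Ok := fun s hs => hL s (by rw [h]; exact List.mem_append_left _ hs)
  refine (hG L1 r L2 h).trans (mul_le_mul_of_nonneg_left ?_ (by linarith))
  have h2 : ∀ s ∈ L2, s.Ok := fun s hs => hL s (by
    rw [h]; exact List.mem_append_right _ (List.mem_cons_of_mem _ hs))
  have k1 := K_pos _ (rep_word L1 h1)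
  have k2 := K_pos _ (rep_word L2 h2)
  exact Real.rpow_le_rpow (le_min (by linarith) (by linarith)) (min_le_right _ _) (by norm_num)

theorem gran_left {C : ℝ} (hC : 1 ≤ C) {L : List Rec} (hL : ∀ s ∈ L, s.Ok) (hG : Gran2 C L)
    (L1 : List Rec) (r : Rec) (L2 : List Rec) (h : L = L1 ++ r :: L2) :
    (cmat r.b 0 0 : ℝ) ≤ C * (cmat (rep L1) 0 0 : ℝ) ^ (1 / 500 : ℝ) := by
  have h1 : ∀ s ∈ L1, s.Ok := fun s hs => hL s (by rw [h]; exact List.mem_append_left _ hs)
  refine (hG L1 r L2 h).trans (mul_le_mul_of_nonneg_left ?_ (by linarith))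
  have h2 : ∀ s ∈ L2, s.Ok := fun s hs => hL s (by
    rw [h]; exact List.mem_append_right _ (List.mem_cons_of_mem _ hs))
  have k1 := K_pos _ (rep_word L1 h1)
  have k2 := K_pos _ (rep_word L2 h2)
  exact Real.rpow_le_rpow (le_min (by linarith) (by linarith)) (min_le_left _ _) (by norm_num)

/-- Shortest suffix of size at least `τ`. -/
theorem cut_suffix {C : ℝ} (hC : 1 ≤ C) {L : List Rec} (hL : ∀ s ∈ L, s.Ok) (hG : Gran2 C L)
    (τ : ℝ) (hτ : 1 ≤ τ) (hτL : τ ≤ (cmat (rep L) 0 0 : ℝ)) :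
    ∃ La Lb, L = La ++ Lb ∧ τ ≤ (cmat (rep Lb) 0 0 : ℝ) ∧
      (cmat (rep Lb) 0 0 : ℝ) ≤ 2 * C * τ ^ (501 / 500 : ℝ) := by
  have key : ∀ (L2 L1 : List Rec), L = L1 ++ L2 → τ ≤ (cmat (rep L2) 0 0 : ℝ) →
      ∃ La Lb, L = La ++ Lb ∧ τ ≤ (cmat (rep Lb) 0 0 : ℝ) ∧
      (cmat (rep Lb) 0 0 : ℝ) ≤ 2 * C * τ ^ (501 / 500 : ℝ) := by
    intro L2
    induction L2 with
    | nil =>
      intro L1 h h2
      refine ⟨L1, [], h, h2, ?_⟩
      simp only [rep] at h2 ⊢
      rw [K_nil] at h2 ⊢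
      have : 1 ≤ τ ^ (501 / 500 : ℝ) := Real.one_le_rpow hτ (by norm_num)
      nlinarith
    | cons r L2 ih =>
      intro L1 h h2
      rcases le_or_gt τ (cmat (rep L2) 0 0 : ℝ) with h3 | h3
      · exact ih (L1 ++ [r]) (by rw [h]; simp) h3
      · refine ⟨L1, r :: L2, h, h2, ?_⟩
        have hok2 : ∀ s ∈ L2, s.Ok := fun s hs => hL s (by
          rw [h]; exact List.mem_append_right _ (List.mem_cons_of_mem _ hs))
        have hr : r.Ok := hL r (by rw [h]; simp)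
        have hrw : Word12 r.b := (hr.2.2.2.1 r.b hr.1).1
        have k2 := K_pos _ (rep_word L2 hok2)
        have k3 := K_pos _ hrw
        have e1 := (K_bdR r.b (rep L2) hrw (rep_word L2 hok2)).2
        have e2 := gran_right hC hL hG L1 r L2 h
        have e3 : (cmat (rep L2) 0 0 : ℝ) ^ (1 / 500 : ℝ) ≤ τ ^ (1 / 500 : ℝ) :=
          Real.rpow_le_rpow (by linarith) h3.le (by norm_num)
        have e4 : τ ^ (501 / 500 : ℝ) = τ ^ (1 / 500 : ℝ) * τ := by
          rw [← Real.rpow_add_one (by linarith)]; norm_num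
        simp only [rep]
        have e5 : 0 ≤ (cmat (rep L2) 0 0 : ℝ) ^ (1 / 500 : ℝ) := by positivity
        calc (cmat (r.b ++ rep L2) 0 0 : ℝ) ≤ 2 * cmat r.b 0 0 * cmat (rep L2) 0 0 := e1
          _ ≤ 2 * (C * τ ^ (1 / 500 : ℝ)) * τ := by
              apply mul_le_mul _ h3.le (by linarith) (by positivity)
              apply mul_le_mul_of_nonneg_left _ (by norm_num)
              exact e2.trans (mul_le_mul_of_nonneg_left e3 (by linarith))
          _ = 2 * C * τ ^ (501 / 500 : ℝ) := by rw [e4]; ring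
  exact key L [] rfl hτL

/-- Longest prefix of `La` of size at most `τ` (empty if `τ < 1`). -/
theorem cut_prefix {C : ℝ} (hC : 1 ≤ C) {L : List Rec} (hL : ∀ s ∈ L, s.Ok) (hG : Gran2 C L)
    (La Lb : List Rec) (hab : L = La ++ Lb) (τ : ℝ) (hτL : τ < (cmat (rep La) 0 0 : ℝ)) :
    ∃ Lt Lr, La = Lt ++ Lr ∧ (Lt = [] ∨ (cmat (rep Lt) 0 0 : ℝ) ≤ τ) ∧
      τ ≤ 2 * C * (cmat (rep Lt) 0 0 : ℝ) ^ (501 / 500 : ℝ) := by
  have key : ∀ (L2 L1 : List Rec), La = L1 ++ L2 →
      (L1 = [] ∨ (cmat (rep L1) 0 0 : ℝ) ≤ τ) →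
      ∃ Lt Lr, La = Lt ++ Lr ∧ (Lt = [] ∨ (cmat (rep Lt) 0 0 : ℝ) ≤ τ) ∧
      τ ≤ 2 * C * (cmat (rep Lt) 0 0 : ℝ) ^ (501 / 500 : ℝ) := by
    intro L2
    induction L2 with
    | nil =>
      intro L1 h h1
      rw [List.append_nil] at h
      subst h
      refine ⟨La, [], by simp, h1, ?_⟩
      have hok : ∀ s ∈ La, s.Ok := fun s hs => hL s (by
        rw [hab]; exact List.mem_append_left _ hs)
      have k := K_pos _ (rep_word La hok)
      have k2 : (cmat (rep La) 0 0 : ℝ) ^ (1 : ℝ) ≤ (cmat (rep La) 0 0 : ℝ) ^ (501 / 500 : ℝ) :=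
        Real.rpow_le_rpow_of_exponent_le k (by norm_num)
      rw [Real.rpow_one] at k2
      nlinarith
    | cons r L2 ih =>
      intro L1 h h1
      rcases le_or_gt (cmat (rep (L1 ++ [r])) 0 0 : ℝ) τ with h3 | h3
      · exact ih (L1 ++ [r]) (by rw [h]; simp) (Or.inr h3)
      · refine ⟨L1, r :: L2, h, h1, ?_⟩
        have hdec : L = L1 ++ r :: (L2 ++ Lb) := by rw [hab, h]; simp
        have hok1 : ∀ s ∈ L1, s.Ok := fun s hs => hL s (by
          rw [hdec]; exact List.mem_append_left _ hs)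
        have hr : r.Ok := hL r (by rw [hdec]; simp)
        have hrw : Word12 r.b := (hr.2.2.2.1 r.b hr.1).1
        have k1 := K_pos _ (rep_word L1 hok1)
        have k3 := K_pos _ hrw
        have e1 := (K_bdR (rep L1) r.b (rep_word L1 hok1) hrw).2
        have e0 : rep (L1 ++ [r]) = rep L1 ++ r.b := by rw [rep_append]; simp [rep]
        rw [← e0] at e1
        have e2 := gran_left hC hL hG L1 r (L2 ++ Lb) hdec
        have e4 : (cmat (rep L1) 0 0 : ℝ) ^ (501 / 500 : ℝ)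
            = (cmat (rep L1) 0 0 : ℝ) ^ (1 / 500 : ℝ) * (cmat (rep L1) 0 0 : ℝ) := by
          rw [← Real.rpow_add_one (by linarith)]; norm_num
        rw [e4]
        calc τ ≤ 2 * cmat (rep L1) 0 0 * cmat r.b 0 0 := by linarith
          _ ≤ 2 * cmat (rep L1) 0 0 * (C * (cmat (rep L1) 0 0 : ℝ) ^ (1 / 500 : ℝ)) :=
              mul_le_mul_of_nonneg_left e2 (by linarith)
          _ = _ := by ring
  exact key La [] rfl (Or.inl rfl)

/-- Longest suffix of `Lr` of size at most `τ` (empty if `τ < 1`). -/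
theorem cut_mid {C : ℝ} (hC : 1 ≤ C) {L : List Rec} (hL : ∀ s ∈ L, s.Ok) (hG : Gran2 C L)
    (Lt Lr Lb : List Rec) (hab : L = Lt ++ (Lr ++ Lb)) (τ : ℝ)
    (hτL : max 1 τ < (cmat (rep Lr) 0 0 : ℝ)) :
    ∃ Ld Ls, Lr = Ld ++ Ls ∧ Ld ≠ [] ∧ (Ls = [] ∨ (cmat (rep Ls) 0 0 : ℝ) ≤ τ) ∧
      τ ≤ 2 * C * (2 * (cmat (rep Ls) 0 0 : ℝ) * (cmat (rep Lb) 0 0 : ℝ)) ^ (1 / 500 : ℝ)
        * (cmat (rep Ls) 0 0 : ℝ) := by
  have key : ∀ (L2 : List Rec), ∀ (L1 : List Rec), Lr = L1 ++ L2 →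
      ((L2 = [] ∨ (cmat (rep L2) 0 0 : ℝ) ≤ τ) ∧ L1 ≠ []) ∨
      (∃ Ld Ls, Lr = Ld ++ Ls ∧ Ld ≠ [] ∧ (Ls = [] ∨ (cmat (rep Ls) 0 0 : ℝ) ≤ τ) ∧
      τ ≤ 2 * C * (2 * (cmat (rep Ls) 0 0 : ℝ) * (cmat (rep Lb) 0 0 : ℝ)) ^ (1 / 500 : ℝ)
        * (cmat (rep Ls) 0 0 : ℝ)) := by
    intro L2
    induction L2 with
    | nil =>
      intro L1 h
      left
      refine ⟨Or.inl rfl, ?_⟩
      intro h1
      rw [h1] at h
      simp only [List.append_nil] at h
      rw [h] at hτL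
      simp only [rep] at hτL
      rw [K_nil] at hτL
      exact absurd hτL (not_lt.mpr (le_max_left _ _))
    | cons r L2 ih =>
      intro L1 h
      rcases ih (L1 ++ [r]) (by rw [h]; simp) with ⟨h1, h2⟩ | h3
      · rcases le_or_gt (cmat (rep (r :: L2)) 0 0 : ℝ) τ with h4 | h4
        · left
          refine ⟨Or.inr h4, ?_⟩
          intro h5
          rw [h5] at h
          simp only [List.nil_append] at h
          rw [h] at hτL
          have := le_max_right 1 τ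
          linarith
        · right
          refine ⟨L1 ++ [r], L2, by rw [h]; simp, by simp, h1, ?_⟩
          have hdec : L = (Lt ++ L1) ++ r :: (L2 ++ Lb) := by rw [hab, h]; simp
          have hok2 : ∀ s ∈ L2, s.Ok := fun s hs => hL s (by
            rw [hdec]
            exact List.mem_append_right _ (List.mem_cons_of_mem _ (List.mem_append_left _ hs)))
          have hokb : ∀ s ∈ Lb, s.Ok := fun s hs => hL s (by
            rw [hdec]
            exact List.mem_append_right _ (List.mem_cons_of_mem _ (List.mem_append_right _ hs)))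
          have hr : r.Ok := hL r (by rw [hdec]; simp)
          have hrw : Word12 r.b := (hr.2.2.2.1 r.b hr.1).1
          have k2 := K_pos _ (rep_word L2 hok2)
          have kb := K_pos _ (rep_word Lb hokb)
          have k3 := K_pos _ hrw
          have e1 := (K_bdR r.b (rep L2) hrw (rep_word L2 hok2)).2
          have e2 := gran_right hC hL hG (Lt ++ L1) r (L2 ++ Lb) hdec
          have e3 := K_bdR (rep L2) (rep Lb) (rep_word L2 hok2) (rep_word Lb hokb)
          rw [← rep_append] at e3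
          have e5 : (cmat (rep (L2 ++ Lb)) 0 0 : ℝ) ^ (1 / 500 : ℝ)
              ≤ (2 * (cmat (rep L2) 0 0 : ℝ) * (cmat (rep Lb) 0 0 : ℝ)) ^ (1 / 500 : ℝ) :=
            Real.rpow_le_rpow (by nlinarith) e3.2 (by norm_num)
          simp only [rep] at h4
          calc τ ≤ 2 * cmat r.b 0 0 * cmat (rep L2) 0 0 := by linarith
            _ ≤ 2 * (C * (2 * (cmat (rep L2) 0 0 : ℝ) * (cmat (rep Lb) 0 0 : ℝ)) ^ (1 / 500 : ℝ))
                * cmat (rep L2) 0 0 := by
                apply mul_le_mul_of_nonneg_right _ (by linarith)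
                apply mul_le_mul_of_nonneg_left _ (by norm_num)
                exact e2.trans (mul_le_mul_of_nonneg_left e5 (by linarith))
            _ = _ := by ring
      · right; exact h3
  rcases key Lr [] (by simp) with ⟨h1, h2⟩ | h3
  · exact absurd rfl h2
  · exact h3

/-- Closeness implies divisibility and a bound. -/
theorem close_dvd (θ V U : ℝ) (r : ℚ) (z : ℤ) (hz : |(z : ℝ)| ≤ V) (hU : 4 * (r.den : ℝ) ≤ U)
    (hV : |θ - r| * V * (4 * r.den) ≤ 1) (hc : ∃ n : ℤ, |θ * z - n| < 1 / U) :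
    (r.den : ℤ) ∣ z ∧ |θ - r| * |(z : ℝ)| * U ≤ 1 := by
  obtain ⟨n, hn⟩ := hc
  have hq : (0 : ℝ) < r.den := by exact_mod_cast r.den_pos
  have hUpos : 0 < U := by linarith
  have hr : (r : ℝ) = r.num / r.den := by
    rw [Rat.cast_def]
  have h1 : |(r.num : ℝ) * z - n * r.den| < 1 := by
    have e : (r.num : ℝ) * z - n * r.den = r.den * ((θ * z - n) - (θ - r) * z) := by
      rw [hr]; field_simp; ring
    rw [e, abs_mul, abs_of_pos hq]
    have t1 : |(θ * z - n) - (θ - r) * z| ≤ |θ * z - n| + |θ - r| * |(z : ℝ)| := by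
      rw [← abs_mul]; exact abs_sub _ _
    have t2 : |θ - r| * |(z : ℝ)| ≤ |θ - r| * V := mul_le_mul_of_nonneg_left hz (abs_nonneg _)
    have t3 : (r.den : ℝ) * (1 / U) ≤ 1 / 4 := by
      rw [mul_one_div, div_le_div_iff₀ hUpos (by norm_num)]; linarith
    have t4 : (r.den : ℝ) * |θ * z - n| < (r.den : ℝ) * (1 / U) := mul_lt_mul_of_pos_left hn hq
    have t5 : (r.den : ℝ) * (|θ - r| * |(z : ℝ)|) ≤ (r.den : ℝ) * (|θ - r| * V) :=
      mul_le_mul_of_nonneg_left t2 hq.le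
    have t6 : (r.den : ℝ) * |(θ * z - n) - (θ - r) * z|
        ≤ (r.den : ℝ) * (|θ * z - n| + |θ - r| * |(z : ℝ)|) := mul_le_mul_of_nonneg_left t1 hq.le
    nlinarith
  have h2 : r.num * z - n * r.den = 0 := by
    have : |r.num * z - n * (r.den : ℤ)| < 1 := by exact_mod_cast h1
    exact Int.abs_lt_one_iff.mp this
  have h3 : (r.den : ℤ) ∣ z := by
    have h4 : (r.den : ℤ) ∣ r.num * z := ⟨n, by linarith⟩
    have h5 : IsCoprime (r.den : ℤ) r.num := by
      have := r.reduced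
      rw [Int.isCoprime_iff_nat_coprime]
      simpa using this.symm
    exact h5.dvd_of_dvd_mul_left h4
  refine ⟨h3, ?_⟩
  have h6 : (θ - r) * z = θ * z - n := by
    have h7 : (r.num : ℝ) * z - n * r.den = 0 := by exact_mod_cast h2
    rw [hr]
    field_simp
    linarith
  rw [← abs_mul, h6]
  have := mul_lt_mul_of_pos_right hn hUpos
  rw [one_div, inv_mul_cancel₀ hUpos.ne'] at this
  exact this.le

end Pool.Agent.H51.ZB
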