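import Mathlib
import Pool.Agent.H51.ZB.Df

set_option autoImplicit false

/-!
Uniqueness of the outer parts of a word from approximate and congruence information.
K(w) = cmat w 0 0, K(w^-) = cmat w 0 1 (without last letter), K(^-w) = cmat w 1 0. v(w) = (K(w), K(w^-)) is the first row of cmat w.

Lemma bad_approx. For words h, g over {1,2} and integers x, y > 0, with f = |x K(g) - y K(^-g)|:
K(h g) ≤ 18 max(1,f) (x K(h^-) + y K(h)). Induction on g for all h, x, y. g = []: K(h) ≤ y K(h).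
g = a :: g', if a x - y < 0: apply the induction hypothesis with h ++ [a], x' = y - a x > 0, y' = x > 0 (f and the
last factor do not change, K(h++[a]) = a K(h) + K(h^-), K((h++[a])^-) = K(h)). If a x - y ≥ 0:
f = (a x - y) K(g') + x K(^-g') ≥ K(^-g'); if g' ≠ [], K(g') ≤ 3 K(^-g') ≤ 3 f and K(h a g') ≤ 2 K(h++[a]) K(g') ≤ 18 K(h) f;
if g' = [], K(h a) ≤ 3 K(h).
With h = []: K(g) ≤ 18 max(1,f) y. If (x,y) ≠ 0 and x, y have the same sign (or one is 0) and g ≠ []: K(g) ≤ 3 |x K(g) + y K(^-g)|,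
because K(g) ≤ 3 K(^-g). So for all integers (x,y) ≠ (0,0), g ≠ []:
(*) K(g) ≤ 18 max(1, |x K(g) + y K(^-g)|) max(1,|y|).

Theorem uniq. Put a1 = t1 d s1, a2 = t2 d s2.
Step 1: s1 = s2. If not, hS gives 24 R K(s1) K(s2) < K(a2). As the lengths agree write s1 = s1' ++ e1 :: c, s2 = s2' ++ e2 :: c with letters
e1 ≠ e2. The determinant X = K(a1) K(a2^-) - K(a2) K(a1^-) satisfies |X| ≤ R (K(a1) + K(a1^-)) ≤ 2 R K(a1). On the other hand
v(a_i) = v(g_i ++ [e_i]) cmat c, g_i = t_i d s_i', so |X| = |det| of the rows v(g1++[e1]), v(g2++[e2]); v(g++[e]) = (e K(g) + K(g^-), K(g)).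
With e1 = 1, e2 = 2 (the other case is symmetric): |X| = K(g2)(K(g1) - K(g1^-)) + K(g1) K(g2^-) ≥ K(g1) K(g2^-) ≥ K(g1) K(g2)/3.
Further K(a_i) ≤ 2 K(g_i) K(e_i :: c) ≤ 2 K(g_i) K(s_i). So K(a1) K(a2) ≤ 4 K(g1) K(g2) K(s1) K(s2) ≤ 12 |X| K(s1) K(s2) ≤ 24 R K(a1) K(s1) K(s2),
so K(a2) ≤ 24 R K(s1) K(s2), contradiction.
Step 2: t1 = t2. If not, hT applies. Put g = d ++ s1, (x',y') = v(t1) - v(t2) = q (x,y) (because v(a1) - v(a2) = (x',y') cmat g is
divisible by q and cmat g is invertible over the integers). (x,y) ≠ 0: otherwise v(t1) = v(t2), so t1 = t2, since words over {1,2} of the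
same length with equal first rows agree (compare first columns of the reversed words; or prove directly by induction from the right: K(w e) = e K(w) + K(w^-),
K((w e)^-) = K(w); e = 1 and e = 2 would give K(w)+K(w^-) = 2 K(w') + K(w'^-) with K(w) = K(w'), so K(w^-) = K(w)+K(w'^-), so K(w'^-) = 0 and K(w^-) = K(w);
then w' = [] and w = [] by lengths, but K([]^-) = 0 ≠ 1).
The first coordinate: |x' K(g) + y' K(^-g)| ≤ R, so |x K(g) + y K(^-g)| ≤ R/q, and |y| ≤ max(K(t1^-),K(t2^-))/q ≤ T/q.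
(*) gives K(g) ≤ 18 max(1,R/q) max(1,T/q), contradiction to hT.
-/

namespace Pool.Agent.H51.ZB

theorem uq_snoc (w : List ℤ) (e : ℤ) : cmat (w ++ [e]) 0 0 = e * cmat w 0 0 + cmat w 0 1 ∧
    cmat (w ++ [e]) 0 1 = cmat w 0 0 := by
  have h : cmat [e] = !![e, 1; 1, 0] := by simp [cmat]
  rw [cmat_append, h]
  constructor
  · simp [Matrix.mul_apply, Fin.sum_univ_two]
    ring
  · simp [Matrix.mul_apply, Fin.sum_univ_two]

theorem uq_three (w : List ℤ) (hw : Word12 w) (h : w ≠ []) : cmat w 0 0 ≤ 3 * cmat w 1 0 := by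
  rcases w with _ | ⟨a, v⟩
  · exact absurd rfl h
  · obtain ⟨e1, e2⟩ := entries_cons a v
    have hv : Word12 v := fun b hb => hw b (List.mem_cons_of_mem _ hb)
    have h1 := ent_le v hv
    have h2 := (growth v hv).1
    have ha : a ≤ 2 := by rcases hw a (List.mem_cons_self) with h | h <;> omega
    rw [e1, e2]
    nlinarith

theorem uq_three' (w : List ℤ) (hw : Word12 w) (h : w ≠ []) : cmat w 0 0 ≤ 3 * cmat w 0 1 := by
  rw [ent01, ← K_reverse w]
  exact uq_three _ (word_reverse hw) (by simpa using h)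

theorem uq_bad (g : List ℤ) : ∀ (h : List ℤ) (x y : ℤ), Word12 g → Word12 h → 0 < x → 0 < y →
    cmat (h ++ g) 0 0 ≤ 18 * max 1 |x * cmat g 0 0 - y * cmat g 1 0| *
      (x * cmat h 0 1 + y * cmat h 0 0) := by
  induction g with
  | nil =>
    intro h x y _ hh hx hy
    rw [List.append_nil]
    have h1 := (growth h hh).1
    have h2 := (ent01_bd h hh).1
    obtain ⟨M, hM⟩ : ∃ M, M = max 1 |x * cmat [] 0 0 - y * cmat [] 1 0| := ⟨_, rfl⟩
    have h3 : (1 : ℤ) ≤ M := by rw [hM]; exact le_max_left _ _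
    rw [← hM]
    have h4 : cmat h 0 0 ≤ x * cmat h 0 1 + y * cmat h 0 0 := by nlinarith [mul_nonneg hx.le h2]
    have h5 : 0 ≤ x * cmat h 0 1 + y * cmat h 0 0 := by linarith
    nlinarith
  | cons a g ih =>
    intro h x y hg hh hx hy
    have hg' : Word12 g := fun b hb => hg b (List.mem_cons_of_mem _ hb)
    obtain ⟨e1, e2⟩ := entries_cons a g
    have ha := hg a List.mem_cons_self
    have hha : Word12 (h ++ [a]) := word_append hh (by
      intro b hb
      rw [List.mem_singleton] at hb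
      subst hb
      exact ha)
    have e0 : h ++ a :: g = (h ++ [a]) ++ g := by simp
    rcases lt_or_ge (a * x - y) 0 with hc | hc
    · have ih' := ih (h ++ [a]) (y - a * x) x hg' hha (by linarith) hx
      rw [(uq_snoc h a).1, (uq_snoc h a).2] at ih'
      have e3 : |(y - a * x) * cmat g 0 0 - x * cmat g 1 0| =
          |x * cmat (a :: g) 0 0 - y * cmat (a :: g) 1 0| := by
        rw [e1, e2, ← abs_neg]
        congr 1
        ring
      have e4 : (y - a * x) * cmat h 0 0 + x * (a * cmat h 0 0 + cmat h 0 1) =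
          x * cmat h 0 1 + y * cmat h 0 0 := by ring
      rw [e3, e4] at ih'
      rw [e0]
      exact ih'
    · obtain ⟨M, hM⟩ : ∃ M, M = max 1 |x * cmat (a :: g) 0 0 - y * cmat (a :: g) 1 0| := ⟨_, rfl⟩
      rw [← hM]
      have h3 : (1 : ℤ) ≤ M := by rw [hM]; exact le_max_left _ _
      have g1 := (growth g hg').1
      have g2 := (growth g hg').2.1
      have h1 := (growth h hh).1
      have h2 := ent01_bd h hh
      have h4 : cmat g 1 0 ≤ M := by
        have h5 : |x * cmat (a :: g) 0 0 - y * cmat (a :: g) 1 0| ≤ M := by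
          rw [hM]; exact le_max_right _ _
        have h6 := le_trans (le_abs_self _) h5
        rw [e1, e2] at h6
        nlinarith [mul_nonneg hc (show 0 ≤ cmat g 0 0 by linarith)]
      have h5 : cmat g 0 0 ≤ 3 * M := by
        by_cases hg0 : g = []
        · subst hg0
          simp [cmat]
          linarith
        · have := uq_three g hg' hg0
          linarith
      have h6 := (K_append_bd (h ++ [a]) g hha hg').2
      have h7 : cmat (h ++ [a]) 0 0 ≤ 3 * cmat h 0 0 := by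
        rw [(uq_snoc h a).1]
        have ha2 : a ≤ 2 := by rcases ha with h | h <;> omega
        nlinarith
      have h8 : 0 ≤ cmat (h ++ [a]) 0 0 := by linarith [(growth _ hha).1]
      rw [e0]
      have h9 : 2 * cmat (h ++ [a]) 0 0 * cmat g 0 0 ≤ 2 * (3 * cmat h 0 0) * (3 * M) := by
        apply mul_le_mul _ h5 (by linarith) (by linarith)
        linarith
      have h10 : cmat h 0 0 ≤ x * cmat h 0 1 + y * cmat h 0 0 := by
        nlinarith [mul_nonneg hx.le h2.1]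
      have h11 : 18 * M * cmat h 0 0 ≤ 18 * M * (x * cmat h 0 1 + y * cmat h 0 0) :=
        mul_le_mul_of_nonneg_left h10 (by linarith)
      linarith

theorem uq_star (g : List ℤ) (hg : Word12 g) (hne : g ≠ []) (x y : ℤ) (hxy : ¬ (x = 0 ∧ y = 0)) :
    cmat g 0 0 ≤ 18 * max 1 |x * cmat g 0 0 + y * cmat g 1 0| * max 1 |y| := by
  have hm1 : (1 : ℤ) ≤ max 1 |x * cmat g 0 0 + y * cmat g 1 0| := le_max_left _ _
  have hm2 : |x * cmat g 0 0 + y * cmat g 1 0| ≤ max 1 |x * cmat g 0 0 + y * cmat g 1 0| :=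
    le_max_right _ _
  have hn1 : (1 : ℤ) ≤ max 1 |y| := le_max_left _ _
  have hn2 : |y| ≤ max 1 |y| := le_max_right _ _
  have hnil : Word12 ([] : List ℤ) := by intro a ha; simp at ha
  have g1 := (growth g hg).1
  have g2 := (growth g hg).2.1
  have g3 := ent_le g hg
  have g4 := uq_three g hg hne
  have key : ∀ u v : ℤ, 0 < u → 0 < v →
      |u * cmat g 0 0 - v * cmat g 1 0| = |x * cmat g 0 0 + y * cmat g 1 0| → v ≤ |y| →
      cmat g 0 0 ≤ 18 * max 1 |x * cmat g 0 0 + y * cmat g 1 0| * max 1 |y| := by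
    intro u v hu hv h1 h2
    have h3 := uq_bad g [] u v hg hnil hu hv
    rw [h1, List.nil_append] at h3
    have h4 : u * cmat [] 0 1 + v * cmat [] 0 0 = v := by simp [cmat]
    rw [h4] at h3
    refine h3.trans (mul_le_mul_of_nonneg_left (h2.trans hn2) (by linarith))
  have key2 : cmat g 1 0 ≤ |x * cmat g 0 0 + y * cmat g 1 0| →
      cmat g 0 0 ≤ 18 * max 1 |x * cmat g 0 0 + y * cmat g 1 0| * max 1 |y| := by
    intro h
    obtain ⟨M, hM⟩ : ∃ M, M = max 1 |x * cmat g 0 0 + y * cmat g 1 0| := ⟨_, rfl⟩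
    obtain ⟨N, hN⟩ : ∃ N, N = max 1 |y| := ⟨_, rfl⟩
    rw [← hM] at hm1 hm2 ⊢
    rw [← hN] at hn1 ⊢
    nlinarith
  rcases lt_trichotomy x 0 with hx | hx | hx
  · rcases lt_or_ge 0 y with hy | hy
    · refine key (-x) y (by linarith) hy ?_ (le_abs_self y)
      rw [← abs_neg]
      congr 1
      ring
    · apply key2
      refine le_trans ?_ (neg_le_abs _)
      nlinarith [mul_nonneg (show 0 ≤ -y by linarith) g2]
  · subst hx
    have hy : y ≠ 0 := fun h => hxy ⟨rfl, h⟩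
    apply key2
    rw [zero_mul, zero_add, abs_mul, abs_of_nonneg g2]
    have : 1 ≤ |y| := Int.one_le_abs hy
    nlinarith
  · rcases lt_or_ge y 0 with hy | hy
    · refine key x (-y) hx (by linarith) ?_ (neg_le_abs y)
      congr 1
      ring
    · apply key2
      refine le_trans ?_ (le_abs_self _)
      nlinarith [mul_nonneg hy g2]

theorem uq_col_inj (w : List ℤ) : ∀ w' : List ℤ, Word12 w → Word12 w' → w.length = w'.length →
    cmat w 0 0 = cmat w' 0 0 → cmat w 1 0 = cmat w' 1 0 → w = w' := by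
  induction w with
  | nil =>
    intro w' _ _ h _ _
    exact (List.length_eq_zero_iff.1 h.symm).symm
  | cons a v ih =>
    intro w' hw hw' hl e0 e1
    rcases w' with _ | ⟨b, v'⟩
    · simp at hl
    · have hl' : v.length = v'.length := by simpa using hl
      have hv : Word12 v := fun b hb => hw b (List.mem_cons_of_mem _ hb)
      have hv' : Word12 v' := fun b hb => hw' b (List.mem_cons_of_mem _ hb)
      rw [(entries_cons a v).1, (entries_cons b v').1] at e0
      rw [(entries_cons a v).2, (entries_cons b v').2] at e1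
      have p1 := growth v hv
      have p2 := growth v' hv'
      have l1 := ent_le v hv
      have l2 := ent_le v' hv'
      have no : ∀ {u u' : List ℤ}, Word12 u → Word12 u' → u.length = u'.length →
          cmat u 0 0 = cmat u' 0 0 → cmat u 0 0 + cmat u 1 0 = 2 * cmat u' 0 0 + cmat u' 1 0 →
          False := by
        intro u u' hu hu' hl h1 h2
        have q1 := growth u hu
        have q2 := growth u' hu'
        have m1 := ent_le u hu
        have h3 : cmat u' 1 0 ≤ 0 := by linarith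
        have h4 : u' = [] := by
          by_contra hne
          have := q2.2.2.1 hne
          linarith
        have h5 : u = [] := by
          rw [h4] at hl
          exact List.length_eq_zero_iff.1 hl
        rw [h4, h5] at h2
        simp [cmat] at h2
      have hab : a = b := by
        rcases hw a List.mem_cons_self with ha | ha <;> rcases hw' b List.mem_cons_self with hb | hb
        · rw [ha, hb]
        · exfalso
          rw [ha, hb, one_mul] at e0
          exact no hv hv' hl' e1 e0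
        · exfalso
          rw [ha, hb, one_mul] at e0
          exact no hv' hv hl'.symm e1.symm e0.symm
        · rw [ha, hb]
      subst hab
      have e2 : cmat v 1 0 = cmat v' 1 0 := by rw [e1] at e0; linarith
      rw [ih v' hv hv' hl' e1 e2]

theorem uq_row_inj (w w' : List ℤ) (hw : Word12 w) (hw' : Word12 w') (hl : w.length = w'.length)
    (e0 : cmat w 0 0 = cmat w' 0 0) (e1 : cmat w 0 1 = cmat w' 0 1) : w = w' := by
  have h := uq_col_inj w.reverse w'.reverse (word_reverse hw) (word_reverse hw') (by simpa using hl)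
    (by rw [K_reverse, K_reverse, e0]) (by rw [← ent01, ← ent01, e1])
  exact List.reverse_injective h

theorem uq_prefix (l1 : List ℤ) : ∀ l2 : List ℤ, l1.length = l2.length → l1 ≠ l2 →
    ∃ (p : List ℤ) (a b : ℤ) (r1 r2 : List ℤ), l1 = p ++ a :: r1 ∧ l2 = p ++ b :: r2 ∧ a ≠ b := by
  induction l1 with
  | nil =>
    intro l2 h hne
    exact absurd (List.length_eq_zero_iff.1 h.symm).symm hne
  | cons a l1 ih =>
    intro l2 h hne
    rcases l2 with _ | ⟨b, l2⟩
    · simp at h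
    · by_cases hab : a = b
      · subst hab
        obtain ⟨p, c, d, r1, r2, h1, h2, h3⟩ := ih l2 (by simpa using h) (fun h' => hne (by rw [h']))
        exact ⟨a :: p, c, d, r1, r2, by rw [h1]; rfl, by rw [h2]; rfl, h3⟩
      · exact ⟨[], a, b, l1, l2, rfl, rfl, hab⟩

theorem uq_suffix (s1 s2 : List ℤ) (h : s1.length = s2.length) (hne : s1 ≠ s2) :
    ∃ (u1 u2 c : List ℤ) (e1 e2 : ℤ), s1 = u1 ++ e1 :: c ∧ s2 = u2 ++ e2 :: c ∧ e1 ≠ e2 := by
  obtain ⟨p, a, b, r1, r2, h1, h2, h3⟩ := uq_prefix s1.reverse s2.reverse (by simpa using h)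
    (fun h' => hne (List.reverse_injective h'))
  refine ⟨r1.reverse, r2.reverse, p.reverse, a, b, ?_, ?_, h3⟩
  · rw [← List.reverse_reverse s1, h1]; simp
  · rw [← List.reverse_reverse s2, h2]; simp

theorem uniq (t1 t2 d s1 s2 : List ℤ) (ht1 : Word12 t1) (ht2 : Word12 t2) (hd : Word12 d)
    (hs1 : Word12 s1) (hs2 : Word12 s2) (hlt : t1.length = t2.length)
    (hls : s1.length = s2.length) (hdl : 2 ≤ d.length) (q : ℕ) (hq : 1 ≤ q) (R T : ℝ)
    (hR : 0 ≤ R)
    (hc0 : (q : ℤ) ∣ cmat (t1 ++ d ++ s1) 0 0 - cmat (t2 ++ d ++ s2) 0 0)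
    (hc1 : (q : ℤ) ∣ cmat (t1 ++ d ++ s1) 0 1 - cmat (t2 ++ d ++ s2) 0 1)
    (hb0 : |(cmat (t1 ++ d ++ s1) 0 0 : ℝ) - cmat (t2 ++ d ++ s2) 0 0| ≤ R)
    (hb1 : |(cmat (t1 ++ d ++ s1) 0 1 : ℝ) - cmat (t2 ++ d ++ s2) 0 1| ≤ R)
    (hT1 : (cmat t1 0 0 : ℝ) ≤ T) (hT2 : (cmat t2 0 0 : ℝ) ≤ T)
    (hS : s1 = s2 ∨ 24 * R * cmat s1 0 0 * cmat s2 0 0 < (cmat (t2 ++ d ++ s2) 0 0 : ℝ))
    (hT : t1 = t2 ∨ 18 * max 1 (R / q) * max 1 (T / q) < (cmat (d ++ s1) 0 0 : ℝ)) :
    t1 = t2 ∧ s1 = s2 := by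
  have ht : ∀ {t d s : List ℤ}, Word12 t → Word12 d → Word12 s → Word12 (t ++ d ++ s) :=
    fun a b c => word_append (word_append a b) c
  have hdne : d ≠ [] := by
    intro h
    rw [h] at hdl
    simp at hdl
  -- step 1
  have hs : s1 = s2 := by
    by_contra hne
    rcases hS with hS | hS
    · exact hne hS
    obtain ⟨u1, u2, c, e1, e2, hu1, hu2, hee⟩ := uq_suffix s1 s2 hls hne
    have w1 : Word12 u1 ∧ Word12 (e1 :: c) :=
      ⟨fun b hb => hs1 b (by rw [hu1]; exact List.mem_append_left _ hb),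
        fun b hb => hs1 b (by rw [hu1]; exact List.mem_append_right _ hb)⟩
    have w2 : Word12 u2 ∧ Word12 (e2 :: c) :=
      ⟨fun b hb => hs2 b (by rw [hu2]; exact List.mem_append_left _ hb),
        fun b hb => hs2 b (by rw [hu2]; exact List.mem_append_right _ hb)⟩
    obtain ⟨g1, hg1⟩ : ∃ g, g = t1 ++ d ++ u1 := ⟨_, rfl⟩
    obtain ⟨g2, hg2⟩ : ∃ g, g = t2 ++ d ++ u2 := ⟨_, rfl⟩
    have wg1 : Word12 g1 := by rw [hg1]; exact ht ht1 hd w1.1
    have wg2 : Word12 g2 := by rw [hg2]; exact ht ht2 hd w2.1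
    have ng1 : g1 ≠ [] := by rw [hg1]; simp [hdne]
    have ng2 : g2 ≠ [] := by rw [hg2]; simp [hdne]
    have ea1 : t1 ++ d ++ s1 = g1 ++ (e1 :: c) := by rw [hg1, hu1]; simp
    have ea2 : t2 ++ d ++ s2 = g2 ++ (e2 :: c) := by rw [hg2, hu2]; simp
    have eb1 : t1 ++ d ++ s1 = (g1 ++ [e1]) ++ c := by rw [ea1]; simp
    have eb2 : t2 ++ d ++ s2 = (g2 ++ [e2]) ++ c := by rw [ea2]; simp
    have wa1 : Word12 (t1 ++ d ++ s1) := ht ht1 hd hs1
    have wa2 : Word12 (t2 ++ d ++ s2) := ht ht2 hd hs2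
    -- bound for the product
    have k1 := (K_append_bd g1 (e1 :: c) wg1 w1.2).2
    have k2 := (K_append_bd g2 (e2 :: c) wg2 w2.2).2
    have m1 := (K_append_bd u1 (e1 :: c) w1.1 w1.2).1
    have m2 := (K_append_bd u2 (e2 :: c) w2.1 w2.2).1
    rw [← ea1] at k1
    rw [← ea2] at k2
    rw [← hu1] at m1
    rw [← hu2] at m2
    have c1 := (growth _ w1.2).1
    have c2 := (growth _ w2.2).1
    have v1 := (growth _ w1.1).1
    have v2 := (growth _ w2.1).1
    have r1 := (growth _ wg1).1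
    have r2 := (growth _ wg2).1
    have n1 : cmat (e1 :: c) 0 0 ≤ cmat s1 0 0 := by nlinarith
    have n2 : cmat (e2 :: c) 0 0 ≤ cmat s2 0 0 := by nlinarith
    have k1' : cmat (t1 ++ d ++ s1) 0 0 ≤ 2 * cmat g1 0 0 * cmat s1 0 0 :=
      k1.trans (mul_le_mul_of_nonneg_left n1 (by linarith))
    have k2' : cmat (t2 ++ d ++ s2) 0 0 ≤ 2 * cmat g2 0 0 * cmat s2 0 0 :=
      k2.trans (mul_le_mul_of_nonneg_left n2 (by linarith))
    -- the determinant
    obtain ⟨X, hX⟩ : ∃ X : ℤ, X = cmat (t1 ++ d ++ s1) 0 0 * cmat (t2 ++ d ++ s2) 0 1 -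
      cmat (t2 ++ d ++ s2) 0 0 * cmat (t1 ++ d ++ s1) 0 1 := ⟨_, rfl⟩
    have hX2 : |X| = |cmat (g1 ++ [e1]) 0 0 * cmat g2 0 0 - cmat (g2 ++ [e2]) 0 0 * cmat g1 0 0| := by
      have e3 : X = (cmat (g1 ++ [e1]) 0 0 * cmat (g2 ++ [e2]) 0 1 -
          cmat (g2 ++ [e2]) 0 0 * cmat (g1 ++ [e1]) 0 1) * (cmat c).det := by
        rw [hX, eb1, eb2, cmat_append (g1 ++ [e1]) c, cmat_append (g2 ++ [e2]) c,
          Matrix.det_fin_two]
        simp only [Matrix.mul_apply, Fin.sum_univ_two]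
        ring
      rw [e3, abs_mul, (uq_snoc g1 e1).2, (uq_snoc g2 e2).2]
      have e4 : |(cmat c).det| = 1 := by
        rcases det_cmat c with h | h <;> rw [h] <;> simp
      rw [e4, mul_one]
    have hX3 : cmat g1 0 0 * cmat g2 0 0 ≤ 3 * |X| := by
      rw [hX2, (uq_snoc g1 e1).1, (uq_snoc g2 e2).1]
      have a1 := ent01_bd g1 wg1
      have a2 := ent01_bd g2 wg2
      have b1 := uq_three' g1 wg1 ng1
      have b2 := uq_three' g2 wg2 ng2
      have he1 := w1.2 e1 List.mem_cons_self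
      have he2 := w2.2 e2 List.mem_cons_self
      rcases he1 with h1 | h1 <;> rcases he2 with h2 | h2
      · exact absurd (h1.trans h2.symm) hee
      · rw [h1, h2]
        refine le_trans ?_ (mul_le_mul_of_nonneg_left (neg_le_abs _) (by norm_num))
        nlinarith [mul_nonneg (show 0 ≤ cmat g1 0 0 - cmat g1 0 1 by linarith)
          (show 0 ≤ cmat g2 0 0 by linarith),
          mul_nonneg (show 0 ≤ cmat g1 0 0 by linarith)
          (show 0 ≤ 3 * cmat g2 0 1 - cmat g2 0 0 by linarith)]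
      · rw [h1, h2]
        refine le_trans ?_ (mul_le_mul_of_nonneg_left (le_abs_self _) (by norm_num))
        nlinarith [mul_nonneg (show 0 ≤ cmat g2 0 0 - cmat g2 0 1 by linarith)
          (show 0 ≤ cmat g1 0 0 by linarith),
          mul_nonneg (show 0 ≤ cmat g2 0 0 by linarith)
          (show 0 ≤ 3 * cmat g1 0 1 - cmat g1 0 0 by linarith)]
      · exact absurd (h1.trans h2.symm) hee
    -- real numbers
    have A1 : (1 : ℝ) ≤ (cmat (t1 ++ d ++ s1) 0 0 : ℝ) := by exact_mod_cast (growth _ wa1).1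
    have A2 : (1 : ℝ) ≤ (cmat (t2 ++ d ++ s2) 0 0 : ℝ) := by exact_mod_cast (growth _ wa2).1
    have B1 : (0 : ℝ) ≤ (cmat (t1 ++ d ++ s1) 0 1 : ℝ) := by exact_mod_cast (ent01_bd _ wa1).1
    have B1' : (cmat (t1 ++ d ++ s1) 0 1 : ℝ) ≤ (cmat (t1 ++ d ++ s1) 0 0 : ℝ) := by
      exact_mod_cast (ent01_bd _ wa1).2
    have S1 : (1 : ℝ) ≤ (cmat s1 0 0 : ℝ) := by exact_mod_cast (growth _ hs1).1
    have S2 : (1 : ℝ) ≤ (cmat s2 0 0 : ℝ) := by exact_mod_cast (growth _ hs2).1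
    have G1 : (1 : ℝ) ≤ (cmat g1 0 0 : ℝ) := by exact_mod_cast r1
    have G2 : (1 : ℝ) ≤ (cmat g2 0 0 : ℝ) := by exact_mod_cast r2
    have K1 : (cmat (t1 ++ d ++ s1) 0 0 : ℝ) ≤ 2 * cmat g1 0 0 * cmat s1 0 0 := by
      exact_mod_cast k1'
    have K2 : (cmat (t2 ++ d ++ s2) 0 0 : ℝ) ≤ 2 * cmat g2 0 0 * cmat s2 0 0 := by
      exact_mod_cast k2'
    have X3 : (cmat g1 0 0 : ℝ) * cmat g2 0 0 ≤ 3 * |(X : ℝ)| := by exact_mod_cast hX3
    have X4 : |(X : ℝ)| ≤ R * (cmat (t1 ++ d ++ s1) 0 0 : ℝ) + R * cmat (t1 ++ d ++ s1) 0 1 := by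
      have e5 : (X : ℝ) = (cmat (t1 ++ d ++ s1) 0 0 : ℝ) *
          -((cmat (t1 ++ d ++ s1) 0 1 : ℝ) - cmat (t2 ++ d ++ s2) 0 1) +
          (cmat (t1 ++ d ++ s1) 0 1 : ℝ) *
          ((cmat (t1 ++ d ++ s1) 0 0 : ℝ) - cmat (t2 ++ d ++ s2) 0 0) := by
        rw [hX]; push_cast; ring
      rw [e5]
      refine (abs_add_le _ _).trans ?_
      rw [abs_mul, abs_mul, abs_neg, abs_of_nonneg (by linarith : (0 : ℝ) ≤ (cmat (t1 ++ d ++ s1) 0 0 : ℝ)),
        abs_of_nonneg B1]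
      have h1 := mul_le_mul_of_nonneg_left hb1 (by linarith : (0 : ℝ) ≤ (cmat (t1 ++ d ++ s1) 0 0 : ℝ))
      have h2 := mul_le_mul_of_nonneg_left hb0 B1
      linarith
    generalize (cmat (t1 ++ d ++ s1) 0 0 : ℝ) = a1 at *
    generalize (cmat (t2 ++ d ++ s2) 0 0 : ℝ) = a2 at *
    generalize (cmat (t1 ++ d ++ s1) 0 1 : ℝ) = b1 at *
    generalize (cmat s1 0 0 : ℝ) = σ1 at *
    generalize (cmat s2 0 0 : ℝ) = σ2 at *
    generalize (cmat g1 0 0 : ℝ) = γ1 at *
    generalize (cmat g2 0 0 : ℝ) = γ2 at *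
    have f1 : a1 * a2 ≤ (2 * γ1 * σ1) * (2 * γ2 * σ2) :=
      mul_le_mul K1 K2 (by linarith) (by positivity)
    have f2 : |(X : ℝ)| ≤ 2 * R * a1 := by nlinarith
    have f3 : (γ1 * γ2) * (4 * (σ1 * σ2)) ≤ (3 * (2 * R * a1)) * (4 * (σ1 * σ2)) :=
      mul_le_mul_of_nonneg_right (by linarith) (by positivity)
    have f4 : a1 * a2 ≤ a1 * (24 * R * σ1 * σ2) := by
      calc a1 * a2 ≤ (2 * γ1 * σ1) * (2 * γ2 * σ2) := f1
        _ = (γ1 * γ2) * (4 * (σ1 * σ2)) := by ring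
        _ ≤ (3 * (2 * R * a1)) * (4 * (σ1 * σ2)) := f3
        _ = a1 * (24 * R * σ1 * σ2) := by ring
    have f5 := le_of_mul_le_mul_left f4 (by linarith)
    linarith
  -- step 2
  refine ⟨?_, hs⟩
  subst hs
  by_contra hne
  rcases hT with hT | hT
  · exact hne hT
  obtain ⟨g, hg⟩ : ∃ g, g = d ++ s1 := ⟨_, rfl⟩
  have wg : Word12 g := by rw [hg]; exact word_append hd hs1
  have ng : g ≠ [] := by rw [hg]; simp [hdne]
  have e1 : t1 ++ d ++ s1 = t1 ++ g := by rw [hg, List.append_assoc]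
  have e2 : t2 ++ d ++ s1 = t2 ++ g := by rw [hg, List.append_assoc]
  rw [e1, e2] at hc0 hc1 hb0
  rw [← hg] at hT
  have row : ∀ t : List ℤ, cmat (t ++ g) 0 0 = cmat t 0 0 * cmat g 0 0 + cmat t 0 1 * cmat g 1 0 ∧
      cmat (t ++ g) 0 1 = cmat t 0 0 * cmat g 0 1 + cmat t 0 1 * cmat g 1 1 := by
    intro t
    rw [cmat_append]
    constructor <;> simp [Matrix.mul_apply, Fin.sum_univ_two]
  obtain ⟨u, hu⟩ := hc0
  obtain ⟨v, hv⟩ := hc1
  rw [(row t1).1, (row t2).1] at hu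
  rw [(row t1).2, (row t2).2] at hv
  have hdet : (cmat g).det = cmat g 0 0 * cmat g 1 1 - cmat g 0 1 * cmat g 1 0 :=
    Matrix.det_fin_two _
  obtain ⟨δ, hδ1, hδ2⟩ : ∃ δ : ℤ, cmat g 0 0 * cmat g 1 1 - cmat g 0 1 * cmat g 1 0 = δ ∧
      δ * δ = 1 := by
    refine ⟨_, rfl, ?_⟩
    rw [← hdet]
    rcases det_cmat g with h | h <;> rw [h] <;> norm_num
  obtain ⟨x, hx⟩ : ∃ x : ℤ, x = δ * (u * cmat g 1 1 - v * cmat g 1 0) := ⟨_, rfl⟩
  obtain ⟨y, hy⟩ : ∃ y : ℤ, y = δ * (v * cmat g 0 0 - u * cmat g 0 1) := ⟨_, rfl⟩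
  have hx' : cmat t1 0 0 - cmat t2 0 0 = q * x := by
    rw [hx]
    linear_combination (-(cmat t1 0 0 - cmat t2 0 0)) * hδ2 - (cmat t1 0 0 - cmat t2 0 0) * δ * hδ1 +
      δ * cmat g 1 1 * hu - δ * cmat g 1 0 * hv
  have hy' : cmat t1 0 1 - cmat t2 0 1 = q * y := by
    rw [hy]
    linear_combination (-(cmat t1 0 1 - cmat t2 0 1)) * hδ2 - (cmat t1 0 1 - cmat t2 0 1) * δ * hδ1 +
      δ * cmat g 0 0 * hv - δ * cmat g 0 1 * hu
  have hxy : ¬ (x = 0 ∧ y = 0) := by
    rintro ⟨h1, h2⟩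
    rw [h1, mul_zero] at hx'
    rw [h2, mul_zero] at hy'
    exact hne (uq_row_inj t1 t2 ht1 ht2 hlt (by linarith) (by linarith))
  have star := uq_star g wg ng x y hxy
  have hq0 : (0 : ℝ) < (q : ℝ) := by exact_mod_cast hq
  have star' : (cmat g 0 0 : ℝ) ≤
      18 * max 1 |(x : ℝ) * cmat g 0 0 + y * cmat g 1 0| * max 1 |(y : ℝ)| := by
    exact_mod_cast star
  have m1 : |(x : ℝ) * cmat g 0 0 + y * cmat g 1 0| ≤ R / q := by
    rw [le_div_iff₀ hq0]
    have h1 : (cmat (t1 ++ g) 0 0 : ℝ) - cmat (t2 ++ g) 0 0 =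
        ((x : ℝ) * cmat g 0 0 + y * cmat g 1 0) * q := by
      have h2 : cmat (t1 ++ g) 0 0 - cmat (t2 ++ g) 0 0 = (x * cmat g 0 0 + y * cmat g 1 0) * q := by
        rw [(row t1).1, (row t2).1]
        linear_combination cmat g 0 0 * hx' + cmat g 1 0 * hy'
      exact_mod_cast h2
    rw [h1, abs_mul, abs_of_pos hq0] at hb0
    exact hb0
  have m2 : |(y : ℝ)| ≤ T / q := by
    rw [le_div_iff₀ hq0]
    have h2 : (cmat t1 0 1 : ℝ) - cmat t2 0 1 = (y : ℝ) * q := by
      have : cmat t1 0 1 - cmat t2 0 1 = y * q := by rw [hy']; ring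
      exact_mod_cast this
    have h3 : |(y : ℝ)| * q = |(cmat t1 0 1 : ℝ) - cmat t2 0 1| := by
      rw [h2, abs_mul, abs_of_pos hq0]
    rw [h3]
    have a1 : (0 : ℝ) ≤ (cmat t1 0 1 : ℝ) := by exact_mod_cast (ent01_bd t1 ht1).1
    have a2 : (0 : ℝ) ≤ (cmat t2 0 1 : ℝ) := by exact_mod_cast (ent01_bd t2 ht2).1
    have a3 : (cmat t1 0 1 : ℝ) ≤ (cmat t1 0 0 : ℝ) := by exact_mod_cast (ent01_bd t1 ht1).2
    have a4 : (cmat t2 0 1 : ℝ) ≤ (cmat t2 0 0 : ℝ) := by exact_mod_cast (ent01_bd t2 ht2).2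
    rw [abs_le]
    constructor <;> linarith
  have h1 : max 1 |(x : ℝ) * cmat g 0 0 + y * cmat g 1 0| ≤ max 1 (R / q) := max_le_max le_rfl m1
  have h2 : max 1 |(y : ℝ)| ≤ max 1 (T / q) := max_le_max le_rfl m2
  have h3 : (0 : ℝ) ≤ max 1 |(y : ℝ)| := le_trans zero_le_one (le_max_left _ _)
  have h4 : (0 : ℝ) ≤ max 1 (R / q) := le_trans zero_le_one (le_max_left _ _)
  have h5 : 18 * max 1 |(x : ℝ) * cmat g 0 0 + y * cmat g 1 0| * max 1 |(y : ℝ)| ≤
      18 * max 1 (R / q) * max 1 (T / q) := by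
    apply mul_le_mul _ h2 h3 (by linarith)
    linarith
  linarith

end Pool.Agent.H51.ZB
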