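import Mathlib
import Pool.Agent.H51.ZB.Pt

set_option autoImplicit false

namespace Pool.Agent.H51.ZB

open Matrix

theorem final_ineq (C H U0 x13 x4 c1 W : ℝ) (hC : 1 ≤ C) (hH : 1 ≤ H) (hU1 : 1 ≤ U0)
    (hc1 : 0 < c1) (hU0 : U0 ≤ 32 * C * H ^ (501 / 500 : ℝ)) (hx4 : U0 ^ (21 / 20 : ℝ) ≤ x4)
    (hx13 : (c1 * H ^ (189 / 200 : ℝ)) ^ (26 / 25 : ℝ) ≤ x13)
    (hW : W ≤ 4008 ^ 2 * (6 * C * U0) ^ (501 / 250 : ℝ)) :
    W / (x13 * x4) ≤ (4008 ^ 2 * (6 * C) ^ (501 / 250 : ℝ) * (32 * C) ^ (477 / 500 : ℝ)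
      / c1 ^ (26 / 25 : ℝ)) * H ^ (-(1 / 50) : ℝ) := by
  have hH0 : 0 < H := by linarith
  have hU00 : 0 < U0 := by linarith
  have p1 : (6 * C * U0) ^ (501 / 250 : ℝ)
      = (6 * C) ^ (501 / 250 : ℝ) * (U0 ^ (477 / 500 : ℝ) * U0 ^ (21 / 20 : ℝ)) := by
    rw [Real.mul_rpow (by positivity) hU00.le, ← Real.rpow_add hU00]
    norm_num
  have p2 : (c1 * H ^ (189 / 200 : ℝ)) ^ (26 / 25 : ℝ)
      = c1 ^ (26 / 25 : ℝ) * H ^ (4914 / 5000 : ℝ) := by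
    rw [Real.mul_rpow hc1.le (by positivity), ← Real.rpow_mul hH0.le]
    norm_num
  have p3 : U0 ^ (477 / 500 : ℝ)
      ≤ (32 * C) ^ (477 / 500 : ℝ) * H ^ (238977 / 250000 : ℝ) := by
    calc U0 ^ (477 / 500 : ℝ) ≤ (32 * C * H ^ (501 / 500 : ℝ)) ^ (477 / 500 : ℝ) :=
          Real.rpow_le_rpow hU00.le hU0 (by norm_num)
      _ = _ := by
          rw [Real.mul_rpow (by positivity) (by positivity), ← Real.rpow_mul hH0.le]
          norm_num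
  have p4 : H ^ (238977 / 250000 : ℝ) ≤ H ^ (4914 / 5000 : ℝ) * H ^ (-(1 / 50) : ℝ) := by
    rw [← Real.rpow_add hH0]
    exact Real.rpow_le_rpow_of_exponent_le hH (by norm_num)
  have x4pos : 0 < U0 ^ (21 / 20 : ℝ) := Real.rpow_pos_of_pos hU00 _
  have x13pos : 0 < (c1 * H ^ (189 / 200 : ℝ)) ^ (26 / 25 : ℝ) := by positivity
  have hx13' : 0 < x13 := by linarith
  have hx4' : 0 < x4 := by linarith
  rw [div_le_iff₀ (by positivity)]
  have hc1p : 0 < c1 ^ (26 / 25 : ℝ) := Real.rpow_pos_of_pos hc1 _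
  have hHp : 0 < H ^ (-(1 / 50) : ℝ) := Real.rpow_pos_of_pos hH0 _
  have hA : 0 < (4008 ^ 2 * (6 * C) ^ (501 / 250 : ℝ) * (32 * C) ^ (477 / 500 : ℝ)) := by
    positivity
  calc W ≤ 4008 ^ 2 * (6 * C * U0) ^ (501 / 250 : ℝ) := hW
    _ = 4008 ^ 2 * (6 * C) ^ (501 / 250 : ℝ) * U0 ^ (477 / 500 : ℝ) * U0 ^ (21 / 20 : ℝ) := by
        rw [p1]; ring
    _ ≤ 4008 ^ 2 * (6 * C) ^ (501 / 250 : ℝ) * ((32 * C) ^ (477 / 500 : ℝ)
          * (H ^ (4914 / 5000 : ℝ) * H ^ (-(1 / 50) : ℝ))) * U0 ^ (21 / 20 : ℝ) := by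
        apply mul_le_mul_of_nonneg_right _ x4pos.le
        apply mul_le_mul_of_nonneg_left _ (by positivity)
        exact p3.trans (mul_le_mul_of_nonneg_left p4 (by positivity))
    _ = (4008 ^ 2 * (6 * C) ^ (501 / 250 : ℝ) * (32 * C) ^ (477 / 500 : ℝ)
          / c1 ^ (26 / 25 : ℝ)) * H ^ (-(1 / 50) : ℝ)
          * ((c1 ^ (26 / 25 : ℝ) * H ^ (4914 / 5000 : ℝ)) * U0 ^ (21 / 20 : ℝ)) := by
        field_simp
    _ ≤ (4008 ^ 2 * (6 * C) ^ (501 / 250 : ℝ) * (32 * C) ^ (477 / 500 : ℝ)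
          / c1 ^ (26 / 25 : ℝ)) * H ^ (-(1 / 50) : ℝ) * (x13 * x4) := by
        apply mul_le_mul_of_nonneg_left _ (by positivity)
        rw [← p2]
        exact mul_le_mul hx13 hx4 x4pos.le hx13'.le

theorem condT (C q P Q T V G : ℝ) (hC : 1 ≤ C) (hq : 1 ≤ q) (hP : 1 ≤ P) (hT : 0 < T)
    (hTQ : 150 * C ^ 2 * T ≤ Q) (hQH : Q ≤ q * P) (hQsq : Q ^ 2 ≤ q ^ 2 * P)
    (hQsq2 : Q ^ 2 ≤ q * G) (hQG : Q ≤ G) (hGV : G < V) (hV : 0 < V) :
    18 * max 1 ((2 * V / P) / q) * max 1 (T / q) < V / (4 * C ^ 2 * T) := by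
  have hC2 : 1 ≤ C ^ 2 := one_le_pow₀ hC
  have hq0 : 0 < q := by linarith
  have hP0 : 0 < P := by linarith
  have hC0 : 0 < C := by linarith
  have hX : 0 < C ^ 2 * T := by positivity
  have hZ : 0 < C ^ 2 * T ^ 2 := by positivity
  have hZZ : C ^ 2 * T ^ 2 ≤ C ^ 2 * (C ^ 2 * T ^ 2) := le_mul_of_one_le_left hZ.le hC2
  have hsq : 22500 * (C ^ 2 * (C ^ 2 * T ^ 2)) ≤ Q ^ 2 := by
    calc 22500 * (C ^ 2 * (C ^ 2 * T ^ 2)) = (150 * C ^ 2 * T) ^ 2 := by ring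
      _ ≤ Q ^ 2 := pow_le_pow_left₀ (by positivity) hTQ 2
  have b1 : 18 * 1 * 1 * (4 * C ^ 2 * T) < V := by
    have e : 18 * 1 * 1 * (4 * C ^ 2 * T) = 72 * (C ^ 2 * T) := by ring
    rw [e]; linarith
  have b2 : 18 * ((2 * V / P) / q) * 1 * (4 * C ^ 2 * T) < V := by
    have e : 18 * ((2 * V / P) / q) * 1 * (4 * C ^ 2 * T)
        = V * ((144 * (C ^ 2 * T)) / (q * P)) := by
      field_simp; ring
    rw [e]
    apply mul_lt_of_lt_one_right hV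
    rw [div_lt_one (by positivity)]
    linarith
  have b3 : 18 * 1 * (T / q) * (4 * C ^ 2 * T) < V := by
    have e : 18 * 1 * (T / q) * (4 * C ^ 2 * T) = (72 * (C ^ 2 * T ^ 2)) / q := by
      field_simp; ring
    rw [e, div_lt_iff₀ hq0]
    have h1 : q * G < q * V := mul_lt_mul_of_pos_left hGV hq0
    linarith
  have b4 : 18 * ((2 * V / P) / q) * (T / q) * (4 * C ^ 2 * T) < V := by
    have e : 18 * ((2 * V / P) / q) * (T / q) * (4 * C ^ 2 * T)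
        = V * ((144 * (C ^ 2 * T ^ 2)) / (q ^ 2 * P)) := by
      field_simp; ring
    rw [e]
    apply mul_lt_of_lt_one_right hV
    rw [div_lt_one (by positivity)]
    linarith
  rw [lt_div_iff₀ (by positivity)]
  rcases max_cases 1 ((2 * V / P) / q) with ⟨e1, _⟩ | ⟨e1, _⟩ <;>
    rcases max_cases 1 (T / q) with ⟨e2, _⟩ | ⟨e2, _⟩ <;> rw [e1, e2]
  · exact b1
  · exact b3
  · exact b2
  · exact b4

theorem condS (C P Ks D V : ℝ) (hC : 1 ≤ C) (hP : 1 ≤ P) (hV : 0 < V) (hKs : 0 ≤ Ks)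
    (hD : D ^ 2 ≤ P) (h : Ks ≤ 1 / (10 * C ^ 2) * D) :
    24 * (2 * V / P) * (C * Ks) ^ 2 < V / (2 * C ^ 2) := by
  have hC0 : 0 < C := by linarith
  have hP0 : 0 < P := by linarith
  have h1 : Ks ^ 2 ≤ (1 / (10 * C ^ 2)) ^ 2 * P := by
    calc Ks ^ 2 ≤ (1 / (10 * C ^ 2) * D) ^ 2 := pow_le_pow_left₀ hKs h 2
      _ = (1 / (10 * C ^ 2)) ^ 2 * D ^ 2 := by rw [mul_pow]
      _ ≤ (1 / (10 * C ^ 2)) ^ 2 * P := mul_le_mul_of_nonneg_left hD (by positivity)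
  calc 24 * (2 * V / P) * (C * Ks) ^ 2 = 48 * V * C ^ 2 / P * Ks ^ 2 := by
        field_simp; ring
    _ ≤ 48 * V * C ^ 2 / P * ((1 / (10 * C ^ 2)) ^ 2 * P) :=
        mul_le_mul_of_nonneg_left h1 (by positivity)
    _ = (48 / 100) * (V / C ^ 2) := by field_simp; ring
    _ < (1 / 2) * (V / C ^ 2) := by
        apply mul_lt_mul_of_pos_right (by norm_num) (by positivity)
    _ = V / (2 * C ^ 2) := by field_simp

/-- Lower bound for the product of the two outer cardinalities. -/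
theorem card_ineq (C H U0 Kt Ks τt τs x1 x3 Q D G c1 : ℝ) (hC : 1 ≤ C) (hH1 : 1 ≤ H)
    (hU01 : 1 ≤ U0) (hU0H : U0 ≤ 32 * C * H ^ (501 / 500 : ℝ)) (hKt1 : 1 ≤ Kt) (hKs1 : 1 ≤ Ks)
    (hKsH : Ks ≤ H) (hQ : 1 ≤ Q) (hD : 1 ≤ D) (hτt : τt = 1 / (600 * C ^ 3) * Q)
    (hτs : τs = 1 / (10 * C ^ 2) * D) (hQD : Q * D = G) (hG : G = H ^ (19 / 20 : ℝ))
    (hc1 : c1 = (1 / (600 * C ^ 3)) * (1 / (10 * C ^ 2)) / (256 * C ^ 3))
    (ht2 : τt ≤ 2 * C * Kt ^ (501 / 500 : ℝ))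
    (hs2 : τs ≤ 2 * C * (2 * Ks * U0) ^ (1 / 500 : ℝ) * Ks)
    (hx1 : Kt ^ (21 / 20 : ℝ) ≤ x1) (hx3 : Ks ^ (21 / 20 : ℝ) ≤ x3) :
    (c1 * H ^ (189 / 200 : ℝ)) ^ (26 / 25 : ℝ) ≤ x1 * x3 := by
  have hH0 : 0 < H := by linarith
  have hC0 : 0 < C := by linarith
  have hx1' : (τt / (2 * C)) ^ (26 / 25 : ℝ) ≤ x1 := by
    refine le_trans ?_ hx1
    have h1 : τt / (2 * C) ≤ Kt ^ (501 / 500 : ℝ) := by
      rw [div_le_iff₀ (by positivity)]; linarith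
    have h0 : 0 ≤ τt / (2 * C) := by rw [hτt]; positivity
    calc (τt / (2 * C)) ^ (26 / 25 : ℝ) ≤ (Kt ^ (501 / 500 : ℝ)) ^ (26 / 25 : ℝ) :=
          Real.rpow_le_rpow h0 h1 (by norm_num)
      _ = Kt ^ (13026 / 12500 : ℝ) := by rw [← Real.rpow_mul (by linarith)]; norm_num
      _ ≤ Kt ^ (21 / 20 : ℝ) := Real.rpow_le_rpow_of_exponent_le hKt1 (by norm_num)
  have hx3' : (τs / (128 * C ^ 2 * H ^ (1 / 200 : ℝ))) ^ (26 / 25 : ℝ) ≤ x3 := by
    refine le_trans ?_ hx3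
    have h1 : (2 * Ks * U0) ^ (1 / 500 : ℝ) ≤ 64 * C * H ^ (1 / 200 : ℝ) := by
      calc (2 * Ks * U0) ^ (1 / 500 : ℝ)
          ≤ (2 * H * (32 * C * H ^ (501 / 500 : ℝ))) ^ (1 / 500 : ℝ) := by
            apply Real.rpow_le_rpow (by positivity) _ (by norm_num)
            apply mul_le_mul _ hU0H (by linarith) (by linarith)
            linarith
        _ = ((64 * C) * H ^ (1001 / 500 : ℝ)) ^ (1 / 500 : ℝ) := by
            congr 1
            have : H ^ (1001 / 500 : ℝ) = H ^ (501 / 500 : ℝ) * H := by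
              rw [← Real.rpow_add_one hH0.ne']; norm_num
            rw [this]; ring
        _ = (64 * C) ^ (1 / 500 : ℝ) * H ^ (1001 / 250000 : ℝ) := by
            rw [Real.mul_rpow (by positivity) (by positivity), ← Real.rpow_mul hH0.le]
            norm_num
        _ ≤ (64 * C) ^ (1 : ℝ) * H ^ (1 / 200 : ℝ) := by
            apply mul_le_mul
            · exact Real.rpow_le_rpow_of_exponent_le (by linarith) (by norm_num)
            · exact Real.rpow_le_rpow_of_exponent_le hH1 (by norm_num)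
            · positivity
            · positivity
        _ = 64 * C * H ^ (1 / 200 : ℝ) := by rw [Real.rpow_one]
    have h2 : τs / (128 * C ^ 2 * H ^ (1 / 200 : ℝ)) ≤ Ks := by
      rw [div_le_iff₀ (by positivity)]
      calc τs ≤ 2 * C * (2 * Ks * U0) ^ (1 / 500 : ℝ) * Ks := hs2
        _ ≤ 2 * C * (64 * C * H ^ (1 / 200 : ℝ)) * Ks := by
            apply mul_le_mul_of_nonneg_right _ (by linarith)
            exact mul_le_mul_of_nonneg_left h1 (by linarith)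
        _ = Ks * (128 * C ^ 2 * H ^ (1 / 200 : ℝ)) := by ring
    have h0 : 0 ≤ τs / (128 * C ^ 2 * H ^ (1 / 200 : ℝ)) := by rw [hτs]; positivity
    calc (τs / (128 * C ^ 2 * H ^ (1 / 200 : ℝ))) ^ (26 / 25 : ℝ) ≤ Ks ^ (26 / 25 : ℝ) :=
          Real.rpow_le_rpow h0 h2 (by norm_num)
      _ ≤ Ks ^ (21 / 20 : ℝ) := Real.rpow_le_rpow_of_exponent_le hKs1 (by norm_num)
  have e1 : c1 * H ^ (189 / 200 : ℝ)
      = (τt / (2 * C)) * (τs / (128 * C ^ 2 * H ^ (1 / 200 : ℝ))) := by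
    have e2 : G = H ^ (189 / 200 : ℝ) * H ^ (1 / 200 : ℝ) := by
      rw [hG, ← Real.rpow_add hH0]; norm_num
    have hh := (Real.rpow_pos_of_pos hH0 (1 / 200 : ℝ)).ne'
    have e3 : (τt / (2 * C)) * (τs / (128 * C ^ 2 * H ^ (1 / 200 : ℝ)))
        = c1 * (Q * D) / H ^ (1 / 200 : ℝ) := by
      rw [hτt, hτs, hc1]
      generalize H ^ (1 / 200 : ℝ) = y at *
      field_simp
      ring
    rw [e3, hQD, e2]
    generalize H ^ (1 / 200 : ℝ) = y at *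
    field_simp
  have p1 : 0 ≤ τt / (2 * C) := by rw [hτt]; positivity
  have p3 : 0 ≤ τs / (128 * C ^ 2 * H ^ (1 / 200 : ℝ)) := by rw [hτs]; positivity
  rw [e1, Real.mul_rpow p1 p3]
  exact mul_le_mul hx1' hx3' (Real.rpow_nonneg p3 _) ((Real.rpow_nonneg p1 _).trans hx1')

theorem logW (x : ℝ) (hx : 1 ≤ x) :
    (8 * x * (1 + Real.log x)) ^ 2 ≤ 4008 ^ 2 * x ^ (501 / 250 : ℝ) := by
  have h1 : Real.log x ≤ x ^ (1 / 500 : ℝ) / (1 / 500) :=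
    Real.log_le_rpow_div (by linarith) (by norm_num)
  have h2 : 1 ≤ x ^ (1 / 500 : ℝ) := Real.one_le_rpow hx (by norm_num)
  have h3 : 1 + Real.log x ≤ 501 * x ^ (1 / 500 : ℝ) := by
    have : x ^ (1 / 500 : ℝ) / (1 / 500) = 500 * x ^ (1 / 500 : ℝ) := by ring
    linarith
  have h4 : 0 ≤ Real.log x := Real.log_nonneg hx
  calc (8 * x * (1 + Real.log x)) ^ 2 ≤ (8 * x * (501 * x ^ (1 / 500 : ℝ))) ^ 2 := by
        apply pow_le_pow_left₀ (by positivity)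
        exact mul_le_mul_of_nonneg_left h3 (by linarith)
    _ = 4008 ^ 2 * (x * x ^ (1 / 500 : ℝ)) ^ 2 := by ring
    _ = 4008 ^ 2 * x ^ (501 / 250 : ℝ) := by
        congr 1
        have e1 : x * x ^ (1 / 500 : ℝ) = x ^ (501 / 500 : ℝ) := by
          nth_rewrite 1 [← Real.rpow_one x]
          rw [← Real.rpow_add (by linarith)]; norm_num
        rw [e1, ← Real.rpow_natCast, ← Real.rpow_mul (by linarith)]
        norm_num

theorem pointwise : ∃ C : ℝ, ∃ N₀ : ℕ, 0 < C ∧ 1 ≤ N₀ ∧ ∀ N : ℕ, N₀ ≤ N →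
    ∃ Ω : Finset (List ℤ), Ω.Nonempty ∧
    (∀ w ∈ Ω, Word12 w ∧ (cmat ([2] ++ w ++ [2]) 0 0 : ℝ) ≤ N) ∧
    ∀ (θ : ℝ) (r : ℚ), r.den ≤ Nat.sqrt N → |θ - r| ≤ 1 / ((Nat.sqrt N + 1 : ℝ) * r.den) →
      ‖∑ w ∈ Ω, ee (θ * (cmat ([2] ++ w ++ [2]) 0 0 : ℝ))‖
        ≤ C * Ω.card * ((r.den : ℝ) * (1 + N * |θ - r|)) ^ (-(1 / 100) : ℝ) := by
  obtain ⟨C, N₀, hC, hN₀, hens⟩ := ensemble
  -- threshold
  have ht1 : Filter.Tendsto (fun N : ℕ => (N : ℝ) ^ (3 / 125 : ℝ)) Filter.atTop Filter.atTop :=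
    (tendsto_rpow_atTop (by norm_num)).comp tendsto_natCast_atTop_atTop
  obtain ⟨N₁, hN₁⟩ := Filter.eventually_atTop.mp (ht1.eventually_gt_atTop (1024 * C ^ 2))
  obtain ⟨c1, hc1⟩ : ∃ c1 : ℝ, c1 = (1 / (600 * C ^ 3)) * (1 / (10 * C ^ 2)) / (256 * C ^ 3) :=
    ⟨_, rfl⟩
  have hC0 : 0 < C := by linarith
  have hc1pos : 0 < c1 := by rw [hc1]; positivity
  obtain ⟨A, hA⟩ : ∃ A : ℝ, A = 4008 ^ 2 * (6 * C) ^ (501 / 250 : ℝ)
    * (32 * C) ^ (477 / 500 : ℝ) / c1 ^ (26 / 25 : ℝ) := ⟨_, rfl⟩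
  have hApos : 0 < A := by rw [hA]; positivity
  refine ⟨Real.sqrt A, max N₀ (max N₁ ⌈(8 * C) ^ 2⌉₊), Real.sqrt_pos.mpr hApos,
    hN₀.trans (le_max_left _ _), fun N hN => ?_⟩
  have hNa : N₀ ≤ N := (le_max_left _ _).trans hN
  have hNb : N₁ ≤ N := (le_max_left _ _).trans ((le_max_right _ _).trans hN)
  have hNc : ⌈(8 * C) ^ 2⌉₊ ≤ N := (le_max_right _ _).trans ((le_max_right _ _).trans hN)
  have hN1 : 1 ≤ N := hN₀.trans hNa
  have hNr1 : (1 : ℝ) ≤ N := by exact_mod_cast hN1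
  have hNr0 : (0 : ℝ) < N := by linarith
  have hbigN := hN₁ N hNb
  have h8C : (8 * C) ^ 2 ≤ (N : ℝ) := (Nat.le_ceil _).trans (by exact_mod_cast hNc)
  have hsq : 8 * C ≤ Real.sqrt N := Real.le_sqrt_of_sq_le h8C
  have hsqpos : 0 < Real.sqrt N := by linarith
  have hsqsq : Real.sqrt N * Real.sqrt N = N := Real.mul_self_sqrt hNr0.le
  obtain ⟨L, hL, hE, hmax, hmin, hG⟩ := hens N hNa
  refine ⟨prodF L, ⟨_, rep_mem L hL⟩, fun w hw => ⟨(mem_prodF L hL w hw).1, hmax w hw⟩, ?_⟩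
  intro θ r hden hβ
  obtain ⟨q, hq⟩ : ∃ q : ℝ, q = (r.den : ℝ) := ⟨_, rfl⟩
  obtain ⟨P, hP⟩ : ∃ P : ℝ, P = 1 + N * |θ - r| := ⟨_, rfl⟩
  obtain ⟨H, hH⟩ : ∃ H : ℝ, H = q * P := ⟨_, rfl⟩
  have hq1 : 1 ≤ q := by rw [hq]; exact_mod_cast r.den_pos
  have hP1 : 1 ≤ P := by rw [hP]; have := abs_nonneg (θ - r); nlinarith
  have hH1 : 1 ≤ H := by rw [hH]; nlinarith
  have hqH : q ≤ H := by rw [hH]; nlinarith
  have hPH : P ≤ H := by rw [hH]; nlinarith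
  have hH0 : 0 < H := by linarith
  have hq0 : 0 < q := by linarith
  have hP0 : 0 < P := by linarith
  -- H ≤ 2 sqrt N
  have hqs : q ≤ Real.sqrt N := by
    rw [hq]
    have h1 : ((r.den : ℕ) : ℝ) ≤ (Nat.sqrt N : ℝ) := by exact_mod_cast hden
    exact h1.trans Real.nat_sqrt_le_real_sqrt
  have hH2 : H ≤ 2 * Real.sqrt N := by
    have h1 : q * (N * |θ - r|) ≤ Real.sqrt N := by
      have h2 : Real.sqrt N ≤ (Nat.sqrt N + 1 : ℝ) := Real.real_sqrt_le_nat_sqrt_succ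
      have h3 : |θ - r| * ((Nat.sqrt N + 1 : ℝ) * q) ≤ 1 := by
        rw [hq]
        rwa [le_div_iff₀ (by positivity)] at hβ
      have h4 : |θ - r| * (Real.sqrt N * q) ≤ 1 := by
        refine le_trans ?_ h3
        apply mul_le_mul_of_nonneg_left _ (abs_nonneg _)
        exact mul_le_mul_of_nonneg_right h2 hq0.le
      calc q * (N * |θ - r|) = Real.sqrt N * (|θ - r| * (Real.sqrt N * q)) := by
            nth_rewrite 1 [← hsqsq]; ring
        _ ≤ Real.sqrt N * 1 := mul_le_mul_of_nonneg_left h4 hsqpos.le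
        _ = Real.sqrt N := mul_one _
    rw [hH, hP]; linarith
  -- the suffix
  have hKL : 4 * H ≤ (cmat (rep L) 0 0 : ℝ) := by
    refine le_trans ?_ hmin
    rw [le_div_iff₀ hC0]
    calc 4 * H * C ≤ 4 * (2 * Real.sqrt N) * C := by
          apply mul_le_mul_of_nonneg_right _ hC0.le; linarith
      _ = (8 * C) * Real.sqrt N := by ring
      _ ≤ Real.sqrt N * Real.sqrt N := mul_le_mul_of_nonneg_right hsq hsqpos.le
      _ = N := hsqsq
  obtain ⟨La, Lb, hab, hb1, hb2⟩ := cut_suffix hC hL hG (4 * H) (by linarith) hKL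
  obtain ⟨U0, hU0⟩ : ∃ U0 : ℝ, U0 = (cmat (rep Lb) 0 0 : ℝ) := ⟨_, rfl⟩
  rw [← hU0] at hb1 hb2
  have hU01 : 1 ≤ U0 := by linarith
  have hU0H : U0 ≤ 32 * C * H ^ (501 / 500 : ℝ) := by
    refine hb2.trans ?_
    rw [Real.mul_rpow (by norm_num) hH0.le]
    have h4 : (4 : ℝ) ^ (501 / 500 : ℝ) ≤ 16 := by
      calc (4 : ℝ) ^ (501 / 500 : ℝ) ≤ (4 : ℝ) ^ (2 : ℝ) :=
            Real.rpow_le_rpow_of_exponent_le (by norm_num) (by norm_num)
        _ = 16 := by norm_num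
    have h5 : 0 < H ^ (501 / 500 : ℝ) := Real.rpow_pos_of_pos hH0 _
    calc 2 * C * ((4 : ℝ) ^ (501 / 500 : ℝ) * H ^ (501 / 500 : ℝ))
        ≤ 2 * C * (16 * H ^ (501 / 500 : ℝ)) := by
          apply mul_le_mul_of_nonneg_left _ (by linarith)
          exact mul_le_mul_of_nonneg_right h4 h5.le
      _ = _ := by ring
  obtain ⟨V, hV⟩ : ∃ V : ℝ, V = N / U0 := ⟨_, rfl⟩
  have hV0 : 0 < V := by rw [hV]; positivity
  obtain ⟨G, hGd⟩ : ∃ G : ℝ, G = H ^ (19 / 20 : ℝ) := ⟨_, rfl⟩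
  have hG1 : 1 ≤ G := by rw [hGd]; exact Real.one_le_rpow hH1 (by norm_num)
  have hE' : 8 * C * G < V := by
    rw [hV, lt_div_iff₀ (by linarith)]
    have h1 : G * U0 ≤ 32 * C * H ^ (244 / 125 : ℝ) := by
      calc G * U0 ≤ G * (32 * C * H ^ (501 / 500 : ℝ)) :=
            mul_le_mul_of_nonneg_left hU0H (by linarith)
        _ = 32 * C * (H ^ (19 / 20 : ℝ) * H ^ (501 / 500 : ℝ)) := by rw [hGd]; ring
        _ = 32 * C * H ^ (244 / 125 : ℝ) := by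
            rw [← Real.rpow_add hH0]; norm_num
    have h2 : H ^ (244 / 125 : ℝ) ≤ 4 * (N : ℝ) ^ (122 / 125 : ℝ) := by
      calc H ^ (244 / 125 : ℝ) ≤ (2 * Real.sqrt N) ^ (244 / 125 : ℝ) :=
            Real.rpow_le_rpow hH0.le hH2 (by norm_num)
        _ = 2 ^ (244 / 125 : ℝ) * (N : ℝ) ^ (122 / 125 : ℝ) := by
            rw [Real.mul_rpow (by norm_num) hsqpos.le, Real.sqrt_eq_rpow,
              ← Real.rpow_mul hNr0.le]
            norm_num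
        _ ≤ 4 * (N : ℝ) ^ (122 / 125 : ℝ) := by
            apply mul_le_mul_of_nonneg_right _ (by positivity)
            calc (2 : ℝ) ^ (244 / 125 : ℝ) ≤ (2 : ℝ) ^ (2 : ℝ) :=
                  Real.rpow_le_rpow_of_exponent_le (by norm_num) (by norm_num)
              _ = 4 := by norm_num
    have h3 : (N : ℝ) = (N : ℝ) ^ (3 / 125 : ℝ) * (N : ℝ) ^ (122 / 125 : ℝ) := by
      rw [← Real.rpow_add hNr0]; norm_num
    have h4 : 0 < (N : ℝ) ^ (122 / 125 : ℝ) := Real.rpow_pos_of_pos hNr0 _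
    calc 8 * C * G * U0 = 8 * C * (G * U0) := by ring
      _ ≤ 8 * C * (32 * C * (4 * (N : ℝ) ^ (122 / 125 : ℝ))) := by
          apply mul_le_mul_of_nonneg_left _ (by linarith)
          exact h1.trans (mul_le_mul_of_nonneg_left h2 (by linarith))
      _ = 1024 * C ^ 2 * (N : ℝ) ^ (122 / 125 : ℝ) := by ring
      _ < (N : ℝ) ^ (3 / 125 : ℝ) * (N : ℝ) ^ (122 / 125 : ℝ) :=
          mul_lt_mul_of_pos_right hbigN h4
      _ = N := h3.symm
  have oka : ∀ s ∈ La, s.Ok := fun s hs => hL s (by rw [hab]; exact List.mem_append_left _ hs)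
  have okb : ∀ s ∈ Lb, s.Ok := fun s hs => hL s (by rw [hab]; exact List.mem_append_right _ hs)
  have hKa : V / (2 * C) ≤ (cmat (rep La) 0 0 : ℝ) := by
    have h1 := (K_bdR (rep La) (rep Lb) (rep_word La oka) (rep_word Lb okb)).2
    rw [← rep_append, ← hab, ← hU0] at h1
    have h2 := hmin.trans h1
    rw [div_le_iff₀ hC0] at h2
    rw [hV, div_div, div_le_iff₀ (by positivity)]
    calc (N : ℝ) ≤ 2 * cmat (rep La) 0 0 * U0 * C := h2
      _ = _ := by ring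
  -- the targets
  obtain ⟨Q, hQ⟩ : ∃ Q : ℝ, Q = (q ^ 2 * P) ^ (19 / 40 : ℝ) := ⟨_, rfl⟩
  obtain ⟨D, hD⟩ : ∃ D : ℝ, D = P ^ (19 / 40 : ℝ) := ⟨_, rfl⟩
  have hqP1 : 1 ≤ q ^ 2 * P := by nlinarith
  have hQ1 : 1 ≤ Q := by rw [hQ]; exact Real.one_le_rpow hqP1 (by norm_num)
  have hD1 : 1 ≤ D := by rw [hD]; exact Real.one_le_rpow hP1 (by norm_num)
  have hQD : Q * D = G := by
    rw [hQ, hD, hGd, ← Real.mul_rpow (by positivity) hP0.le]
    have : q ^ 2 * P * P = H ^ (2 : ℝ) := by rw [hH, Real.rpow_two]; ring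
    rw [this, ← Real.rpow_mul hH0.le]
    norm_num
  have hQG : Q ≤ G := by rw [← hQD]; nlinarith
  have hDG : D ≤ G := by rw [← hQD]; nlinarith
  have hDsq : D ^ 2 ≤ P := by
    rw [hD, ← Real.rpow_natCast, ← Real.rpow_mul hP0.le]
    calc P ^ ((19 / 40 : ℝ) * ((2 : ℕ) : ℝ)) ≤ P ^ (1 : ℝ) :=
          Real.rpow_le_rpow_of_exponent_le hP1 (by norm_num)
      _ = P := Real.rpow_one _
  have hQsq : Q ^ 2 ≤ q ^ 2 * P := by
    rw [hQ, ← Real.rpow_natCast, ← Real.rpow_mul (by positivity)]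
    calc (q ^ 2 * P) ^ ((19 / 40 : ℝ) * ((2 : ℕ) : ℝ)) ≤ (q ^ 2 * P) ^ (1 : ℝ) :=
          Real.rpow_le_rpow_of_exponent_le hqP1 (by norm_num)
      _ = q ^ 2 * P := Real.rpow_one _
  have hQsq2 : Q ^ 2 ≤ q * G := by
    have e1 : Q ^ 2 = (q ^ 2 * P) ^ (19 / 20 : ℝ) := by
      rw [hQ, ← Real.rpow_natCast, ← Real.rpow_mul (by positivity)]; norm_num
    have e2 : (q ^ 2 * P) ^ (19 / 20 : ℝ) = q ^ (19 / 20 : ℝ) * G := by
      rw [hGd, ← Real.mul_rpow hq0.le hH0.le, hH]; ring_nf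
    rw [e1, e2]
    apply mul_le_mul_of_nonneg_right _ (by linarith)
    calc q ^ (19 / 20 : ℝ) ≤ q ^ (1 : ℝ) := Real.rpow_le_rpow_of_exponent_le hq1 (by norm_num)
      _ = q := Real.rpow_one _
  have hQH : Q ≤ q * P := by
    have : Q ^ 2 ≤ (q * P) ^ 2 := hQsq.trans (by nlinarith)
    exact (pow_le_pow_iff_left₀ (by linarith) (by positivity) (by norm_num)).mp this
  obtain ⟨τt, hτt⟩ : ∃ τt : ℝ, τt = 1 / (600 * C ^ 3) * Q := ⟨_, rfl⟩
  obtain ⟨τs, hτs⟩ : ∃ τs : ℝ, τs = 1 / (10 * C ^ 2) * D := ⟨_, rfl⟩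
  have hC2 : 1 ≤ C ^ 2 := one_le_pow₀ hC
  have hC3 : 1 ≤ C ^ 3 := one_le_pow₀ hC
  have hτtQ : τt ≤ Q := by
    rw [hτt]
    have : 1 / (600 * C ^ 3) ≤ 1 := by rw [div_le_one (by positivity)]; linarith
    nlinarith
  have hτsD : τs ≤ D := by
    rw [hτs]
    have : 1 / (10 * C ^ 2) ≤ 1 := by rw [div_le_one (by positivity)]; linarith
    nlinarith
  have hVC : G < V / (8 * C) := by rw [lt_div_iff₀ (by positivity)]; linarith
  have hVC2 : V / (8 * C) ≤ V / (2 * C) := by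
    apply div_le_div_of_nonneg_left hV0.le (by positivity) (by linarith)
  obtain ⟨Lt, Lr, hLa, ht1, ht2⟩ := cut_prefix hC hL hG La Lb hab τt (by linarith)
  have okt : ∀ s ∈ Lt, s.Ok := fun s hs => oka s (by rw [hLa]; exact List.mem_append_left _ hs)
  have okr : ∀ s ∈ Lr, s.Ok := fun s hs => oka s (by rw [hLa]; exact List.mem_append_right _ hs)
  obtain ⟨Kt, hKt⟩ : ∃ Kt : ℝ, Kt = (cmat (rep Lt) 0 0 : ℝ) := ⟨_, rfl⟩
  have hKt1 : 1 ≤ Kt := by rw [hKt]; exact K_pos _ (rep_word Lt okt)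
  have hKtQ : Kt ≤ Q := by
    rcases ht1 with h | h
    · rw [hKt, h]; simp only [rep]; rw [K_nil]; exact hQ1
    · rw [hKt]; linarith
  have hKr : max 1 τs < (cmat (rep Lr) 0 0 : ℝ) := by
    have h1 := (K_bdR (rep Lt) (rep Lr) (rep_word Lt okt) (rep_word Lr okr)).2
    rw [← rep_append, ← hLa, ← hKt] at h1
    have h2 : V / (2 * C) ≤ 2 * Q * cmat (rep Lr) 0 0 := by
      refine hKa.trans (h1.trans ?_)
      apply mul_le_mul_of_nonneg_right _ (by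
        have := K_pos _ (rep_word Lr okr); linarith)
      linarith
    have h3 : max 1 τs ≤ D := max_le hD1 hτsD
    have h4 : 4 * G < 2 * Q * cmat (rep Lr) 0 0 := by
      refine lt_of_lt_of_le ?_ h2
      rw [lt_div_iff₀ (by positivity)]; linarith
    rw [← hQD] at h4
    have h5 : Q * (2 * D) < Q * cmat (rep Lr) 0 0 := by linarith
    have h6 := lt_of_mul_lt_mul_left h5 (by linarith)
    linarith
  have hdec2 : L = Lt ++ (Lr ++ Lb) := by rw [hab, hLa, List.append_assoc]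
  obtain ⟨Ld, Ls, hLr, hd, hs1, hs2⟩ := cut_mid hC hL hG Lt Lr Lb hdec2 τs hKr
  have oks : ∀ s ∈ Ls, s.Ok := fun s hs => okr s (by rw [hLr]; exact List.mem_append_right _ hs)
  obtain ⟨Ks, hKs⟩ : ∃ Ks : ℝ, Ks = (cmat (rep Ls) 0 0 : ℝ) := ⟨_, rfl⟩
  have hKs1 : 1 ≤ Ks := by rw [hKs]; exact K_pos _ (rep_word Ls oks)
  have hKsD : Ks ≤ D := by
    rcases hs1 with h | h
    · rw [hKs, h]; simp only [rep]; rw [K_nil]; exact hD1
    · rw [hKs]; linarith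
  have hdec : L = Lt ++ (Ld ++ (Ls ++ Lb)) := by rw [hdec2, hLr, List.append_assoc]
  -- the conditions
  have hcondS : Ls = [] ∨ 24 * (2 * V / P) * (C * cmat (rep Ls) 0 0) ^ 2 < V / (2 * C ^ 2) := by
    rcases hs1 with h | h
    · left; exact h
    · right
      rw [← hKs] at h ⊢
      rw [hτs] at h
      exact condS C P Ks D V hC hP1 hV0 (by linarith) hDsq h
  obtain ⟨T, hT⟩ : ∃ T : ℝ, T = 4 * C * (cmat (rep Lt) 0 0 : ℝ) := ⟨_, rfl⟩
  have hTpos : 0 < T := by rw [hT, ← hKt]; positivity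
  have hcondT : Lt = [] ∨ 18 * max 1 ((2 * V / P) / r.den) * max 1 (T / r.den)
      < V / (4 * C ^ 2 * T) := by
    rcases ht1 with h | h
    · left; exact h
    · right
      rw [← hq]
      rw [← hKt] at h
      have hTQ : T ≤ Q / (150 * C ^ 2) := by
        rw [hT, ← hKt]
        calc 4 * C * Kt ≤ 4 * C * (1 / (600 * C ^ 3) * Q) := by
              apply mul_le_mul_of_nonneg_left _ (by positivity); rw [← hτt]; exact h
          _ = Q / (150 * C ^ 2) := by field_simp; ring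
      have hTQ' : 150 * C ^ 2 * T ≤ Q := by
        rw [le_div_iff₀ (by positivity)] at hTQ; linarith
      have hV8 : G < V := by
        have : G ≤ 8 * C * G := le_mul_of_one_le_left (by linarith) (by linarith)
        linarith
      exact condT C q P Q T V G hC hq1 hP1 hTpos hTQ' hQH hQsq hQsq2 hQG hV8 hV0
  have hmain := split_bound C hC N hN1 L Lt Ld Ls Lb hL hE hmax hmin hdec hd θ r U0 V P
    (2 * V / P) T hU0 hV hP rfl hT (by rw [← hq, ← hH]; linarith) hcondS hcondT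
  -- cardinalities
  have hx4 := card_prodF Lb okb
  rw [← hU0] at hx4
  have hKsH : Ks ≤ H := by
    have : G ≤ H := by
      rw [hGd]
      calc H ^ (19 / 20 : ℝ) ≤ H ^ (1 : ℝ) :=
            Real.rpow_le_rpow_of_exponent_le hH1 (by norm_num)
        _ = H := Real.rpow_one _
    linarith
  have hx1 := card_prodF Lt okt
  have hx3 := card_prodF Ls oks
  rw [← hKt] at hx1 ht2
  rw [← hKs] at hx3
  rw [← hKs, ← hU0] at hs2
  have hx13 := card_ineq C H U0 Kt Ks τt τs _ _ Q D G c1 hC hH1 hU01 hU0H hKt1 hKs1 hKsH hQ1 hD1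
    hτt hτs hQD hGd hc1 ht2 hs2 hx1 hx3
  obtain ⟨W, hW⟩ : ∃ W : ℝ, W = (8 * (6 * C * U0) * (1 + Real.log (6 * C * U0))) ^ 2 := ⟨_, rfl⟩
  have hWb : W ≤ 4008 ^ 2 * (6 * C * U0) ^ (501 / 250 : ℝ) := by
    rw [hW]
    apply logW
    have : 1 ≤ C * U0 := one_le_mul_of_one_le_of_one_le hC hU01
    linarith
  have hfin := final_ineq C H U0 (((prodF Lt).card : ℝ) * ((prodF Ls).card : ℝ))
    ((prodF Lb).card : ℝ) c1 W hC hH1 hU01 hc1pos hU0H hx4 hx13 hWb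
  rw [← hW] at hmain
  rw [← hA] at hfin
  have hsq1 : ‖∑ w ∈ prodF L, ee (θ * (cmat ([2] ++ w ++ [2]) 0 0 : ℝ))‖ ^ 2
      ≤ (Real.sqrt A * (prodF L).card * H ^ (-(1 / 100) : ℝ)) ^ 2 := by
    calc _ ≤ ((prodF L).card : ℝ) ^ 2 * (W / (((prodF Lt).card : ℝ) * ((prodF Ls).card : ℝ)
            * ((prodF Lb).card : ℝ))) := hmain
      _ ≤ ((prodF L).card : ℝ) ^ 2 * (A * H ^ (-(1 / 50) : ℝ)) :=
          mul_le_mul_of_nonneg_left hfin (by positivity)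
      _ = (Real.sqrt A * (prodF L).card * H ^ (-(1 / 100) : ℝ)) ^ 2 := by
          have e1 : (H ^ (-(1 / 100) : ℝ)) ^ 2 = H ^ (-(1 / 50) : ℝ) := by
            rw [← Real.rpow_natCast, ← Real.rpow_mul hH0.le]; norm_num
          rw [mul_pow, mul_pow, Real.sq_sqrt hApos.le, e1]; ring
  have hfin2 := (pow_le_pow_iff_left₀ (norm_nonneg _) (by positivity) (by norm_num)).mp hsq1
  rw [← hq, ← hP, ← hH]
  exact hfin2

end Pool.Agent.H51.ZB
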