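import Mathlib

set_option autoImplicit false

/-!
Schnirelmann: a set with 0, 1 and positive Schnirelmann density is a basis.

Proof. For sets A, B with 0 ∈ A, 1 ∈ A, 0 ∈ B and |B ∩ [1,n]| ≥ β n for all n (0 ≤ β ≤ 1), the sumset C = A + B
satisfies |C ∩ [1,n]| ≥ |A ∩ [1,n]| + β (n - |A ∩ [1,n]|) for all n ≥ 0: strong induction on n; for n ≥ 1
let a be the largest element of A ∩ [1,n] (it exists since 1 ∈ A). Then C ∩ [1,n] contains
the disjoint sets C ∩ [1,a-1], {a} and a + (B ∩ [1,n-a]), and |A ∩ [1,n]| = |A ∩ [1,a-1]| + 1, so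
|C ∩ [1,n]| ≥ |A ∩ [1,a-1]| + β (a-1-|A ∩ [1,a-1]|) + 1 + β (n-a) = |A ∩ [1,n]| + β (n - |A ∩ [1,n]|).
Hence if |A ∩ [1,n]| ≥ α n for all n, then |C ∩ [1,n]| ≥ (1 - (1-α)(1-β)) n. So the j-fold sumset of Z
has density ≥ 1 - (1-α)^j; take j with (1-α)^j < 1/2, D = jZ, so |D ∩ [1,n]| > n/2 for n ≥ 1 and 0 ∈ D.
Then D + D is everything: for n the sets D ∩ [0,n] and n - D ∩ [0,n] are subsets of [0,n] with
more than (n+1)/2 elements each, so they meet. Take m = 2 j.
(Note α ≤ 1 follows from the hypothesis with n = 1.)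
-/

namespace Pool.Agent.H51.ZB

open Finset

open Classical in
/-- number of elements of `A` in `[1, n]` -/
noncomputable def cnt (A : Set ℕ) (n : ℕ) : ℕ := ((Finset.Icc 1 n).filter (· ∈ A)).card

theorem cnt_eq (A : Set ℕ) (n : ℕ) : (A ∩ Set.Icc 1 n).ncard = cnt A n := by
  classical
  rw [cnt, ← Set.ncard_coe_finset]
  congr 1
  ext x
  simp only [Set.mem_inter_iff, Set.mem_Icc, Finset.coe_filter, Finset.mem_Icc, Set.mem_ofPred_eq]
  tauto

theorem cnt_sum (A B C : Set ℕ) (h0 : 0 ∈ A) (h1 : 1 ∈ A) (b0 : 0 ∈ B)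
    (hC : ∀ a ∈ A, ∀ b ∈ B, a + b ∈ C) (β : ℝ) (hB : ∀ n : ℕ, β * n ≤ (cnt B n : ℝ)) (n : ℕ) :
    (cnt A n : ℝ) + β * (n - cnt A n) ≤ (cnt C n : ℝ) := by
  classical
  induction n using Nat.strong_induction_on with
  | _ n ih =>
    rcases Nat.eq_zero_or_pos n with rfl | hn
    · simp [cnt]
    · have hne : ((Finset.Icc 1 n).filter (· ∈ A)).Nonempty :=
        ⟨1, by rw [Finset.mem_filter, Finset.mem_Icc]; exact ⟨⟨le_rfl, hn⟩, h1⟩⟩
      obtain ⟨a, ha, hmax⟩ := Finset.exists_max_image _ id hne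
      rw [Finset.mem_filter, Finset.mem_Icc] at ha
      obtain ⟨⟨ha1, han⟩, haA⟩ := ha
      obtain ⟨k, rfl⟩ : ∃ k, a = k + 1 := ⟨a - 1, by omega⟩
      have hA : cnt A n = cnt A k + 1 := by
        have e : (Finset.Icc 1 n).filter (· ∈ A) =
            insert (k + 1) ((Finset.Icc 1 k).filter (· ∈ A)) := by
          ext x
          rw [Finset.mem_insert, Finset.mem_filter, Finset.mem_filter, Finset.mem_Icc,
            Finset.mem_Icc]
          constructor
          · rintro ⟨⟨hx1, hxn⟩, hxA⟩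
            have hle : x ≤ k + 1 := hmax x (by
              rw [Finset.mem_filter, Finset.mem_Icc]; exact ⟨⟨hx1, hxn⟩, hxA⟩)
            rcases Nat.lt_or_ge k x with hlt | hge
            · left; omega
            · right; exact ⟨⟨hx1, hge⟩, hxA⟩
          · rintro (rfl | ⟨⟨hx1, hxk⟩, hxA⟩)
            · exact ⟨⟨ha1, han⟩, haA⟩
            · exact ⟨⟨hx1, by omega⟩, hxA⟩
        rw [cnt, e, Finset.card_insert_of_notMem, cnt]
        intro hmem
        rw [Finset.mem_filter, Finset.mem_Icc] at hmem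
        omega
      have hCn : cnt C k + 1 + cnt B (n - (k + 1)) ≤ cnt C n := by
        have d1 : Disjoint ((Finset.Icc 1 k).filter (· ∈ C)) {k + 1} := by
          rw [Finset.disjoint_singleton_right, Finset.mem_filter, Finset.mem_Icc]
          omega
        have d2 : Disjoint (((Finset.Icc 1 k).filter (· ∈ C)) ∪ {k + 1})
            (((Finset.Icc 1 (n - (k + 1))).filter (· ∈ B)).image (fun b => (k + 1) + b)) := by
          rw [Finset.disjoint_left]
          intro x hx hx'
          rw [Finset.mem_union, Finset.mem_filter, Finset.mem_Icc, Finset.mem_singleton] at hx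
          rw [Finset.mem_image] at hx'
          obtain ⟨b, hb, rfl⟩ := hx'
          rw [Finset.mem_filter, Finset.mem_Icc] at hb
          omega
        have hsub : (((Finset.Icc 1 k).filter (· ∈ C)) ∪ {k + 1}) ∪
            (((Finset.Icc 1 (n - (k + 1))).filter (· ∈ B)).image (fun b => (k + 1) + b)) ⊆
            (Finset.Icc 1 n).filter (· ∈ C) := by
          intro x hx
          rw [Finset.mem_union, Finset.mem_union, Finset.mem_filter, Finset.mem_Icc,
            Finset.mem_singleton, Finset.mem_image] at hx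
          rw [Finset.mem_filter, Finset.mem_Icc]
          rcases hx with (⟨⟨hx1, hxk⟩, hxC⟩ | rfl) | ⟨b, hb, rfl⟩
          · exact ⟨⟨hx1, by omega⟩, hxC⟩
          · exact ⟨⟨ha1, han⟩, by simpa using hC _ haA 0 b0⟩
          · rw [Finset.mem_filter, Finset.mem_Icc] at hb
            exact ⟨⟨by omega, by omega⟩, hC _ haA b hb.2⟩
        have hcard := Finset.card_le_card hsub
        rw [Finset.card_union_of_disjoint d2, Finset.card_union_of_disjoint d1,
          Finset.card_singleton, Finset.card_image_of_injective _ (add_right_injective (k + 1))]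
          at hcard
        exact hcard
      have ihk := ih k (by omega)
      have hBk := hB (n - (k + 1))
      have hcast : ((n - (k + 1) : ℕ) : ℝ) = (n : ℝ) - (k + 1) := by
        rw [Nat.cast_sub han]; push_cast; ring
      rw [hcast] at hBk
      have hCn' : (cnt C k : ℝ) + 1 + cnt B (n - (k + 1)) ≤ cnt C n := by exact_mod_cast hCn
      rw [hA]
      push_cast
      nlinarith

/-- sums of `j` elements of `Z` -/
def Sm (Z : Set ℕ) (j : ℕ) : Set ℕ := {n | ∃ f : Fin j → ℕ, (∀ i, f i ∈ Z) ∧ ∑ i, f i = n}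

theorem sm_zero {Z : Set ℕ} (h0 : 0 ∈ Z) (j : ℕ) : 0 ∈ Sm Z j := ⟨fun _ => 0, fun _ => h0, by simp⟩

theorem sm_succ {Z : Set ℕ} {j : ℕ} : ∀ a ∈ Z, ∀ b ∈ Sm Z j, a + b ∈ Sm Z (j + 1) := by
  rintro a ha b ⟨f, hf, rfl⟩
  refine ⟨Fin.cons a f, fun i => ?_, by rw [Fin.sum_cons]⟩
  refine Fin.cases ?_ (fun i => ?_) i
  · rw [Fin.cons_zero]; exact ha
  · rw [Fin.cons_succ]; exact hf i

theorem sm_add {Z : Set ℕ} {j k : ℕ} {a b : ℕ} (ha : a ∈ Sm Z j) (hb : b ∈ Sm Z k) :
    a + b ∈ Sm Z (j + k) := by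
  obtain ⟨f, hf, rfl⟩ := ha
  obtain ⟨g, hg, rfl⟩ := hb
  refine ⟨Fin.append f g, fun i => ?_, ?_⟩
  · refine Fin.addCases (fun i => ?_) (fun i => ?_) i
    · rw [Fin.append_left]; exact hf i
    · rw [Fin.append_right]; exact hg i
  · rw [Fin.sum_univ_add]
    simp [Fin.append_left, Fin.append_right]

theorem schnirelmann (Z : Set ℕ) (h0 : 0 ∈ Z) (h1 : 1 ∈ Z) (α : ℝ) (hα : 0 < α)
    (hd : ∀ n : ℕ, 1 ≤ n → α * n ≤ ((Z ∩ Set.Icc 1 n).ncard : ℝ)) :
    ∃ m : ℕ, ∀ n : ℕ, ∃ f : Fin m → ℕ, (∀ i, f i ∈ Z) ∧ ∑ i, f i = n := by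
  classical
  have hd' : ∀ n : ℕ, α * n ≤ (cnt Z n : ℝ) := by
    intro n
    rcases Nat.eq_zero_or_pos n with rfl | hn
    · simp [cnt]
    · rw [← cnt_eq]; exact hd n hn
  have hα1 : α ≤ 1 := by
    have h2 := hd' 1
    have h3 : cnt Z 1 ≤ 1 := by
      rw [cnt]
      refine (Finset.card_filter_le _ _).trans ?_
      simp
    have h4 : (cnt Z 1 : ℝ) ≤ 1 := by exact_mod_cast h3
    push_cast at h2
    linarith
  have key : ∀ j n : ℕ, (1 - (1 - α) ^ j) * n ≤ (cnt (Sm Z j) n : ℝ) := by
    intro j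
    induction j with
    | zero =>
      intro n
      simp
    | succ j ih =>
      intro n
      have hpow0 : 0 ≤ (1 - α) ^ j := pow_nonneg (by linarith) j
      have h2 := cnt_sum Z (Sm Z j) (Sm Z (j + 1)) h0 h1 (sm_zero h0 j) sm_succ
        (1 - (1 - α) ^ j) ih n
      have h3 := hd' n
      refine le_trans ?_ h2
      have h4 : (1 - α) ^ j * (α * n) ≤ (1 - α) ^ j * cnt Z n := mul_le_mul_of_nonneg_left h3 hpow0
      rw [pow_succ]
      nlinarith
  obtain ⟨j, hj⟩ : ∃ j : ℕ, (1 - α) ^ j < 1 / 2 :=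
    exists_pow_lt_of_lt_one (by norm_num) (by linarith)
  refine ⟨j + j, fun n => ?_⟩
  change n ∈ Sm Z (j + j)
  rcases Nat.eq_zero_or_pos n with rfl | hn
  · exact sm_zero h0 _
  · have hc : n < 2 * cnt (Sm Z j) n := by
      have h2 := key j n
      have hn' : (0 : ℝ) < n := by exact_mod_cast hn
      have h3 : (1 / 2 : ℝ) * n < (1 - (1 - α) ^ j) * n := by
        apply mul_lt_mul_of_pos_right _ hn'
        linarith
      have h4 : (n : ℝ) < 2 * cnt (Sm Z j) n := by linarith
      exact_mod_cast h4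
    set S := (Finset.range (n + 1)).filter (· ∈ Sm Z j) with hS
    have hScard : cnt (Sm Z j) n < S.card := by
      rw [cnt]
      apply Finset.card_lt_card
      rw [Finset.ssubset_iff_of_subset]
      · refine ⟨0, ?_, ?_⟩
        · rw [hS, Finset.mem_filter]
          exact ⟨Finset.mem_range.2 (by omega), sm_zero h0 j⟩
        · rw [Finset.mem_filter, Finset.mem_Icc]
          omega
      · intro x hx
        rw [Finset.mem_filter, Finset.mem_Icc] at hx
        rw [hS, Finset.mem_filter]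
        exact ⟨Finset.mem_range.2 (by omega), hx.2⟩
    have hTcard : (S.image (fun x => n - x)).card = S.card := by
      apply Finset.card_image_of_injOn
      intro x hx y hy hxy
      have hx' := Finset.mem_range.1 (Finset.mem_filter.1 hx).1
      have hy' := Finset.mem_range.1 (Finset.mem_filter.1 hy).1
      simp only at hxy
      omega
    have hmeet : ¬ Disjoint S (S.image (fun x => n - x)) := by
      intro hdis
      have h2 := Finset.card_union_of_disjoint hdis
      have h3 : (S ∪ S.image (fun x => n - x)) ⊆ Finset.range (n + 1) := by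
        intro x hx
        rcases Finset.mem_union.1 hx with hx | hx
        · exact (Finset.mem_filter.1 hx).1
        · obtain ⟨y, _, rfl⟩ := Finset.mem_image.1 hx
          exact Finset.mem_range.2 (by omega)
      have h4 := Finset.card_le_card h3
      rw [Finset.card_range, h2, hTcard] at h4
      omega
    rw [Finset.not_disjoint_iff] at hmeet
    obtain ⟨x, hx, hx'⟩ := hmeet
    obtain ⟨y, hy, hxy⟩ := Finset.mem_image.1 hx'
    have hyn := Finset.mem_range.1 (Finset.mem_filter.1 hy).1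
    have h5 := sm_add (Finset.mem_filter.1 hx).2 (Finset.mem_filter.1 hy).2
    have h6 : x + y = n := by
      have h7 : n - y = x := hxy
      omega
    rwa [h6] at h5

end Pool.Agent.H51.ZB
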