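import Mathlib
import Pool.Agent.H51.ZB.Pw
import Pool.Agent.H51.ZB.Cir
import Pool.Agent.H51.ZB.Sch

set_option autoImplicit false

namespace Pool.Agent.H51.ZB

open Matrix

/-- `n` is a sum of `k` natural numbers with the property `p`. -/
def IsSum (p : ℕ → Prop) (k n : ℕ) : Prop :=
  ∃ s : Multiset ℕ, s.card = k ∧ (∀ x ∈ s, p x) ∧ s.sum = n

theorem IsSum.add {p : ℕ → Prop} {k l m n : ℕ} (h1 : IsSum p k m) (h2 : IsSum p l n) :
    IsSum p (k + l) (m + n) := by
  obtain ⟨s, a1, a2, a3⟩ := h1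
  obtain ⟨t, b1, b2, b3⟩ := h2
  refine ⟨s + t, by simp [a1, b1], ?_, by simp [a3, b3]⟩
  intro x hx
  rcases Multiset.mem_add.mp hx with h | h
  · exact a2 x h
  · exact b2 x h

theorem IsSum.single {p : ℕ → Prop} {n : ℕ} (h : p n) : IsSum p 1 n :=
  ⟨{n}, by simp, by intro x hx; rw [Multiset.mem_singleton] at hx; rw [hx]; exact h, by simp⟩

theorem IsSum.sum_fin {p : ℕ → Prop} {k : ℕ} (m : ℕ) (f : Fin m → ℕ) (h : ∀ i, IsSum p k (f i)) :
    IsSum p (m * k) (∑ i, f i) := by
  induction m with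
  | zero => exact ⟨0, by simp, by simp, by simp⟩
  | succ m ih =>
    rw [Fin.sum_univ_succ]
    have h1 := (h 0).add (ih (fun i => f i.succ) (fun i => h i.succ))
    have e : (m + 1) * k = k + m * k := by ring
    rw [e]
    exact h1

/-- Values of continuants of words over {1,2} that begin and end with 2. -/
def Val (n : ℕ) : Prop := ∃ w : List ℤ, Word12 w ∧ w ≠ [] ∧ w.head? = some 2 ∧
  w.getLast? = some 2 ∧ cmat w 0 0 = (n : ℤ)

theorem val_of (w : List ℤ) (hw : Word12 w) :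
    Val (cmat ([2] ++ w ++ [2]) 0 0).toNat := by
  have h2 := word_append (word_append word2 hw) word2
  refine ⟨[2] ++ w ++ [2], h2, by simp, by simp, by rw [List.getLast?_append]; rfl, ?_⟩
  have := (growth _ h2).1
  rw [Int.toNat_of_nonneg (by omega)]

theorem val_two : Val 2 := ⟨[2], word2, by simp, by simp, by simp, by simp [cmat]⟩

theorem val_twelve : Val 12 :=
  ⟨[2, 2, 2], by intro a ha; right; simpa using ha, by simp, by simp, by simp, by
    simp [cmat]⟩

theorem val_thirteen : Val 13 :=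
  ⟨[2, 1, 1, 2], by intro a ha; simp at ha; omega, by simp, by simp, by simp, by
    simp [cmat]⟩

/-- Positive density of the set of sums of 400 values. -/
theorem density : ∃ C : ℝ, ∃ N₀ : ℕ, 0 < C ∧ 1 ≤ N₀ ∧ ∀ N : ℕ, N₀ ≤ N →
    (N : ℝ) / C ≤ (({n : ℕ | n ≤ 400 * N ∧ IsSum Val 400 n}).ncard : ℝ) := by
  classical
  obtain ⟨C, N₀, hC, hN₀, hpw⟩ := pointwise
  obtain ⟨C', hC', hcir⟩ := circle C (1 / 100) hC (by norm_num) 400 (by norm_num) (by norm_num)
  refine ⟨C', N₀, hC', hN₀, fun N hN => ?_⟩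
  have hN1 : 1 ≤ N := hN₀.trans hN
  obtain ⟨Ω, hΩ, hΩ2, hb⟩ := hpw N hN
  have hNr : (0 : ℝ) < N := by exact_mod_cast hN1
  set κ : List ℤ → ℕ := fun w => (cmat ([2] ++ w ++ [2]) 0 0).toNat with hκ
  have hκc : ∀ w ∈ Ω, ((κ w : ℕ) : ℝ) = (cmat ([2] ++ w ++ [2]) 0 0 : ℝ) := by
    intro w hw
    have h2 := word_append (word_append word2 (hΩ2 w hw).1) word2
    have h3 := (growth _ h2).1
    have : ((cmat ([2] ++ w ++ [2]) 0 0).toNat : ℤ) = cmat ([2] ++ w ++ [2]) 0 0 :=
      Int.toNat_of_nonneg (by omega)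
    rw [hκ]; exact_mod_cast this
  have hκN : ∀ w ∈ Ω, κ w ≤ N := by
    intro w hw
    have h1 := (hΩ2 w hw).2
    rw [← hκc w hw] at h1
    exact_mod_cast h1
  have hcount := hcir (List ℤ) Ω κ N hN1 hκN (by
    intro θ r h1 h2
    have h3 := hb θ r h1 h2
    have e : ∑ w ∈ Ω, ee (θ * κ w) = ∑ w ∈ Ω, ee (θ * (cmat ([2] ++ w ++ [2]) 0 0 : ℝ)) :=
      Finset.sum_congr rfl (fun w hw => by rw [hκc w hw])
    rw [e]
    exact h3)
  set F := Fintype.piFinset (fun _ : Fin 400 => Ω) with hF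
  have hFc : F.card = Ω.card ^ 400 := by
    rw [hF, Fintype.card_piFinset]; simp
  set g : (Fin 400 → List ℤ) → ℕ := fun f => ∑ i, κ (f i) with hg
  set Z : Set ℕ := {n : ℕ | n ≤ 400 * N ∧ IsSum Val 400 n} with hZ
  have hZfin : Z.Finite := (Set.finite_Iic (400 * N)).subset (fun n hn => hn.1)
  have hsub : ((F.image g : Finset ℕ) : Set ℕ) ⊆ Z := by
    intro n hn
    rw [Finset.mem_coe, Finset.mem_image] at hn
    obtain ⟨f, hf, rfl⟩ := hn
    rw [hF, Fintype.mem_piFinset] at hf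
    constructor
    · calc ∑ i, κ (f i) ≤ ∑ _i : Fin 400, N := Finset.sum_le_sum (fun i _ => hκN _ (hf i))
        _ = 400 * N := by simp
    · have h1 := IsSum.sum_fin (p := Val) (k := 1) 400 (fun i => κ (f i))
        (fun i => IsSum.single (val_of (f i) (hΩ2 _ (hf i)).1))
      simpa using h1
  have hle : (F.image g).card ≤ Z.ncard := by
    rw [← Set.ncard_coe_finset]
    exact Set.ncard_le_ncard hsub hZfin
  obtain ⟨R, hR⟩ : ∃ R : ℝ, R = C' * (Ω.card : ℝ) ^ 400 / N := ⟨_, rfl⟩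
  have hΩpos : (0 : ℝ) < (Ω.card : ℝ) := by exact_mod_cast Finset.card_pos.mpr hΩ
  have hR0 : 0 ≤ R := by
    rw [hR]
    have := pow_nonneg hΩpos.le 400
    positivity
  have hcard : F.card ≤ ⌊R⌋₊ * (F.image g).card := by
    apply Finset.card_le_mul_card_image
    intro n _
    apply Nat.le_floor
    rw [hR]
    exact hcount n
  have h1 : (F.card : ℝ) ≤ R * Z.ncard := by
    calc (F.card : ℝ) ≤ (⌊R⌋₊ : ℝ) * (F.image g).card := by exact_mod_cast hcard
      _ ≤ R * Z.ncard := by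
          apply mul_le_mul (Nat.floor_le hR0) (by exact_mod_cast hle) (Nat.cast_nonneg _) hR0
  rw [hFc, hR] at h1
  rw [Nat.cast_pow] at h1
  have hpw' : 0 < (Ω.card : ℝ) ^ 400 := pow_pos hΩpos _
  generalize (Ω.card : ℝ) ^ 400 = x at *
  rw [div_le_iff₀ hC']
  have h2 : x ≤ x * (C' * Z.ncard / N) := by
    calc x ≤ C' * x / N * Z.ncard := h1
      _ = _ := by ring
  have h3 : 1 ≤ C' * Z.ncard / N := by
    by_contra hcon
    push Not at hcon
    have := mul_lt_of_lt_one_right hpw' hcon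
    linarith
  rw [le_div_iff₀ hNr] at h3
  linarith

/-- The values form an asymptotic basis. -/
theorem basis : ∃ k₀ : ℕ, ∀ k : ℕ, k₀ ≤ k → ∃ n₀ : ℕ, ∀ n : ℕ, n₀ ≤ n → IsSum Val k n := by
  classical
  obtain ⟨C, N₀, hC, hN₀, hden⟩ := density
  set Y : Set ℕ := {y | IsSum Val 400 (y + 800)} with hY
  have h0Y : 0 ∈ Y := by
    have h1 := IsSum.sum_fin (p := Val) (k := 1) 400 (fun _ => 2)
      (fun _ => IsSum.single val_two)
    rw [hY, Set.mem_ofPred_eq]
    simpa using h1
  -- lower bound for the counting function of Y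
  obtain ⟨n₁, hn₁⟩ : ∃ n₁ : ℕ, 1 ≤ n₁ ∧ ∀ n : ℕ, n₁ ≤ n →
      (1 / (1600 * C)) * n ≤ ((Y ∩ Set.Icc 1 n).ncard : ℝ) := by
    refine ⟨max (400 * N₀ + 400) (⌈1600 * C * 801⌉₊), by omega, fun n hn => ?_⟩
    obtain ⟨N, hN⟩ : ∃ N : ℕ, N = n / 400 := ⟨_, rfl⟩
    have hN0 : N₀ ≤ N := by
      have : 400 * N₀ + 400 ≤ n := (le_max_left _ _).trans hn
      omega
    have h1 := hden N hN0
    have hNn : 400 * N ≤ n := by omega
    have hNn2 : n ≤ 800 * N := by
      have : 400 * N₀ + 400 ≤ n := (le_max_left _ _).trans hn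
      omega
    set Z : Set ℕ := {n : ℕ | n ≤ 400 * N ∧ IsSum Val 400 n} with hZ
    have hcov : Z ⊆ (fun y => y + 800) '' (Y ∩ Set.Icc 1 n) ∪ (Finset.range 801 : Set ℕ) := by
      intro z hz
      rcases le_or_gt z 800 with h | h
      · right
        simp only [Finset.coe_range, Set.mem_Iio]; omega
      · left
        refine ⟨z - 800, ⟨?_, ?_⟩, by simp only; omega⟩
        · rw [hY, Set.mem_ofPred_eq]
          have : z - 800 + 800 = z := by omega
          rw [this]; exact hz.2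
        · have := hz.1
          exact ⟨by omega, by omega⟩
    have hfin : (Y ∩ Set.Icc 1 n).Finite := (Set.finite_Icc 1 n).subset Set.inter_subset_right
    have h2 : Z.ncard ≤ (Y ∩ Set.Icc 1 n).ncard + 801 := by
      calc Z.ncard ≤ ((fun y => y + 800) '' (Y ∩ Set.Icc 1 n)
            ∪ (Finset.range 801 : Set ℕ)).ncard :=
            Set.ncard_le_ncard hcov ((hfin.image _).union (Finset.finite_toSet _))
        _ ≤ ((fun y => y + 800) '' (Y ∩ Set.Icc 1 n)).ncard
            + (Finset.range 801 : Set ℕ).ncard := Set.ncard_union_le _ _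
        _ ≤ (Y ∩ Set.Icc 1 n).ncard + 801 := by
            rw [Set.ncard_coe_finset, Finset.card_range]
            exact Nat.add_le_add_right (Set.ncard_image_le hfin) _
    have h3 : (Z.ncard : ℝ) ≤ ((Y ∩ Set.Icc 1 n).ncard : ℝ) + 801 := by exact_mod_cast h2
    have h4 : (n : ℝ) ≤ 800 * N := by exact_mod_cast hNn2
    have h5 : 1600 * C * 801 ≤ (n : ℝ) :=
      (Nat.le_ceil _).trans (by exact_mod_cast (le_max_right _ _).trans hn)
    have h6 : (801 : ℝ) ≤ (1 / (1600 * C)) * n := by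
      rw [one_div, inv_mul_eq_div, le_div_iff₀ (by positivity)]; linarith
    have h7 : 2 * ((1 / (1600 * C)) * n) ≤ (N : ℝ) / C := by
      calc 2 * ((1 / (1600 * C)) * n) = n / (800 * C) := by field_simp; ring
        _ ≤ (800 * N) / (800 * C) := div_le_div_of_nonneg_right h4 (by positivity)
        _ = (N : ℝ) / C := by field_simp
    linarith
  obtain ⟨hn₁1, hn₁⟩ := hn₁
  set W : Set ℕ := Y ∪ {1} with hW
  obtain ⟨α, hα⟩ : ∃ α : ℝ, α = min (1 / (1600 * C)) (1 / n₁) := ⟨_, rfl⟩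
  have hn₁r : (0 : ℝ) < n₁ := by exact_mod_cast hn₁1
  have hαpos : 0 < α := by rw [hα]; exact lt_min (by positivity) (by positivity)
  obtain ⟨m, hm⟩ := schnirelmann W (Or.inl h0Y) (Or.inr rfl) α hαpos (by
    intro n hn
    have hfin : (W ∩ Set.Icc 1 n).Finite := (Set.finite_Icc 1 n).subset Set.inter_subset_right
    rcases le_or_gt n₁ n with h | h
    · have h1 := hn₁ n h
      have h2 : (Y ∩ Set.Icc 1 n).ncard ≤ (W ∩ Set.Icc 1 n).ncard :=
        Set.ncard_le_ncard (Set.inter_subset_inter_left _ Set.subset_union_left) hfin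
      have h3 : ((Y ∩ Set.Icc 1 n).ncard : ℝ) ≤ ((W ∩ Set.Icc 1 n).ncard : ℝ) := by
        exact_mod_cast h2
      have h4 : α * n ≤ (1 / (1600 * C)) * n :=
        mul_le_mul_of_nonneg_right (by rw [hα]; exact min_le_left _ _) (Nat.cast_nonneg _)
      linarith
    · have h1 : 1 ≤ (W ∩ Set.Icc 1 n).ncard := by
        rw [Nat.one_le_iff_ne_zero]
        intro h0
        rw [Set.ncard_eq_zero hfin] at h0
        have : (1 : ℕ) ∈ W ∩ Set.Icc 1 n := ⟨Or.inr rfl, le_refl _, hn⟩
        rw [h0] at this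
        exact this
      have h2 : (1 : ℝ) ≤ ((W ∩ Set.Icc 1 n).ncard : ℝ) := by exact_mod_cast h1
      have h3 : α * n ≤ (1 / n₁) * n₁ := by
        apply mul_le_mul (by rw [hα]; exact min_le_right _ _) (by exact_mod_cast h.le)
          (Nat.cast_nonneg _) (by positivity)
      have h4 : (1 / (n₁ : ℝ)) * n₁ = 1 := by field_simp
      linarith)
  -- every n + 812 m is a sum of 401 m values
  have hlarge : ∀ n : ℕ, IsSum Val (m * 401) (n + 812 * m) := by
    intro n
    obtain ⟨f, hf, hfn⟩ := hm n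
    have h1 : ∀ i, IsSum Val 401 (f i + 812) := by
      intro i
      rcases hf i with h | h
      · have h2 : IsSum Val 400 (f i + 800) := h
        have := h2.add (IsSum.single val_twelve)
        have e : f i + 800 + 12 = f i + 812 := by ring
        rw [e] at this
        exact this
      · rw [Set.mem_singleton_iff] at h
        rw [h]
        have h2 : IsSum Val 400 (0 + 800) := h0Y
        have := h2.add (IsSum.single val_thirteen)
        exact this
    have h2 := IsSum.sum_fin m (fun i => f i + 812) h1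
    have e : ∑ i, (f i + 812) = n + 812 * m := by
      rw [Finset.sum_add_distrib, hfn]; simp [mul_comm]
    rw [e] at h2
    exact h2
  refine ⟨m * 401, fun k hk => ⟨812 * m + 2 * (k - m * 401), fun n hn => ?_⟩⟩
  obtain ⟨j, hj⟩ : ∃ j : ℕ, k = m * 401 + j := ⟨k - m * 401, by omega⟩
  have h1 := hlarge (n - 812 * m - 2 * j)
  have h2 := IsSum.sum_fin (p := Val) (k := 1) j (fun _ => 2) (fun _ => IsSum.single val_two)
  have h3 := h1.add h2
  have e1 : n - 812 * m - 2 * j + 812 * m + ∑ _i : Fin j, 2 = n := by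
    simp only [Finset.sum_const, Finset.card_univ, Fintype.card_fin, smul_eq_mul]
    omega
  rw [e1, mul_one, ← hj] at h3
  exact h3

end Pool.Agent.H51.ZB
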