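import Mathlib
import Pool.Agent.H51.ZB.Df

set_option autoImplicit false

namespace Pool.Agent.H51.ZB

open Matrix

/-- The matrix with rows (a, 1) and (1, 0) as a unit over `ZMod q`. -/
def um (q : ℕ) (a : ℤ) : (Matrix (Fin 2) (Fin 2) (ZMod q))ˣ where
  val := !![(a : ZMod q), 1; 1, 0]
  inv := !![0, 1; 1, -(a : ZMod q)]
  val_inv := by
    ext i j
    fin_cases i <;> fin_cases j <;> simp [Matrix.mul_apply, Fin.sum_univ_two]
  inv_val := by
    ext i j
    fin_cases i <;> fin_cases j <;> simp [Matrix.mul_apply, Fin.sum_univ_two]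

/-- The product of the units `um q a` over a word. -/
def up (q : ℕ) (w : List ℤ) : (Matrix (Fin 2) (Fin 2) (ZMod q))ˣ := (w.map (um q)).prod

theorem up_append (q : ℕ) (v w : List ℤ) : up q (v ++ w) = up q v * up q w := by
  simp [up]

theorem up_val (q : ℕ) (w : List ℤ) :
    ((up q w : (Matrix (Fin 2) (Fin 2) (ZMod q))ˣ) : Matrix (Fin 2) (Fin 2) (ZMod q))
      = (Int.castRingHom (ZMod q)).mapMatrix (cmat w) := by
  induction w with
  | nil => simp [up, cmat]
  | cons a w ih =>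
    rw [cmat_cons, map_mul, ← ih]
    have h1 : up q (a :: w) = um q a * up q w := by simp [up]
    rw [h1, Units.val_mul]
    congr 1
    ext i j
    fin_cases i <;> fin_cases j <;> simp [um]

/-- The subgroup of all units represented by words over `{1,2}`. -/
def H (q : ℕ) [NeZero q] : Subgroup (Matrix (Fin 2) (Fin 2) (ZMod q))ˣ where
  carrier := {g | ∃ w, Word12 w ∧ up q w = g}
  one_mem' := ⟨[], by intro a ha; simp at ha, by simp [up]⟩
  mul_mem' := by
    rintro g h ⟨v, hv, rfl⟩ ⟨w, hw, rfl⟩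
    exact ⟨v ++ w, word_append hv hw, up_append q v w⟩
  inv_mem' := by
    rintro g ⟨w, hw, rfl⟩
    have hpow : ∀ k : ℕ, ∃ v, Word12 v ∧ up q v = (up q w) ^ k := by
      intro k
      induction k with
      | zero => exact ⟨[], by intro a ha; simp at ha, by simp [up]⟩
      | succ k ih =>
        obtain ⟨v, hv, hv'⟩ := ih
        exact ⟨v ++ w, word_append hv hw, by rw [up_append, hv', pow_succ]⟩
    obtain ⟨v, hv, hv'⟩ := hpow (orderOf (up q w) - 1)
    refine ⟨v, hv, ?_⟩
    rw [hv']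
    have hpos : 0 < orderOf (up q w) := orderOf_pos _
    rw [eq_comm, inv_eq_iff_mul_eq_one, ← pow_succ']
    rw [Nat.sub_add_cancel hpos]
    exact pow_orderOf_eq_one _

theorem um_mem (q : ℕ) [NeZero q] (a : ℤ) (ha : a = 1 ∨ a = 2) : um q a ∈ H q :=
  ⟨[a], by intro b hb; rw [List.mem_singleton] at hb; rw [hb]; exact ha, by simp [up]⟩

theorem upow (q : ℕ) (k : ℕ) :
    (((um q 2 * (um q 1)⁻¹) ^ k : (Matrix (Fin 2) (Fin 2) (ZMod q))ˣ) :
      Matrix (Fin 2) (Fin 2) (ZMod q)) = !![1, (k : ZMod q); 0, 1] := by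
  induction k with
  | zero =>
    ext i j
    fin_cases i <;> fin_cases j <;> simp
  | succ k ih =>
    rw [pow_succ, Units.val_mul, ih, Units.val_mul]
    ext i j
    fin_cases i <;> fin_cases j <;>
      simp [um, Units.inv_mk, Matrix.mul_apply, Fin.sum_univ_two]
    all_goals try ring

/-- Every represented matrix is represented by a long word that ends in 2. -/
theorem long_word (q : ℕ) [NeZero q] (g : (Matrix (Fin 2) (Fin 2) (ZMod q))ˣ) (hg : g ∈ H q)
    (N : ℕ) : ∃ c : List ℤ, Word12 c ∧ c.getLast? = some 2 ∧ N ≤ c.length ∧ up q c = g := by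
  obtain ⟨w, hw, hw'⟩ := (H q).mul_mem hg ((H q).inv_mem (um_mem q 2 (Or.inr rfl)))
  have hrep : ∀ k : ℕ, up q (List.replicate k 1) = (um q 1) ^ k := by
    intro k; simp [up]
  have hpos : 0 < orderOf (um q 1) := orderOf_pos _
  refine ⟨List.replicate (orderOf (um q 1) * N) 1 ++ (w ++ [2]), ?_, ?_, ?_, ?_⟩
  · apply word_append
    · intro a ha; left; exact (List.mem_replicate.mp ha).2
    · apply word_append hw
      intro a ha; right; exact List.mem_singleton.mp ha
  · simp
  · simp only [List.length_append, List.length_replicate]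
    nlinarith
  · rw [up_append, hrep, pow_mul, pow_orderOf_eq_one, one_pow, one_mul, up_append, hw']
    simp [up]

/-- Words of a fixed class can be completed such that the continuant is in a given class. -/
theorem suffix_class (q : ℕ) [NeZero q] (γ : (Matrix (Fin 2) (Fin 2) (ZMod q))ˣ) (hγ : γ ∈ H q)
    (r : ZMod q) (N : ℕ) : ∃ f : List ℤ, Word12 f ∧ f.getLast? = some 2 ∧ N ≤ f.length ∧
    ∀ w : List ℤ, up q w = γ → ((cmat ([2] ++ w ++ f) 0 0 : ℤ) : ZMod q) = r := by
  obtain ⟨k, hk⟩ : ∃ k : ℕ, (k : ZMod q) = r - 1 := ⟨(r - 1).val, by simp⟩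
  have hUm : um q 2 * (um q 1)⁻¹ ∈ H q := (H q).mul_mem (um_mem q 2 (Or.inr rfl))
    ((H q).inv_mem (um_mem q 1 (Or.inl rfl)))
  obtain ⟨Z, hZ⟩ : ∃ Z : (Matrix (Fin 2) (Fin 2) (ZMod q))ˣ,
    Z = (um q 2 * (um q 1)⁻¹) ^ k * um q 1 := ⟨_, rfl⟩
  have hZm : Z ∈ H q := by
    rw [hZ]; exact (H q).mul_mem ((H q).pow_mem hUm k) (um_mem q 1 (Or.inl rfl))
  obtain ⟨f, hf, hf2, hfN, hfu⟩ := long_word q ((um q 2 * γ)⁻¹ * Z)
    ((H q).mul_mem ((H q).inv_mem ((H q).mul_mem (um_mem q 2 (Or.inr rfl)) hγ)) hZm) N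
  refine ⟨f, hf, hf2, hfN, fun w hw => ?_⟩
  have h1 : up q ([2] ++ w ++ f) = Z := by
    rw [up_append, up_append, hw, hfu]
    have : up q [2] = um q 2 := by simp [up]
    rw [this]
    group
  have h2 := up_val q ([2] ++ w ++ f)
  rw [h1, hZ, Units.val_mul, upow] at h2
  have h3 := congrFun (congrFun h2 0) 0
  simp only [um, Matrix.mul_apply, Fin.sum_univ_two, RingHom.mapMatrix_apply,
    Matrix.map_apply, Int.coe_castRingHom] at h3
  rw [← h3]
  simp [hk]

end Pool.Agent.H51.ZB
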