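import Mathlib
import Pool.Agent.H51.ZB.Pt

set_option autoImplicit false

namespace Pool.Agent.H51.ZB

open Matrix

/-- The bilinear step with a fixed final word `f`. -/
theorem split_bound2 (C : ℝ) (hC : 1 ≤ C) (f : List ℤ) (hf : Word12 f)
    (hf2 : f.getLast? = some 2) (hfC : (cmat f 0 0 : ℝ) ≤ C) (N : ℕ) (hN : 1 ≤ N) (L Lt Ld Ls Lb : List Rec)
    (hL : ∀ r ∈ L, r.Ok) (hE : Ef L ≤ C)
    (hmax : ∀ w ∈ prodF L, (cmat ([2] ++ w ++ f) 0 0 : ℝ) ≤ N)
    (hmin : (N : ℝ) / C ≤ (cmat (rep L) 0 0 : ℝ))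
    (hdec : L = Lt ++ (Ld ++ (Ls ++ Lb))) (hd : Ld ≠ [])
    (θ : ℝ) (r : ℚ) (U0 V P R T : ℝ)
    (hU0 : U0 = (cmat (rep Lb) 0 0 : ℝ)) (hV : V = N / U0) (hP : P = 1 + N * |θ - r|)
    (hR : R = 2 * V / P) (hT : T = 4 * C * (cmat (rep Lt) 0 0 : ℝ))
    (hbig : 4 * (r.den * P) ≤ U0)
    (hS : Ls = [] ∨ 24 * R * (C * cmat (rep Ls) 0 0) ^ 2 < V / (2 * C ^ 2))
    (hTT : Lt = [] ∨ 18 * max 1 (R / r.den) * max 1 (T / r.den) < V / (4 * C ^ 2 * T)) :
    ‖∑ w ∈ prodF L, ee (θ * (cmat ([2] ++ w ++ f) 0 0 : ℝ))‖ ^ 2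
      ≤ ((prodF L).card : ℝ) ^ 2 * ((8 * (6 * C ^ 2 * U0) * (1 + Real.log (6 * C ^ 2 * U0))) ^ 2
        / (((prodF Lt).card : ℝ) * ((prodF Ls).card : ℝ) * ((prodF Lb).card : ℝ))) := by
  classical
  have okt : ∀ s ∈ Lt, s.Ok := fun s hs => hL s (by rw [hdec]; simp [hs])
  have okd : ∀ s ∈ Ld, s.Ok := fun s hs => hL s (by rw [hdec]; simp [hs])
  have oks : ∀ s ∈ Ls, s.Ok := fun s hs => hL s (by rw [hdec]; simp [hs])
  have okb : ∀ s ∈ Lb, s.Ok := fun s hs => hL s (by rw [hdec]; simp [hs])
  have oksb : ∀ s ∈ Ls ++ Lb, s.Ok := fun s hs => (List.mem_append.mp hs).elim (oks s) (okb s)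
  have okdsb : ∀ s ∈ Ld ++ (Ls ++ Lb), s.Ok :=
    fun s hs => (List.mem_append.mp hs).elim (okd s) (oksb s)
  have oktdsb : ∀ s ∈ Lt ++ (Ld ++ (Ls ++ Lb)), s.Ok := by rw [← hdec]; exact hL
  have okds : ∀ s ∈ Ld ++ Ls, s.Ok := fun s hs => (List.mem_append.mp hs).elim (okd s) (oks s)
  have oktds : ∀ s ∈ Lt ++ (Ld ++ Ls), s.Ok :=
    fun s hs => (List.mem_append.mp hs).elim (okt s) (okds s)
  have Et := Ef_one_le Lt okt
  have Ed := Ef_one_le Ld okd
  have Es := Ef_one_le Ls oks
  have Eb := Ef_one_le Lb okb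
  have hEeq : Ef L = Ef Lt * (Ef Ld * (Ef Ls * Ef Lb)) := by
    rw [hdec, Ef_append, Ef_append, Ef_append]
  rw [hEeq] at hE
  have m1 : 1 ≤ Ef Ls * Ef Lb := by nlinarith
  have m2 : 1 ≤ Ef Ld * (Ef Ls * Ef Lb) := by nlinarith
  have Et' : Ef Lt ≤ C := by nlinarith
  have m3 : Ef Ld * (Ef Ls * Ef Lb) ≤ C := by nlinarith
  have m4 : Ef Ls * Ef Lb ≤ C := by nlinarith
  have Es' : Ef Ls ≤ C := by nlinarith
  have Eb' : Ef Lb ≤ C := by nlinarith
  have Etds' : Ef (Lt ++ (Ld ++ Ls)) ≤ C := by
    rw [Ef_append, Ef_append]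
    have : Ef Lt * (Ef Ld * Ef Ls) * 1 ≤ Ef Lt * (Ef Ld * Ef Ls) * Ef Lb := by
      apply mul_le_mul_of_nonneg_left Eb; positivity
    calc Ef Lt * (Ef Ld * Ef Ls) ≤ Ef Lt * (Ef Ld * Ef Ls) * Ef Lb := by linarith
      _ = Ef Lt * (Ef Ld * (Ef Ls * Ef Lb)) := by ring
      _ ≤ C := hE
  have hNr : (1 : ℝ) ≤ N := by exact_mod_cast hN
  have hU01 : 1 ≤ U0 := by rw [hU0]; exact K_pos _ (rep_word Lb okb)
  have hV0 : 0 < V := by rw [hV]; positivity
  have hP1 : 1 ≤ P := by rw [hP]; have := abs_nonneg (θ - r); nlinarith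
  have hq : (1 : ℝ) ≤ r.den := by exact_mod_cast r.den_pos
  have hKt := K_pos _ (rep_word Lt okt)
  have hT4 : 4 ≤ T := by rw [hT]; nlinarith
  -- sizes of the words a
  have wordA : ∀ t ∈ prodF Lt, ∀ d ∈ prodF Ld, ∀ s ∈ prodF Ls, t ++ (d ++ s) ∈ prodF (Lt ++ (Ld ++ Ls)) := by
    intro t ht d hd' s hs
    have mem_app : ∀ (A B : List Rec), ∀ x ∈ prodF A, ∀ y ∈ prodF B, x ++ y ∈ prodF (A ++ B) := by
      intro A B
      induction A with
      | nil =>
        intro x hx y hy
        simp only [prodF, Finset.mem_singleton] at hx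
        subst hx
        exact hy
      | cons r A ih =>
        intro x hx y hy
        simp only [prodF, Finset.mem_image₂] at hx
        obtain ⟨x1, hx1, x2, hx2, rfl⟩ := hx
        rw [List.cons_append, List.append_assoc]
        simp only [prodF]
        exact Finset.mem_image₂_of_mem hx1 (ih x2 hx2 y hy)
    exact mem_app _ _ t ht _ (mem_app _ _ d hd' s hs)
  have mem_app : ∀ (A B : List Rec), ∀ x ∈ prodF A, ∀ y ∈ prodF B, x ++ y ∈ prodF (A ++ B) := by
    intro A B
    induction A with
    | nil =>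
      intro x hx y hy
      simp only [prodF, Finset.mem_singleton] at hx
      subst hx
      exact hy
    | cons r A ih =>
      intro x hx y hy
      simp only [prodF, Finset.mem_image₂] at hx
      obtain ⟨x1, hx1, x2, hx2, rfl⟩ := hx
      rw [List.cons_append, List.append_assoc]
      simp only [prodF]
      exact Finset.mem_image₂_of_mem hx1 (ih x2 hx2 y hy)
  have hrb := rep_mem Lb okb
  have wbw := rep_word Lb okb
  have hKA : ∀ t ∈ prodF Lt, ∀ d ∈ prodF Ld, ∀ s ∈ prodF Ls,
      (cmat (([2] ++ t) ++ d ++ s) 0 0 : ℝ) ≤ V ∧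
      V / (2 * C ^ 2) ≤ (cmat (([2] ++ t) ++ d ++ s) 0 0 : ℝ) := by
    intro t ht d hd' s hs
    have hmem := wordA t ht d hd' s hs
    have hw := (mem_prodF _ oktds _ hmem).1
    have e0 : ([2] ++ t) ++ d ++ s = [2] ++ (t ++ (d ++ s)) := by simp
    rw [e0]
    have hw2 := word_append word2 hw
    constructor
    · have hm2 : t ++ (d ++ (s ++ rep Lb)) ∈ prodF L := by
        rw [hdec]
        exact mem_app _ _ t ht _ (mem_app _ _ d hd' _ (mem_app _ _ s hs _ hrb))
      have h1 := hmax _ hm2
      have e1 : [2] ++ (t ++ (d ++ (s ++ rep Lb))) ++ f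
          = ([2] ++ (t ++ (d ++ s))) ++ (rep Lb ++ f) := by simp
      rw [e1] at h1
      have h2 := (K_bdR _ _ hw2 (word_append wbw hf)).1
      have h3 := (K_bdR (rep Lb) f wbw hf).1
      rw [← hU0] at h3
      have kf := K_pos f hf
      have h3' : U0 ≤ cmat (rep Lb ++ f) 0 0 := by nlinarith
      have h4 := K_pos _ hw2
      rw [hV, le_div_iff₀ (by linarith)]
      calc (cmat ([2] ++ (t ++ (d ++ s))) 0 0 : ℝ) * U0
          ≤ (cmat ([2] ++ (t ++ (d ++ s))) 0 0 : ℝ) * cmat (rep Lb ++ f) 0 0 :=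
            mul_le_mul_of_nonneg_left h3' (by linarith)
        _ ≤ _ := h2.trans h1
    · have h1 := (K_bdR [2] _ word2 hw).1
      rw [K_two] at h1
      have h2 := comp_prodF _ oktds _ (rep_mem _ oktds) _ hmem 0 0
      have h3 := (K_bdR (rep (Lt ++ (Ld ++ Ls))) (rep Lb) (rep_word _ oktds) wbw).2
      rw [← rep_append] at h3
      have e2 : (Lt ++ (Ld ++ Ls)) ++ Lb = L := by rw [hdec]; simp
      rw [e2, ← hU0] at h3
      have h4 := K_pos _ hw
      have h5 := K_pos _ (rep_word _ oktds)
      have h6 : (N : ℝ) / C ≤ 2 * (C * cmat (t ++ (d ++ s)) 0 0) * U0 := by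
        refine hmin.trans (h3.trans ?_)
        apply mul_le_mul_of_nonneg_right _ (by linarith)
        apply mul_le_mul_of_nonneg_left _ (by norm_num)
        exact h2.trans (mul_le_mul_of_nonneg_right Etds' (by linarith))
      have h7 : V / (2 * C ^ 2) ≤ cmat (t ++ (d ++ s)) 0 0 := by
        rw [hV, div_div, div_le_iff₀ (by positivity)]
        rw [div_le_iff₀ (by linarith)] at h6
        calc (N : ℝ) ≤ 2 * (C * cmat (t ++ (d ++ s)) 0 0) * U0 * C := h6
          _ = _ := by ring
      linarith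
  -- the natural number U
  obtain ⟨U, hU⟩ : ∃ U : ℕ, U = ⌊C ^ 2 * (2 * U0)⌋₊ + 1 := ⟨_, rfl⟩
  have hC2 : 1 ≤ C ^ 2 := one_le_pow₀ hC
  have hCU : U0 ≤ C ^ 2 * U0 := le_mul_of_one_le_left (by linarith) hC2
  have hUlo : C ^ 2 * (2 * U0) < U := by
    rw [hU]; push_cast; exact Nat.lt_floor_add_one _
  have hUhi : (U : ℝ) ≤ 6 * C ^ 2 * U0 := by
    rw [hU]; push_cast
    have := Nat.floor_le (show 0 ≤ C ^ 2 * (2 * U0) by positivity)
    linarith
  have hUU0 : U0 ≤ U := by linarith
  have hU1 : 1 ≤ U := by rw [hU]; omega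
  have hKb : ∀ b ∈ prodF Lb, Word12 (b ++ f) ∧ (cmat (b ++ f) 0 0 : ℝ) < U ∧
      (cmat (b ++ f) 1 0 : ℝ) < U := by
    intro b hb
    have hbw := (mem_prodF Lb okb b hb).1
    have hb2 := word_append hbw hf
    have h1 := (K_bdR b f hbw hf).2
    have kf := K_pos f hf
    have h2 := comp_prodF Lb okb b hb _ hrb 0 0
    rw [← hU0] at h2
    have h3 : (cmat b 0 0 : ℝ) ≤ C * U0 :=
      h2.trans (mul_le_mul_of_nonneg_right Eb' (by linarith))
    have h4 : (cmat (b ++ f) 0 0 : ℝ) < U := by
      have h6 : 2 * (cmat b 0 0 : ℝ) * cmat f 0 0 ≤ 2 * (C * U0) * C := by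
        apply mul_le_mul _ hfC (by linarith) (by positivity)
        linarith
      have h7 : 2 * (C * U0) * C = C ^ 2 * (2 * U0) := by ring
      linarith
    have h5 : (cmat (b ++ f) 1 0 : ℝ) ≤ cmat (b ++ f) 0 0 := by
      exact_mod_cast ent_le _ hb2
    exact ⟨hb2, h4, by linarith⟩
  -- rewrite the sum
  set At := prodF Lt ×ˢ (prodF Ld ×ˢ prodF Ls) with hAt
  set v1 : List ℤ × (List ℤ × List ℤ) → ℤ := fun p => cmat (([2] ++ p.1) ++ p.2.1 ++ p.2.2) 0 0
    with hv1
  set v2 : List ℤ × (List ℤ × List ℤ) → ℤ := fun p => cmat (([2] ++ p.1) ++ p.2.1 ++ p.2.2) 0 1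
    with hv2
  set u1 : List ℤ → ℕ := fun b => (cmat (b ++ f) 0 0).toNat with hu1
  set u2 : List ℤ → ℕ := fun b => (cmat (b ++ f) 1 0).toNat with hu2
  have hsum : ∑ w ∈ prodF L, ee (θ * (cmat ([2] ++ w ++ f) 0 0 : ℝ))
      = ∑ a ∈ At, ∑ b ∈ prodF Lb, ee (θ * ((v1 a : ℝ) * u1 b + (v2 a : ℝ) * u2 b)) := by
    rw [hdec, sum_prodF_append Lt _ oktdsb, hAt, Finset.sum_product]
    refine Finset.sum_congr rfl (fun t ht => ?_)
    rw [sum_prodF_append Ld _ okdsb, Finset.sum_product]
    refine Finset.sum_congr rfl (fun d hd' => ?_)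
    rw [sum_prodF_append Ls _ oksb]
    refine Finset.sum_congr rfl (fun s hs => ?_)
    refine Finset.sum_congr rfl (fun b hb => ?_)
    have hb2 := (hKb b hb).1
    have e1 : [2] ++ (t ++ (d ++ (s ++ b))) ++ f = (([2] ++ t) ++ d ++ s) ++ (b ++ f) := by
      simp
    have g1 := (growth _ hb2).1
    have g2 := (growth _ hb2).2.1
    have f1 : ((u1 b : ℕ) : ℝ) = (cmat (b ++ f) 0 0 : ℝ) := by
      have : ((cmat (b ++ f) 0 0).toNat : ℤ) = cmat (b ++ f) 0 0 :=
        Int.toNat_of_nonneg (by omega)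
      rw [hu1]; exact_mod_cast this
    have f2 : ((u2 b : ℕ) : ℝ) = (cmat (b ++ f) 1 0 : ℝ) := by
      have : ((cmat (b ++ f) 1 0).toNat : ℤ) = cmat (b ++ f) 1 0 :=
        Int.toNat_of_nonneg (by omega)
      rw [hu2]; exact_mod_cast this
    rw [f1, f2, e1, K_append]
    push_cast
    rfl
  rw [hsum]
  -- the bound for the fibres
  have hbil := bilinear At (prodF Lb) v1 v2 u1 u2 U hU1
    (fun b hb => by
      have h1 := (hKb b hb).2.1
      have g1 := (growth _ (hKb b hb).1).1
      have : cmat (b ++ f) 0 0 < (U : ℤ) := by exact_mod_cast h1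
      rw [hu1]; simp only; omega)
    (fun b hb => by
      have h1 := (hKb b hb).2.2
      have g1 := (growth _ (hKb b hb).1).2.1
      have : cmat (b ++ f) 1 0 < (U : ℤ) := by exact_mod_cast h1
      rw [hu2]; simp only; omega)
    (fun b hb b' hb' h1 h2 => by
      have w1 := (hKb b hb).1
      have w2 := (hKb b' hb').1
      have g1 := (growth _ w1).1
      have g2 := (growth _ w1).2.1
      have g1' := (growth _ w2).1
      have g2' := (growth _ w2).2.1
      rw [hu1] at h1
      rw [hu2] at h2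
      simp only at h1 h2
      have := col_inj _ _ w1 w2 (Or.inr (by rw [List.getLast?_append, hf2]; rfl))
        (Or.inr (by rw [List.getLast?_append, hf2]; rfl)) (by omega) (by omega)
      exact List.append_cancel_right this)
    θ (prodF Ld).card
    (by
      intro Cc hCc hclose
      apply Finset.card_le_card_of_injOn (fun p => p.2.1)
      · intro p hp
        have := hCc (Finset.mem_coe.mp hp)
        rw [hAt, Finset.mem_product, Finset.mem_product] at this
        exact this.2.1
      · intro p hp p' hp' heq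
        obtain ⟨t, d, s⟩ := p
        obtain ⟨t', d', s'⟩ := p'
        simp only at heq
        subst heq
        have hm := hCc (Finset.mem_coe.mp hp)
        have hm' := hCc (Finset.mem_coe.mp hp')
        rw [hAt, Finset.mem_product, Finset.mem_product] at hm hm'
        obtain ⟨ht, hd1, hs⟩ := hm
        obtain ⟨ht', _, hs'⟩ := hm'
        simp only at ht hd1 hs ht' hs'
        obtain ⟨c1, c2⟩ := hclose _ (Finset.mem_coe.mp hp) _ (Finset.mem_coe.mp hp')
        have tw := (mem_prodF Lt okt t ht)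
        have tw' := (mem_prodF Lt okt t' ht')
        have dw := (mem_prodF Ld okd d hd1)
        have sw := (mem_prodF Ls oks s hs)
        have sw' := (mem_prodF Ls oks s' hs')
        have aw := word_append (word_append (word_append word2 tw.1) dw.1) sw.1
        have aw' := word_append (word_append (word_append word2 tw'.1) dw.1) sw'.1
        have K1 := hKA t ht d hd1 s hs
        have K2 := hKA t' ht' d hd1 s' hs'
        have p1 := K_pos _ aw
        have p2 := K_pos _ aw'
        have q1 : (0 : ℝ) ≤ cmat (([2] ++ t) ++ d ++ s) 0 1 ∧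
            (cmat (([2] ++ t) ++ d ++ s) 0 1 : ℝ) ≤ V := by
          have := ent01_bd _ aw
          constructor
          · exact_mod_cast this.1
          · have h : (cmat (([2] ++ t) ++ d ++ s) 0 1 : ℝ) ≤ cmat (([2] ++ t) ++ d ++ s) 0 0 := by
              exact_mod_cast this.2
            linarith [K1.1]
        have q2 : (0 : ℝ) ≤ cmat (([2] ++ t') ++ d ++ s') 0 1 ∧
            (cmat (([2] ++ t') ++ d ++ s') 0 1 : ℝ) ≤ V := by
          have := ent01_bd _ aw'
          constructor
          · exact_mod_cast this.1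
          · have h : (cmat (([2] ++ t') ++ d ++ s') 0 1 : ℝ)
              ≤ cmat (([2] ++ t') ++ d ++ s') 0 0 := by exact_mod_cast this.2
            linarith [K2.1]
        have z1 : |(((v1 (t, d, s) - v1 (t', d, s') : ℤ)) : ℝ)| ≤ V := by
          rw [hv1]; push_cast; rw [abs_le]
          exact ⟨by linarith [K1.1, K2.1], by linarith [K1.1, K2.1]⟩
        have z2 : |(((v2 (t, d, s) - v2 (t', d, s') : ℤ)) : ℝ)| ≤ V := by
          rw [hv2]; push_cast; rw [abs_le]
          exact ⟨by linarith [q1.1, q1.2, q2.1, q2.2], by linarith [q1.1, q1.2, q2.1, q2.2]⟩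
        have hUq : 4 * (r.den : ℝ) ≤ U := by
          have : (r.den : ℝ) ≤ r.den * P := le_mul_of_one_le_right (by linarith) hP1
          linarith
        have hβ : |θ - r| * V * (4 * r.den) ≤ 1 := by
          have h1 : N * |θ - r| ≤ P := by rw [hP]; linarith
          rw [hV]
          have h2 : |θ - r| * (N / U0) * (4 * r.den) = (4 * (r.den * (N * |θ - r|))) / U0 := by
            ring
          rw [h2, div_le_one (by linarith)]
          have h3 : (r.den : ℝ) * (N * |θ - r|) ≤ r.den * P :=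
            mul_le_mul_of_nonneg_left h1 (by linarith)
          linarith
        have d1 := close_dvd θ V U r _ z1 hUq hβ (by
          obtain ⟨n, hn⟩ := c1
          exact ⟨n, by push_cast; exact hn⟩)
        have d2 := close_dvd θ V U r _ z2 hUq hβ (by
          obtain ⟨n, hn⟩ := c2
          exact ⟨n, by push_cast; exact hn⟩)
        have hRz : ∀ z : ℝ, |z| ≤ V → |θ - r| * |z| * U ≤ 1 → |z| ≤ R := by
          intro z hz1 hz2
          rw [hR, le_div_iff₀ (by linarith), hP]
          have h1 : |z| * (N * |θ - r|) ≤ V := by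
            rw [hV, le_div_iff₀ (by linarith)]
            have h2 : |θ - r| * |z| * U0 ≤ |θ - r| * |z| * U :=
              mul_le_mul_of_nonneg_left hUU0 (by positivity)
            have h3 : |θ - r| * |z| * U0 ≤ 1 := h2.trans hz2
            calc |z| * (N * |θ - r|) * U0 = N * (|θ - r| * |z| * U0) := by ring
              _ ≤ N * 1 := mul_le_mul_of_nonneg_left h3 (by linarith)
              _ = N := mul_one _
          linarith
        have r1 := hRz _ z1 d1.2
        have r2 := hRz _ z2 d2.2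
        have hR0 : 0 ≤ R := by rw [hR]; positivity
        have kt : ∀ x ∈ prodF Lt, (cmat ([2] ++ x) 0 0 : ℝ) ≤ T := by
          intro x hx
          have hxw := (mem_prodF Lt okt x hx).1
          have h1 := (K_bdR [2] x word2 hxw).2
          rw [K_two] at h1
          have h2 := comp_prodF Lt okt x hx _ (rep_mem Lt okt) 0 0
          have h3 : (cmat x 0 0 : ℝ) ≤ C * cmat (rep Lt) 0 0 :=
            h2.trans (mul_le_mul_of_nonneg_right Et' (by linarith))
          rw [hT]; linarith
        have ks : ∀ x ∈ prodF Ls, (cmat x 0 0 : ℝ) ≤ C * cmat (rep Ls) 0 0 := by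
          intro x hx
          have h2 := comp_prodF Ls oks x hx _ (rep_mem Ls oks) 0 0
          have h5 := K_pos _ (rep_word Ls oks)
          exact h2.trans (mul_le_mul_of_nonneg_right Es' (by linarith))
        have dlen : 2 ≤ d.length := by
          rw [dw.2]
          rcases Ld with _ | ⟨x, Ld⟩
          · exact absurd rfl hd
          · simp only [rep, List.length_append]
            have := (okd x List.mem_cons_self).2.2.1
            omega
        have hu := uniq ([2] ++ t) ([2] ++ t') d s s' (word_append word2 tw.1)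
          (word_append word2 tw'.1) dw.1 sw.1 sw'.1 (by simp [tw.2, tw'.2])
          (by rw [sw.2, sw'.2]) dlen r.den r.den_pos R T hR0 d1.1 d2.1
          (by have h := r1; rw [hv1] at h; push_cast at h; exact h)
          (by have h := r2; rw [hv2] at h; push_cast at h; exact h)
          (kt t ht) (kt t' ht')
          (by
            rcases hS with h | h
            · left
              subst h
              simp only [prodF, Finset.mem_singleton] at hs hs'
              rw [hs, hs']
            · right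
              refine lt_of_le_of_lt ?_ (lt_of_lt_of_le h K2.2)
              have h1 := ks s hs
              have h2 := ks s' hs'
              have h3 := K_pos _ sw.1
              have h4 := K_pos _ sw'.1
              have h5 : (cmat s 0 0 : ℝ) * cmat s' 0 0 ≤ (C * cmat (rep Ls) 0 0) ^ 2 := by
                rw [sq]
                exact mul_le_mul h1 h2 (by linarith) (by linarith)
              calc 24 * R * cmat s 0 0 * cmat s' 0 0 = 24 * R * (cmat s 0 0 * cmat s' 0 0) := by
                    ring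
                _ ≤ _ := mul_le_mul_of_nonneg_left h5 (by positivity))
          (by
            rcases hTT with h | h
            · left
              subst h
              simp only [prodF, Finset.mem_singleton] at ht ht'
              rw [ht, ht']
            · right
              refine lt_of_lt_of_le h ?_
              have h1 := (K_bdR ([2] ++ t) (d ++ s) (word_append word2 tw.1)
                (word_append dw.1 sw.1)).2
              have e1 : ([2] ++ t) ++ (d ++ s) = ([2] ++ t) ++ d ++ s := by simp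
              rw [e1] at h1
              have h2 := kt t ht
              have h3 := K_pos _ (word_append dw.1 sw.1)
              have h4 : V / (2 * C ^ 2) ≤ 2 * T * cmat (d ++ s) 0 0 := by
                refine K1.2.trans (h1.trans ?_)
                apply mul_le_mul_of_nonneg_right _ (by linarith)
                linarith
              rw [div_le_iff₀ (by positivity)] at h4 ⊢
              calc V ≤ 2 * T * cmat (d ++ s) 0 0 * (2 * C ^ 2) := h4
                _ = _ := by ring)
        have ht3 : t = t' := List.append_cancel_left hu.1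
        rw [ht3, hu.2])
  refine hbil.trans ?_
  have cA : (At.card : ℝ) = (prodF Lt).card * ((prodF Ld).card * (prodF Ls).card) := by
    rw [hAt, Finset.card_product, Finset.card_product]; push_cast; ring
  have cL : ((prodF L).card : ℝ) = (prodF Lt).card * ((prodF Ld).card
      * ((prodF Ls).card * (prodF Lb).card)) := by
    rw [hdec, card_prodF_append _ _ oktdsb, card_prodF_append _ _ okdsb,
      card_prodF_append _ _ oksb]
    push_cast; ring
  have nt : (0 : ℝ) < (prodF Lt).card := by
    exact_mod_cast Finset.card_pos.mpr ⟨_, rep_mem Lt okt⟩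
  have ns : (0 : ℝ) < (prodF Ls).card := by
    exact_mod_cast Finset.card_pos.mpr ⟨_, rep_mem Ls oks⟩
  have nb : (0 : ℝ) < (prodF Lb).card := by
    exact_mod_cast Finset.card_pos.mpr ⟨_, rep_mem Lb okb⟩
  have nd : (0 : ℝ) < (prodF Ld).card := by
    exact_mod_cast Finset.card_pos.mpr ⟨_, rep_mem Ld okd⟩
  rw [cA, cL]
  have hUr : (1 : ℝ) ≤ U := by exact_mod_cast hU1
  have hlog : Real.log U ≤ Real.log (6 * C ^ 2 * U0) := Real.log_le_log (by linarith) hUhi
  have hlog0 : 0 ≤ Real.log U := Real.log_nonneg hUr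
  have hW : 8 * (U : ℝ) * (1 + Real.log U) ≤ 8 * (6 * C ^ 2 * U0) * (1 + Real.log (6 * C ^ 2 * U0)) := by
    apply mul_le_mul
    · linarith
    · linarith
    · linarith
    · positivity
  have hW2 : (8 * (U : ℝ) * (1 + Real.log U)) ^ 2
      ≤ (8 * (6 * C ^ 2 * U0) * (1 + Real.log (6 * C ^ 2 * U0))) ^ 2 :=
    pow_le_pow_left₀ (by positivity) hW 2
  generalize ((prodF Lt).card : ℝ) = x1 at *
  generalize ((prodF Ld).card : ℝ) = x2 at *
  generalize ((prodF Ls).card : ℝ) = x3 at *
  generalize ((prodF Lb).card : ℝ) = x4 at *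
  generalize (8 * (6 * C ^ 2 * U0) * (1 + Real.log (6 * C ^ 2 * U0))) ^ 2 = W at *
  calc x1 * (x2 * x3) * x4 * x2 * (8 * (U : ℝ) * (1 + Real.log U)) ^ 2
      ≤ x1 * (x2 * x3) * x4 * x2 * W := mul_le_mul_of_nonneg_left hW2 (by positivity)
    _ = (x1 * (x2 * (x3 * x4))) ^ 2 * (W / (x1 * x3 * x4)) := by
        field_simp

end Pool.Agent.H51.ZB
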