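import Mathlib
import Pool.Agent.H51.ZB.Pt2
import Pool.Agent.H51.ZB.Pw

set_option autoImplicit false

namespace Pool.Agent.H51.ZB

open Matrix

theorem final_ineq2 (C H U0 x13 x4 c1 W : ℝ) (hC : 1 ≤ C) (hH : 1 ≤ H) (hU1 : 1 ≤ U0)
    (hc1 : 0 < c1) (hU0 : U0 ≤ 32 * C * H ^ (501 / 500 : ℝ)) (hx4 : U0 ^ (21 / 20 : ℝ) ≤ x4)
    (hx13 : (c1 * H ^ (189 / 200 : ℝ)) ^ (26 / 25 : ℝ) ≤ x13)
    (hW : W ≤ 4008 ^ 2 * (6 * C ^ 2 * U0) ^ (501 / 250 : ℝ)) :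
    W / (x13 * x4) ≤ (4008 ^ 2 * (6 * C ^ 2) ^ (501 / 250 : ℝ) * (32 * C) ^ (477 / 500 : ℝ)
      / c1 ^ (26 / 25 : ℝ)) * H ^ (-(1 / 50) : ℝ) := by
  have hH0 : 0 < H := by linarith
  have hU00 : 0 < U0 := by linarith
  have p1 : (6 * C ^ 2 * U0) ^ (501 / 250 : ℝ)
      = (6 * C ^ 2) ^ (501 / 250 : ℝ) * (U0 ^ (477 / 500 : ℝ) * U0 ^ (21 / 20 : ℝ)) := by
    rw [Real.mul_rpow (by positivity) hU00.le, ← Real.rpow_add hU00]
    norm_num
  have p2 : (c1 * H ^ (189 / 200 : ℝ)) ^ (26 / 25 : ℝ)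
      = c1 ^ (26 / 25 : ℝ) * H ^ (4914 / 5000 : ℝ) := by
    rw [Real.mul_rpow hc1.le (by positivity), ← Real.rpow_mul hH0.le]
    norm_num
  have p3 : U0 ^ (477 / 500 : ℝ)
      ≤ (32 * C) ^ (477 / 500 : ℝ) * H ^ (238977 / 250000 : ℝ) := by
    calc U0 ^ (477 / 500 : ℝ) ≤ (32 * C * H ^ (501 / 500 : ℝ)) ^ (477 / 500 : ℝ) :=
          Real.rpow_le_rpow hU00.le hU0 (by norm_num)
      _ = _ := by
          rw [Real.mul_rpow (by positivity) (by positivity), ← Real.rpow_mul hH0.le]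
          norm_num
  have p4 : H ^ (238977 / 250000 : ℝ) ≤ H ^ (4914 / 5000 : ℝ) * H ^ (-(1 / 50) : ℝ) := by
    rw [← Real.rpow_add hH0]
    exact Real.rpow_le_rpow_of_exponent_le hH (by norm_num)
  have x4pos : 0 < U0 ^ (21 / 20 : ℝ) := Real.rpow_pos_of_pos hU00 _
  have x13pos : 0 < (c1 * H ^ (189 / 200 : ℝ)) ^ (26 / 25 : ℝ) := by positivity
  have hx13' : 0 < x13 := by linarith
  have hx4' : 0 < x4 := by linarith
  rw [div_le_iff₀ (by positivity)]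
  have hc1p : 0 < c1 ^ (26 / 25 : ℝ) := Real.rpow_pos_of_pos hc1 _
  have hHp : 0 < H ^ (-(1 / 50) : ℝ) := Real.rpow_pos_of_pos hH0 _
  have hA : 0 < (4008 ^ 2 * (6 * C ^ 2) ^ (501 / 250 : ℝ) * (32 * C) ^ (477 / 500 : ℝ)) := by
    positivity
  calc W ≤ 4008 ^ 2 * (6 * C ^ 2 * U0) ^ (501 / 250 : ℝ) := hW
    _ = 4008 ^ 2 * (6 * C ^ 2) ^ (501 / 250 : ℝ) * U0 ^ (477 / 500 : ℝ) * U0 ^ (21 / 20 : ℝ) := by
        rw [p1]; ring
    _ ≤ 4008 ^ 2 * (6 * C ^ 2) ^ (501 / 250 : ℝ) * ((32 * C) ^ (477 / 500 : ℝ)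
          * (H ^ (4914 / 5000 : ℝ) * H ^ (-(1 / 50) : ℝ))) * U0 ^ (21 / 20 : ℝ) := by
        apply mul_le_mul_of_nonneg_right _ x4pos.le
        apply mul_le_mul_of_nonneg_left _ (by positivity)
        exact p3.trans (mul_le_mul_of_nonneg_left p4 (by positivity))
    _ = (4008 ^ 2 * (6 * C ^ 2) ^ (501 / 250 : ℝ) * (32 * C) ^ (477 / 500 : ℝ)
          / c1 ^ (26 / 25 : ℝ)) * H ^ (-(1 / 50) : ℝ)
          * ((c1 ^ (26 / 25 : ℝ) * H ^ (4914 / 5000 : ℝ)) * U0 ^ (21 / 20 : ℝ)) := by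
        field_simp
    _ ≤ (4008 ^ 2 * (6 * C ^ 2) ^ (501 / 250 : ℝ) * (32 * C) ^ (477 / 500 : ℝ)
          / c1 ^ (26 / 25 : ℝ)) * H ^ (-(1 / 50) : ℝ) * (x13 * x4) := by
        apply mul_le_mul_of_nonneg_left _ (by positivity)
        rw [← p2]
        exact mul_le_mul hx13 hx4 x4pos.le hx13'.le

theorem ensemble3 (F : ℕ) (hF1 : 1 ≤ F) : ∃ C : ℝ, ∃ N₀ : ℕ, 1 ≤ C ∧ 1 ≤ N₀ ∧
    (F : ℝ) ≤ C ∧ ∀ N : ℕ, N₀ ≤ N → ∃ L : List Rec,
    (∀ r ∈ L, r.Ok) ∧ Ef L ≤ C ∧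
    (∀ f : List ℤ, Word12 f → (cmat f 0 0 : ℝ) ≤ F →
      ∀ w ∈ prodF L, (cmat ([2] ++ w ++ f) 0 0 : ℝ) ≤ N) ∧
    (N : ℝ) / C ≤ (cmat (rep L) 0 0 : ℝ) ∧ Gran2 C L := by
  obtain ⟨C, N₀, hC, hN₀, hens⟩ := ensemble
  have hFr1 : (1 : ℝ) ≤ F := by exact_mod_cast hF1
  refine ⟨4 * F * C, 2 * F * N₀, by nlinarith, ?_, by nlinarith, fun N hN => ?_⟩
  · have : 1 ≤ F * N₀ := Nat.one_le_iff_ne_zero.mpr (by positivity)
    nlinarith
  obtain ⟨N', hN'⟩ : ∃ N' : ℕ, N' = N / (2 * F) := ⟨_, rfl⟩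
  have h2F : 0 < 2 * F := by omega
  have hN'0 : N₀ ≤ N' := by
    rw [hN', Nat.le_div_iff_mul_le h2F]; linarith
  have hN'1 : 2 * F * N' ≤ N := by rw [hN']; exact Nat.mul_div_le N (2 * F)
  have hN'2 : N < 2 * F * (N' + 1) := by
    rw [hN']; exact Nat.lt_mul_div_succ N h2F
  have hN'3 : N ≤ 4 * F * N' := by nlinarith
  obtain ⟨L, hL, hE, hmax, hmin, hG⟩ := hens N' hN'0
  have hCF : C ≤ 4 * F * C := by nlinarith
  refine ⟨L, hL, hE.trans hCF, ?_, ?_, ?_⟩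
  · intro f hf hfF w hw
    have hww := (mem_prodF L hL w hw).1
    have h2w := word_append word2 hww
    have h1 := hmax w hw
    have h2 := (K_bdR ([2] ++ w) [2] h2w word2).1
    rw [K_two] at h2
    have h3 := (K_bdR ([2] ++ w) f h2w hf).2
    have h4 := K_pos _ h2w
    have h5 : (2 : ℝ) * F * N' ≤ N := by exact_mod_cast hN'1
    have h6 : 2 * (cmat ([2] ++ w) 0 0 : ℝ) * cmat f 0 0 ≤ 2 * (cmat ([2] ++ w) 0 0 : ℝ) * F :=
      mul_le_mul_of_nonneg_left hfF (by linarith)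
    have h7 : (cmat ([2] ++ w) 0 0 : ℝ) * F ≤ N' * F :=
      mul_le_mul_of_nonneg_right (by linarith) (by linarith)
    linarith
  · refine le_trans ?_ hmin
    have h5 : (N : ℝ) ≤ 4 * F * N' := by exact_mod_cast hN'3
    rw [div_le_div_iff₀ (by positivity) (by linarith)]
    nlinarith
  · intro L1 r L2 h
    have hok1 : ∀ s ∈ L1, s.Ok := fun s hs => hL s (by rw [h]; exact List.mem_append_left _ hs)
    have hok2 : ∀ s ∈ L2, s.Ok := fun s hs => hL s (by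
      rw [h]; exact List.mem_append_right _ (List.mem_cons_of_mem _ hs))
    have k1 := K_pos _ (rep_word L1 hok1)
    have k2 := K_pos _ (rep_word L2 hok2)
    refine (hG L1 r L2 h).trans (mul_le_mul_of_nonneg_right hCF ?_)
    exact Real.rpow_nonneg (le_min (by linarith) (by linarith)) _

theorem pointwise3 (F : ℕ) (hF1 : 1 ≤ F) : ∃ C : ℝ, ∃ N₀ : ℕ, 0 < C ∧ 1 ≤ N₀ ∧
    ∀ N : ℕ, N₀ ≤ N → ∃ Ω : Finset (List ℤ), Ω.Nonempty ∧ (∀ w ∈ Ω, Word12 w) ∧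
    ∀ f : List ℤ, Word12 f → f.getLast? = some 2 → (cmat f 0 0 : ℝ) ≤ F →
    (∀ w ∈ Ω, (cmat ([2] ++ w ++ f) 0 0 : ℝ) ≤ N) ∧
    ∀ (θ : ℝ) (r : ℚ), r.den ≤ Nat.sqrt N → |θ - r| ≤ 1 / ((Nat.sqrt N + 1 : ℝ) * r.den) →
      ‖∑ w ∈ Ω, ee (θ * (cmat ([2] ++ w ++ f) 0 0 : ℝ))‖
        ≤ C * Ω.card * ((r.den : ℝ) * (1 + N * |θ - r|)) ^ (-(1 / 100) : ℝ) := by
  obtain ⟨C, N₀, hC, hN₀, hFC, hens⟩ := ensemble3 F hF1
  -- threshold
  have ht1 : Filter.Tendsto (fun N : ℕ => (N : ℝ) ^ (3 / 125 : ℝ)) Filter.atTop Filter.atTop :=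
    (tendsto_rpow_atTop (by norm_num)).comp tendsto_natCast_atTop_atTop
  obtain ⟨N₁, hN₁⟩ := Filter.eventually_atTop.mp (ht1.eventually_gt_atTop (1024 * C ^ 2))
  obtain ⟨c1, hc1⟩ : ∃ c1 : ℝ, c1 = (1 / (600 * C ^ 3)) * (1 / (10 * C ^ 2)) / (256 * C ^ 3) :=
    ⟨_, rfl⟩
  have hC0 : 0 < C := by linarith
  have hc1pos : 0 < c1 := by rw [hc1]; positivity
  obtain ⟨A, hA⟩ : ∃ A : ℝ, A = 4008 ^ 2 * (6 * C ^ 2) ^ (501 / 250 : ℝ)
    * (32 * C) ^ (477 / 500 : ℝ) / c1 ^ (26 / 25 : ℝ) := ⟨_, rfl⟩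
  have hApos : 0 < A := by rw [hA]; positivity
  refine ⟨Real.sqrt A, max N₀ (max N₁ ⌈(8 * C) ^ 2⌉₊), Real.sqrt_pos.mpr hApos,
    hN₀.trans (le_max_left _ _), fun N hN => ?_⟩
  have hNa : N₀ ≤ N := (le_max_left _ _).trans hN
  have hNb : N₁ ≤ N := (le_max_left _ _).trans ((le_max_right _ _).trans hN)
  have hNc : ⌈(8 * C) ^ 2⌉₊ ≤ N := (le_max_right _ _).trans ((le_max_right _ _).trans hN)
  have hN1 : 1 ≤ N := hN₀.trans hNa
  have hNr1 : (1 : ℝ) ≤ N := by exact_mod_cast hN1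
  have hNr0 : (0 : ℝ) < N := by linarith
  have hbigN := hN₁ N hNb
  have h8C : (8 * C) ^ 2 ≤ (N : ℝ) := (Nat.le_ceil _).trans (by exact_mod_cast hNc)
  have hsq : 8 * C ≤ Real.sqrt N := Real.le_sqrt_of_sq_le h8C
  have hsqpos : 0 < Real.sqrt N := by linarith
  have hsqsq : Real.sqrt N * Real.sqrt N = N := Real.mul_self_sqrt hNr0.le
  obtain ⟨L, hL, hE, hmax0, hmin, hG⟩ := hens N hNa
  refine ⟨prodF L, ⟨_, rep_mem L hL⟩, fun w hw => (mem_prodF L hL w hw).1, ?_⟩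
  intro f hf hf2 hfF
  have hmax := hmax0 f hf hfF
  have hfC : (cmat f 0 0 : ℝ) ≤ C := hfF.trans hFC
  refine ⟨hmax, ?_⟩
  intro θ r hden hβ
  obtain ⟨q, hq⟩ : ∃ q : ℝ, q = (r.den : ℝ) := ⟨_, rfl⟩
  obtain ⟨P, hP⟩ : ∃ P : ℝ, P = 1 + N * |θ - r| := ⟨_, rfl⟩
  obtain ⟨H, hH⟩ : ∃ H : ℝ, H = q * P := ⟨_, rfl⟩
  have hq1 : 1 ≤ q := by rw [hq]; exact_mod_cast r.den_pos
  have hP1 : 1 ≤ P := by rw [hP]; have := abs_nonneg (θ - r); nlinarith
  have hH1 : 1 ≤ H := by rw [hH]; nlinarith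
  have hqH : q ≤ H := by rw [hH]; nlinarith
  have hPH : P ≤ H := by rw [hH]; nlinarith
  have hH0 : 0 < H := by linarith
  have hq0 : 0 < q := by linarith
  have hP0 : 0 < P := by linarith
  -- H ≤ 2 sqrt N
  have hqs : q ≤ Real.sqrt N := by
    rw [hq]
    have h1 : ((r.den : ℕ) : ℝ) ≤ (Nat.sqrt N : ℝ) := by exact_mod_cast hden
    exact h1.trans Real.nat_sqrt_le_real_sqrt
  have hH2 : H ≤ 2 * Real.sqrt N := by
    have h1 : q * (N * |θ - r|) ≤ Real.sqrt N := by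
      have h2 : Real.sqrt N ≤ (Nat.sqrt N + 1 : ℝ) := Real.real_sqrt_le_nat_sqrt_succ
      have h3 : |θ - r| * ((Nat.sqrt N + 1 : ℝ) * q) ≤ 1 := by
        rw [hq]
        rwa [le_div_iff₀ (by positivity)] at hβ
      have h4 : |θ - r| * (Real.sqrt N * q) ≤ 1 := by
        refine le_trans ?_ h3
        apply mul_le_mul_of_nonneg_left _ (abs_nonneg _)
        exact mul_le_mul_of_nonneg_right h2 hq0.le
      calc q * (N * |θ - r|) = Real.sqrt N * (|θ - r| * (Real.sqrt N * q)) := by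
            nth_rewrite 1 [← hsqsq]; ring
        _ ≤ Real.sqrt N * 1 := mul_le_mul_of_nonneg_left h4 hsqpos.le
        _ = Real.sqrt N := mul_one _
    rw [hH, hP]; linarith
  -- the suffix
  have hKL : 4 * H ≤ (cmat (rep L) 0 0 : ℝ) := by
    refine le_trans ?_ hmin
    rw [le_div_iff₀ hC0]
    calc 4 * H * C ≤ 4 * (2 * Real.sqrt N) * C := by
          apply mul_le_mul_of_nonneg_right _ hC0.le; linarith
      _ = (8 * C) * Real.sqrt N := by ring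
      _ ≤ Real.sqrt N * Real.sqrt N := mul_le_mul_of_nonneg_right hsq hsqpos.le
      _ = N := hsqsq
  obtain ⟨La, Lb, hab, hb1, hb2⟩ := cut_suffix hC hL hG (4 * H) (by linarith) hKL
  obtain ⟨U0, hU0⟩ : ∃ U0 : ℝ, U0 = (cmat (rep Lb) 0 0 : ℝ) := ⟨_, rfl⟩
  rw [← hU0] at hb1 hb2
  have hU01 : 1 ≤ U0 := by linarith
  have hU0H : U0 ≤ 32 * C * H ^ (501 / 500 : ℝ) := by
    refine hb2.trans ?_
    rw [Real.mul_rpow (by norm_num) hH0.le]
    have h4 : (4 : ℝ) ^ (501 / 500 : ℝ) ≤ 16 := by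
      calc (4 : ℝ) ^ (501 / 500 : ℝ) ≤ (4 : ℝ) ^ (2 : ℝ) :=
            Real.rpow_le_rpow_of_exponent_le (by norm_num) (by norm_num)
        _ = 16 := by norm_num
    have h5 : 0 < H ^ (501 / 500 : ℝ) := Real.rpow_pos_of_pos hH0 _
    calc 2 * C * ((4 : ℝ) ^ (501 / 500 : ℝ) * H ^ (501 / 500 : ℝ))
        ≤ 2 * C * (16 * H ^ (501 / 500 : ℝ)) := by
          apply mul_le_mul_of_nonneg_left _ (by linarith)
          exact mul_le_mul_of_nonneg_right h4 h5.le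
      _ = _ := by ring
  obtain ⟨V, hV⟩ : ∃ V : ℝ, V = N / U0 := ⟨_, rfl⟩
  have hV0 : 0 < V := by rw [hV]; positivity
  obtain ⟨G, hGd⟩ : ∃ G : ℝ, G = H ^ (19 / 20 : ℝ) := ⟨_, rfl⟩
  have hG1 : 1 ≤ G := by rw [hGd]; exact Real.one_le_rpow hH1 (by norm_num)
  have hE' : 8 * C * G < V := by
    rw [hV, lt_div_iff₀ (by linarith)]
    have h1 : G * U0 ≤ 32 * C * H ^ (244 / 125 : ℝ) := by
      calc G * U0 ≤ G * (32 * C * H ^ (501 / 500 : ℝ)) :=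
            mul_le_mul_of_nonneg_left hU0H (by linarith)
        _ = 32 * C * (H ^ (19 / 20 : ℝ) * H ^ (501 / 500 : ℝ)) := by rw [hGd]; ring
        _ = 32 * C * H ^ (244 / 125 : ℝ) := by
            rw [← Real.rpow_add hH0]; norm_num
    have h2 : H ^ (244 / 125 : ℝ) ≤ 4 * (N : ℝ) ^ (122 / 125 : ℝ) := by
      calc H ^ (244 / 125 : ℝ) ≤ (2 * Real.sqrt N) ^ (244 / 125 : ℝ) :=
            Real.rpow_le_rpow hH0.le hH2 (by norm_num)
        _ = 2 ^ (244 / 125 : ℝ) * (N : ℝ) ^ (122 / 125 : ℝ) := by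
            rw [Real.mul_rpow (by norm_num) hsqpos.le, Real.sqrt_eq_rpow,
              ← Real.rpow_mul hNr0.le]
            norm_num
        _ ≤ 4 * (N : ℝ) ^ (122 / 125 : ℝ) := by
            apply mul_le_mul_of_nonneg_right _ (by positivity)
            calc (2 : ℝ) ^ (244 / 125 : ℝ) ≤ (2 : ℝ) ^ (2 : ℝ) :=
                  Real.rpow_le_rpow_of_exponent_le (by norm_num) (by norm_num)
              _ = 4 := by norm_num
    have h3 : (N : ℝ) = (N : ℝ) ^ (3 / 125 : ℝ) * (N : ℝ) ^ (122 / 125 : ℝ) := by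
      rw [← Real.rpow_add hNr0]; norm_num
    have h4 : 0 < (N : ℝ) ^ (122 / 125 : ℝ) := Real.rpow_pos_of_pos hNr0 _
    calc 8 * C * G * U0 = 8 * C * (G * U0) := by ring
      _ ≤ 8 * C * (32 * C * (4 * (N : ℝ) ^ (122 / 125 : ℝ))) := by
          apply mul_le_mul_of_nonneg_left _ (by linarith)
          exact h1.trans (mul_le_mul_of_nonneg_left h2 (by linarith))
      _ = 1024 * C ^ 2 * (N : ℝ) ^ (122 / 125 : ℝ) := by ring
      _ < (N : ℝ) ^ (3 / 125 : ℝ) * (N : ℝ) ^ (122 / 125 : ℝ) :=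
          mul_lt_mul_of_pos_right hbigN h4
      _ = N := h3.symm
  have oka : ∀ s ∈ La, s.Ok := fun s hs => hL s (by rw [hab]; exact List.mem_append_left _ hs)
  have okb : ∀ s ∈ Lb, s.Ok := fun s hs => hL s (by rw [hab]; exact List.mem_append_right _ hs)
  have hKa : V / (2 * C) ≤ (cmat (rep La) 0 0 : ℝ) := by
    have h1 := (K_bdR (rep La) (rep Lb) (rep_word La oka) (rep_word Lb okb)).2
    rw [← rep_append, ← hab, ← hU0] at h1
    have h2 := hmin.trans h1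
    rw [div_le_iff₀ hC0] at h2
    rw [hV, div_div, div_le_iff₀ (by positivity)]
    calc (N : ℝ) ≤ 2 * cmat (rep La) 0 0 * U0 * C := h2
      _ = _ := by ring
  -- the targets
  obtain ⟨Q, hQ⟩ : ∃ Q : ℝ, Q = (q ^ 2 * P) ^ (19 / 40 : ℝ) := ⟨_, rfl⟩
  obtain ⟨D, hD⟩ : ∃ D : ℝ, D = P ^ (19 / 40 : ℝ) := ⟨_, rfl⟩
  have hqP1 : 1 ≤ q ^ 2 * P := by nlinarith
  have hQ1 : 1 ≤ Q := by rw [hQ]; exact Real.one_le_rpow hqP1 (by norm_num)
  have hD1 : 1 ≤ D := by rw [hD]; exact Real.one_le_rpow hP1 (by norm_num)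
  have hQD : Q * D = G := by
    rw [hQ, hD, hGd, ← Real.mul_rpow (by positivity) hP0.le]
    have : q ^ 2 * P * P = H ^ (2 : ℝ) := by rw [hH, Real.rpow_two]; ring
    rw [this, ← Real.rpow_mul hH0.le]
    norm_num
  have hQG : Q ≤ G := by rw [← hQD]; nlinarith
  have hDG : D ≤ G := by rw [← hQD]; nlinarith
  have hDsq : D ^ 2 ≤ P := by
    rw [hD, ← Real.rpow_natCast, ← Real.rpow_mul hP0.le]
    calc P ^ ((19 / 40 : ℝ) * ((2 : ℕ) : ℝ)) ≤ P ^ (1 : ℝ) :=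
          Real.rpow_le_rpow_of_exponent_le hP1 (by norm_num)
      _ = P := Real.rpow_one _
  have hQsq : Q ^ 2 ≤ q ^ 2 * P := by
    rw [hQ, ← Real.rpow_natCast, ← Real.rpow_mul (by positivity)]
    calc (q ^ 2 * P) ^ ((19 / 40 : ℝ) * ((2 : ℕ) : ℝ)) ≤ (q ^ 2 * P) ^ (1 : ℝ) :=
          Real.rpow_le_rpow_of_exponent_le hqP1 (by norm_num)
      _ = q ^ 2 * P := Real.rpow_one _
  have hQsq2 : Q ^ 2 ≤ q * G := by
    have e1 : Q ^ 2 = (q ^ 2 * P) ^ (19 / 20 : ℝ) := by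
      rw [hQ, ← Real.rpow_natCast, ← Real.rpow_mul (by positivity)]; norm_num
    have e2 : (q ^ 2 * P) ^ (19 / 20 : ℝ) = q ^ (19 / 20 : ℝ) * G := by
      rw [hGd, ← Real.mul_rpow hq0.le hH0.le, hH]; ring_nf
    rw [e1, e2]
    apply mul_le_mul_of_nonneg_right _ (by linarith)
    calc q ^ (19 / 20 : ℝ) ≤ q ^ (1 : ℝ) := Real.rpow_le_rpow_of_exponent_le hq1 (by norm_num)
      _ = q := Real.rpow_one _
  have hQH : Q ≤ q * P := by
    have : Q ^ 2 ≤ (q * P) ^ 2 := hQsq.trans (by nlinarith)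
    exact (pow_le_pow_iff_left₀ (by linarith) (by positivity) (by norm_num)).mp this
  obtain ⟨τt, hτt⟩ : ∃ τt : ℝ, τt = 1 / (600 * C ^ 3) * Q := ⟨_, rfl⟩
  obtain ⟨τs, hτs⟩ : ∃ τs : ℝ, τs = 1 / (10 * C ^ 2) * D := ⟨_, rfl⟩
  have hC2 : 1 ≤ C ^ 2 := one_le_pow₀ hC
  have hC3 : 1 ≤ C ^ 3 := one_le_pow₀ hC
  have hτtQ : τt ≤ Q := by
    rw [hτt]
    have : 1 / (600 * C ^ 3) ≤ 1 := by rw [div_le_one (by positivity)]; linarith
    nlinarith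
  have hτsD : τs ≤ D := by
    rw [hτs]
    have : 1 / (10 * C ^ 2) ≤ 1 := by rw [div_le_one (by positivity)]; linarith
    nlinarith
  have hVC : G < V / (8 * C) := by rw [lt_div_iff₀ (by positivity)]; linarith
  have hVC2 : V / (8 * C) ≤ V / (2 * C) := by
    apply div_le_div_of_nonneg_left hV0.le (by positivity) (by linarith)
  obtain ⟨Lt, Lr, hLa, ht1, ht2⟩ := cut_prefix hC hL hG La Lb hab τt (by linarith)
  have okt : ∀ s ∈ Lt, s.Ok := fun s hs => oka s (by rw [hLa]; exact List.mem_append_left _ hs)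
  have okr : ∀ s ∈ Lr, s.Ok := fun s hs => oka s (by rw [hLa]; exact List.mem_append_right _ hs)
  obtain ⟨Kt, hKt⟩ : ∃ Kt : ℝ, Kt = (cmat (rep Lt) 0 0 : ℝ) := ⟨_, rfl⟩
  have hKt1 : 1 ≤ Kt := by rw [hKt]; exact K_pos _ (rep_word Lt okt)
  have hKtQ : Kt ≤ Q := by
    rcases ht1 with h | h
    · rw [hKt, h]; simp only [rep]; rw [K_nil]; exact hQ1
    · rw [hKt]; linarith
  have hKr : max 1 τs < (cmat (rep Lr) 0 0 : ℝ) := by
    have h1 := (K_bdR (rep Lt) (rep Lr) (rep_word Lt okt) (rep_word Lr okr)).2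
    rw [← rep_append, ← hLa, ← hKt] at h1
    have h2 : V / (2 * C) ≤ 2 * Q * cmat (rep Lr) 0 0 := by
      refine hKa.trans (h1.trans ?_)
      apply mul_le_mul_of_nonneg_right _ (by
        have := K_pos _ (rep_word Lr okr); linarith)
      linarith
    have h3 : max 1 τs ≤ D := max_le hD1 hτsD
    have h4 : 4 * G < 2 * Q * cmat (rep Lr) 0 0 := by
      refine lt_of_lt_of_le ?_ h2
      rw [lt_div_iff₀ (by positivity)]; linarith
    rw [← hQD] at h4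
    have h5 : Q * (2 * D) < Q * cmat (rep Lr) 0 0 := by linarith
    have h6 := lt_of_mul_lt_mul_left h5 (by linarith)
    linarith
  have hdec2 : L = Lt ++ (Lr ++ Lb) := by rw [hab, hLa, List.append_assoc]
  obtain ⟨Ld, Ls, hLr, hd, hs1, hs2⟩ := cut_mid hC hL hG Lt Lr Lb hdec2 τs hKr
  have oks : ∀ s ∈ Ls, s.Ok := fun s hs => okr s (by rw [hLr]; exact List.mem_append_right _ hs)
  obtain ⟨Ks, hKs⟩ : ∃ Ks : ℝ, Ks = (cmat (rep Ls) 0 0 : ℝ) := ⟨_, rfl⟩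
  have hKs1 : 1 ≤ Ks := by rw [hKs]; exact K_pos _ (rep_word Ls oks)
  have hKsD : Ks ≤ D := by
    rcases hs1 with h | h
    · rw [hKs, h]; simp only [rep]; rw [K_nil]; exact hD1
    · rw [hKs]; linarith
  have hdec : L = Lt ++ (Ld ++ (Ls ++ Lb)) := by rw [hdec2, hLr, List.append_assoc]
  -- the conditions
  have hcondS : Ls = [] ∨ 24 * (2 * V / P) * (C * cmat (rep Ls) 0 0) ^ 2 < V / (2 * C ^ 2) := by
    rcases hs1 with h | h
    · left; exact h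
    · right
      rw [← hKs] at h ⊢
      rw [hτs] at h
      exact condS C P Ks D V hC hP1 hV0 (by linarith) hDsq h
  obtain ⟨T, hT⟩ : ∃ T : ℝ, T = 4 * C * (cmat (rep Lt) 0 0 : ℝ) := ⟨_, rfl⟩
  have hTpos : 0 < T := by rw [hT, ← hKt]; positivity
  have hcondT : Lt = [] ∨ 18 * max 1 ((2 * V / P) / r.den) * max 1 (T / r.den)
      < V / (4 * C ^ 2 * T) := by
    rcases ht1 with h | h
    · left; exact h
    · right
      rw [← hq]
      rw [← hKt] at h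
      have hTQ : T ≤ Q / (150 * C ^ 2) := by
        rw [hT, ← hKt]
        calc 4 * C * Kt ≤ 4 * C * (1 / (600 * C ^ 3) * Q) := by
              apply mul_le_mul_of_nonneg_left _ (by positivity); rw [← hτt]; exact h
          _ = Q / (150 * C ^ 2) := by field_simp; ring
      have hTQ' : 150 * C ^ 2 * T ≤ Q := by
        rw [le_div_iff₀ (by positivity)] at hTQ; linarith
      have hV8 : G < V := by
        have : G ≤ 8 * C * G := le_mul_of_one_le_left (by linarith) (by linarith)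
        linarith
      exact condT C q P Q T V G hC hq1 hP1 hTpos hTQ' hQH hQsq hQsq2 hQG hV8 hV0
  have hmain := split_bound2 C hC f hf hf2 hfC N hN1 L Lt Ld Ls Lb hL hE hmax hmin hdec hd θ r U0 V P
    (2 * V / P) T hU0 hV hP rfl hT (by rw [← hq, ← hH]; linarith) hcondS hcondT
  -- cardinalities
  have hx4 := card_prodF Lb okb
  rw [← hU0] at hx4
  have hKsH : Ks ≤ H := by
    have : G ≤ H := by
      rw [hGd]
      calc H ^ (19 / 20 : ℝ) ≤ H ^ (1 : ℝ) :=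
            Real.rpow_le_rpow_of_exponent_le hH1 (by norm_num)
        _ = H := Real.rpow_one _
    linarith
  have hx1 := card_prodF Lt okt
  have hx3 := card_prodF Ls oks
  rw [← hKt] at hx1 ht2
  rw [← hKs] at hx3
  rw [← hKs, ← hU0] at hs2
  have hx13 := card_ineq C H U0 Kt Ks τt τs _ _ Q D G c1 hC hH1 hU01 hU0H hKt1 hKs1 hKsH hQ1 hD1
    hτt hτs hQD hGd hc1 ht2 hs2 hx1 hx3
  obtain ⟨W, hW⟩ : ∃ W : ℝ, W = (8 * (6 * C ^ 2 * U0) * (1 + Real.log (6 * C ^ 2 * U0))) ^ 2 := ⟨_, rfl⟩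
  have hWb : W ≤ 4008 ^ 2 * (6 * C ^ 2 * U0) ^ (501 / 250 : ℝ) := by
    rw [hW]
    apply logW
    have : 1 ≤ C ^ 2 * U0 := one_le_mul_of_one_le_of_one_le hC2 hU01
    linarith
  have hfin := final_ineq2 C H U0 (((prodF Lt).card : ℝ) * ((prodF Ls).card : ℝ))
    ((prodF Lb).card : ℝ) c1 W hC hH1 hU01 hc1pos hU0H hx4 hx13 hWb
  rw [← hW] at hmain
  rw [← hA] at hfin
  have hsq1 : ‖∑ w ∈ prodF L, ee (θ * (cmat ([2] ++ w ++ f) 0 0 : ℝ))‖ ^ 2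
      ≤ (Real.sqrt A * (prodF L).card * H ^ (-(1 / 100) : ℝ)) ^ 2 := by
    calc _ ≤ ((prodF L).card : ℝ) ^ 2 * (W / (((prodF Lt).card : ℝ) * ((prodF Ls).card : ℝ)
            * ((prodF Lb).card : ℝ))) := hmain
      _ ≤ ((prodF L).card : ℝ) ^ 2 * (A * H ^ (-(1 / 50) : ℝ)) :=
          mul_le_mul_of_nonneg_left hfin (by positivity)
      _ = (Real.sqrt A * (prodF L).card * H ^ (-(1 / 100) : ℝ)) ^ 2 := by
          have e1 : (H ^ (-(1 / 100) : ℝ)) ^ 2 = H ^ (-(1 / 50) : ℝ) := by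
            rw [← Real.rpow_natCast, ← Real.rpow_mul hH0.le]; norm_num
          rw [mul_pow, mul_pow, Real.sq_sqrt hApos.le, e1]; ring
  have hfin2 := (pow_le_pow_iff_left₀ (norm_nonneg _) (by positivity) (by norm_num)).mp hsq1
  rw [← hq, ← hP, ← hH]
  exact hfin2

end Pool.Agent.H51.ZB
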