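import Mathlib
import Pool.Agent.H51.ZB.Pw2
import Pool.Agent.H51.ZB.Grp
import Pool.Agent.H51.ZB.Den

set_option autoImplicit false

namespace Pool.Agent.H51.ZB

open Matrix

/-- Values in a residue class. -/
def ValR (m : ℕ) (r : ZMod m) (n : ℕ) : Prop := Val n ∧ (n : ZMod m) = r

theorem valR_of (m : ℕ) (r : ZMod m) (w f : List ℤ) (hw : Word12 w) (hf : Word12 f)
    (hf2 : f.getLast? = some 2) (h : ((cmat ([2] ++ w ++ f) 0 0 : ℤ) : ZMod m) = r) :
    ValR m r (cmat ([2] ++ w ++ f) 0 0).toNat := by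
  have h2 := word_append (word_append word2 hw) hf
  have h3 := (growth _ h2).1
  have h4 : (((cmat ([2] ++ w ++ f) 0 0).toNat : ℕ) : ℤ) = cmat ([2] ++ w ++ f) 0 0 :=
    Int.toNat_of_nonneg (by omega)
  refine ⟨⟨[2] ++ w ++ f, h2, by simp, by simp, by rw [List.getLast?_append, hf2]; rfl,
    h4.symm⟩, ?_⟩
  rw [← h, ← h4]
  push_cast
  rfl

theorem isSum_cast {m : ℕ} {r : ZMod m} {k n : ℕ} (h : IsSum (ValR m r) k n) :
    (n : ZMod m) = k * r := by
  obtain ⟨s, h1, h2, h3⟩ := h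
  rw [← h3, ← h1]
  clear h1 h3
  induction s using Multiset.induction with
  | empty => simp
  | cons a s ih =>
    have h4 := (h2 a (Multiset.mem_cons_self a s)).2
    have h5 := ih (fun x hx => h2 x (Multiset.mem_cons_of_mem hx))
    rw [Multiset.sum_cons, Multiset.card_cons]
    push_cast
    rw [h4]
    push_cast at h5
    rw [h5]
    ring

theorem exists_valR (m : ℕ) [NeZero m] (r : ZMod m) (B : ℕ) : ∃ q : ℕ, B ≤ q ∧ ValR m r q := by
  obtain ⟨f, hf, hf2, hfB, h⟩ := suffix_class m 1 (H m).one_mem r B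
  have hn : Word12 [] := by intro a ha; simp at ha
  refine ⟨_, ?_, valR_of m r [] f hn hf hf2 (h [] (by simp [up]))⟩
  have h2 := word_append (word_append word2 hn) hf
  have h3 := (growth _ h2).2.2.2
  simp only [List.length_append] at h3
  omega

theorem density2 (m : ℕ) [NeZero m] (r : ZMod m) : ∃ C : ℝ, ∃ N₀ : ℕ, 0 < C ∧ 1 ≤ N₀ ∧
    ∀ N : ℕ, N₀ ≤ N →
    (N : ℝ) / C ≤ (({n : ℕ | n ≤ 400 * N ∧ IsSum (ValR m r) 400 n}).ncard : ℝ) := by
  classical
  have hex : ∀ γ : (Matrix (Fin 2) (Fin 2) (ZMod m))ˣ, ∃ f : List ℤ, Word12 f ∧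
      f.getLast? = some 2 ∧ (γ ∈ H m → ∀ w : List ℤ, up m w = γ →
        ((cmat ([2] ++ w ++ f) 0 0 : ℤ) : ZMod m) = r) := by
    intro γ
    by_cases hγ : γ ∈ H m
    · obtain ⟨f, h1, h2, _, h3⟩ := suffix_class m γ hγ r 0
      exact ⟨f, h1, h2, fun _ => h3⟩
    · exact ⟨[2], word2, by simp, fun h => absurd h hγ⟩
  choose f hf hf2 hfr using hex
  obtain ⟨M, hM⟩ := (Set.finite_range (fun γ : (Matrix (Fin 2) (Fin 2) (ZMod m))ˣ =>
    cmat (f γ) 0 0)).bddAbove
  have hM' : ∀ γ, cmat (f γ) 0 0 ≤ M := fun γ => hM ⟨γ, rfl⟩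
  have hM1 : 1 ≤ M := ((growth _ (hf 1)).1).trans (hM' 1)
  obtain ⟨F, hF⟩ : ∃ F : ℕ, (F : ℤ) = M := ⟨M.toNat, Int.toNat_of_nonneg (by omega)⟩
  have hF1 : 1 ≤ F := by omega
  have hfF : ∀ γ, (cmat (f γ) 0 0 : ℝ) ≤ F := by
    intro γ
    have := hM' γ
    rw [← hF] at this
    exact_mod_cast this
  have hfin : Finite (Matrix (Fin 2) (Fin 2) (ZMod m))ˣ := inferInstance
  have : Fintype (Matrix (Fin 2) (Fin 2) (ZMod m))ˣ := Fintype.ofFinite _
  obtain ⟨G, hG⟩ : ∃ G : ℕ, G = Fintype.card (Matrix (Fin 2) (Fin 2) (ZMod m))ˣ := ⟨_, rfl⟩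
  have hGpos : 0 < G := by rw [hG]; exact Fintype.card_pos
  have hGr : (0 : ℝ) < G := by exact_mod_cast hGpos
  obtain ⟨C, N₀, hC, hN₀, hpw⟩ := pointwise3 F hF1
  obtain ⟨C', hC', hcir⟩ := circle C (1 / 100) hC (by norm_num) 400 (by norm_num) (by norm_num)
  obtain ⟨G4, hG4⟩ : ∃ G4 : ℝ, G4 = (G : ℝ) ^ 400 := ⟨_, rfl⟩
  have hG4pos : 0 < G4 := by rw [hG4]; exact pow_pos hGr _
  refine ⟨C' * G4, N₀, mul_pos hC' hG4pos, hN₀, fun N hN => ?_⟩
  have hN1 : 1 ≤ N := hN₀.trans hN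
  obtain ⟨Ω, hΩ, hΩw, hb⟩ := hpw N hN
  have hNr : (0 : ℝ) < N := by exact_mod_cast hN1
  -- the popular class
  obtain ⟨γ, hγ⟩ : ∃ γ : (Matrix (Fin 2) (Fin 2) (ZMod m))ˣ,
      Ω.card ≤ G * (Ω.filter (fun w => up m w = γ)).card := by
    by_contra hcon
    push Not at hcon
    have h1 : Ω.card = ∑ γ : (Matrix (Fin 2) (Fin 2) (ZMod m))ˣ,
        (Ω.filter (fun w => up m w = γ)).card :=
      Finset.card_eq_sum_card_fiberwise (fun w _ => Finset.mem_coe.mpr (Finset.mem_univ _))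
    have h2 : ∑ γ : (Matrix (Fin 2) (Fin 2) (ZMod m))ˣ,
        G * (Ω.filter (fun w => up m w = γ)).card
        < ∑ _γ : (Matrix (Fin 2) (Fin 2) (ZMod m))ˣ, Ω.card :=
      Finset.sum_lt_sum_of_nonempty ⟨1, Finset.mem_univ _⟩ (fun γ _ => hcon γ)
    rw [← Finset.mul_sum, ← h1, Finset.sum_const, Finset.card_univ, ← hG, smul_eq_mul] at h2
    exact lt_irrefl _ h2
  set Ωγ := Ω.filter (fun w => up m w = γ) with hΩγ
  have hΩpos : 0 < Ω.card := Finset.card_pos.mpr hΩ
  have hΩγpos : 0 < Ωγ.card := by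
    rcases Nat.eq_zero_or_pos Ωγ.card with h | h
    · rw [h, mul_zero] at hγ; omega
    · exact h
  have hγH : γ ∈ H m := by
    obtain ⟨w, hw⟩ := Finset.card_pos.mp hΩγpos
    rw [hΩγ, Finset.mem_filter] at hw
    exact ⟨w, hΩw w hw.1, hw.2⟩
  obtain ⟨hmax, hpt⟩ := hb (f γ) (hf γ) (hf2 γ) (hfF γ)
  set κ : List ℤ → ℕ := fun w => (cmat ([2] ++ w ++ f γ) 0 0).toNat with hκ
  have hκc : ∀ w ∈ Ω, ((κ w : ℕ) : ℝ) = (cmat ([2] ++ w ++ f γ) 0 0 : ℝ) := by
    intro w hw
    have h2 := word_append (word_append word2 (hΩw w hw)) (hf γ)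
    have h3 := (growth _ h2).1
    have : ((cmat ([2] ++ w ++ f γ) 0 0).toNat : ℤ) = cmat ([2] ++ w ++ f γ) 0 0 :=
      Int.toNat_of_nonneg (by omega)
    rw [hκ]; exact_mod_cast this
  have hκN : ∀ w ∈ Ω, κ w ≤ N := by
    intro w hw
    have h1 := hmax w hw
    rw [← hκc w hw] at h1
    exact_mod_cast h1
  have hcount := hcir (List ℤ) Ω κ N hN1 hκN (by
    intro θ r h1 h2
    have h3 := hpt θ r h1 h2
    have e : ∑ w ∈ Ω, ee (θ * κ w)
        = ∑ w ∈ Ω, ee (θ * (cmat ([2] ++ w ++ f γ) 0 0 : ℝ)) :=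
      Finset.sum_congr rfl (fun w hw => by rw [hκc w hw])
    rw [e]
    exact h3)
  set P := Fintype.piFinset (fun _ : Fin 400 => Ωγ) with hP
  have hPc : P.card = Ωγ.card ^ 400 := by
    rw [hP, Fintype.card_piFinset]; simp
  set g : (Fin 400 → List ℤ) → ℕ := fun h => ∑ i, κ (h i) with hg
  set Z : Set ℕ := {n : ℕ | n ≤ 400 * N ∧ IsSum (ValR m r) 400 n} with hZ
  have hZfin : Z.Finite := (Set.finite_Iic (400 * N)).subset (fun n hn => hn.1)
  have hsub : ((P.image g : Finset ℕ) : Set ℕ) ⊆ Z := by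
    intro n hn
    rw [Finset.mem_coe, Finset.mem_image] at hn
    obtain ⟨h, hh, rfl⟩ := hn
    rw [hP, Fintype.mem_piFinset] at hh
    have hhΩ : ∀ i, h i ∈ Ω ∧ up m (h i) = γ := fun i => by
      have := hh i
      rw [hΩγ, Finset.mem_filter] at this
      exact this
    constructor
    · calc ∑ i, κ (h i) ≤ ∑ _i : Fin 400, N :=
            Finset.sum_le_sum (fun i _ => hκN _ (hhΩ i).1)
        _ = 400 * N := by simp
    · have h1 := IsSum.sum_fin (p := ValR m r) (k := 1) 400 (fun i => κ (h i))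
        (fun i => IsSum.single (valR_of m r (h i) (f γ) (hΩw _ (hhΩ i).1) (hf γ) (hf2 γ)
          (hfr γ hγH (h i) (hhΩ i).2)))
      simpa using h1
  have hle : (P.image g).card ≤ Z.ncard := by
    rw [← Set.ncard_coe_finset]
    exact Set.ncard_le_ncard hsub hZfin
  obtain ⟨R, hR⟩ : ∃ R : ℝ, R = C' * (Ω.card : ℝ) ^ 400 / N := ⟨_, rfl⟩
  have hΩr : (0 : ℝ) < (Ω.card : ℝ) := by exact_mod_cast hΩpos
  have hΩγr : (0 : ℝ) < (Ωγ.card : ℝ) := by exact_mod_cast hΩγpos
  have hR0 : 0 ≤ R := by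
    rw [hR]
    have := pow_nonneg hΩr.le 400
    positivity
  have hcard : P.card ≤ ⌊R⌋₊ * (P.image g).card := by
    apply Finset.card_le_mul_card_image
    intro n _
    apply Nat.le_floor
    rw [hR]
    refine le_trans ?_ (hcount n)
    have h1 : (P.filter (fun h => g h = n)).card ≤ ((Fintype.piFinset (fun _ : Fin 400 => Ω)).filter
        (fun h => ∑ i, κ (h i) = n)).card := by
      apply Finset.card_le_card
      intro h hh
      rw [Finset.mem_filter] at hh ⊢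
      refine ⟨?_, hh.2⟩
      rw [Fintype.mem_piFinset]
      intro i
      have h2 := hh.1
      rw [hP, Fintype.mem_piFinset] at h2
      have h3 := h2 i
      rw [hΩγ, Finset.mem_filter] at h3
      exact h3.1
    exact_mod_cast h1
  have h1 : (P.card : ℝ) ≤ R * Z.ncard := by
    calc (P.card : ℝ) ≤ (⌊R⌋₊ : ℝ) * (P.image g).card := by exact_mod_cast hcard
      _ ≤ R * Z.ncard := by
          apply mul_le_mul (Nat.floor_le hR0) (by exact_mod_cast hle) (Nat.cast_nonneg _) hR0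
  rw [hPc, hR] at h1
  rw [Nat.cast_pow] at h1
  have hpow : (Ω.card : ℝ) ^ 400 ≤ G4 * (Ωγ.card : ℝ) ^ 400 := by
    rw [hG4, ← mul_pow]
    apply pow_le_pow_left₀ hΩr.le
    exact_mod_cast hγ
  have hpw' : 0 < (Ωγ.card : ℝ) ^ 400 := pow_pos hΩγr _
  generalize (Ω.card : ℝ) ^ 400 = x at *
  generalize (Ωγ.card : ℝ) ^ 400 = y at *
  rw [div_le_iff₀ (mul_pos hC' hG4pos)]
  have h2 : y ≤ y * (C' * G4 * Z.ncard / N) := by
    calc y ≤ C' * x / N * Z.ncard := h1
      _ ≤ C' * (G4 * y) / N * Z.ncard := by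
          apply mul_le_mul_of_nonneg_right _ (Nat.cast_nonneg _)
          apply div_le_div_of_nonneg_right _ hNr.le
          exact mul_le_mul_of_nonneg_left hpow hC'.le
      _ = _ := by ring
  have h3 : 1 ≤ C' * G4 * Z.ncard / N := by
    by_contra hcon
    push Not at hcon
    have := mul_lt_of_lt_one_right hpw' hcon
    linarith
  rw [le_div_iff₀ hNr] at h3
  linarith

/-- Two sums of equally many values of the class that differ by `m`. -/
theorem exists_diff (m : ℕ) [NeZero m] (r : ZMod m) : ∃ s a : ℕ, IsSum (ValR m r) s a ∧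
    IsSum (ValR m r) s (a + m) := by
  obtain ⟨q1, _, hq1⟩ := exists_valR m r 0
  obtain ⟨q2, hq2', hq2⟩ := exists_valR m r (q1 + 1)
  obtain ⟨D, hD⟩ : ∃ D : ℕ, q2 = q1 + D := ⟨q2 - q1, by omega⟩
  have hD0 : D ≠ 0 := by omega
  have hDz : NeZero D := ⟨hD0⟩
  have hmD : (m : ℤ) ∣ D := by
    have h1 : ((D : ℕ) : ZMod m) = 0 := by
      have h2 := hq2.2
      rw [hD] at h2
      push_cast at h2
      rw [hq1.2] at h2
      simpa using h2
    rw [ZMod.natCast_eq_zero_iff] at h1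
    exact_mod_cast h1
  obtain ⟨q3, _, hq3⟩ := exists_valR D ((q1 : ZMod D) + m) 0
  have h3 : (D : ℤ) ∣ (q3 : ℤ) - (q1 + m) := by
    have h4 := hq3.2
    rw [← ZMod.intCast_zmod_eq_zero_iff_dvd]
    push_cast
    rw [h4]
    ring
  obtain ⟨u, hu⟩ := h3
  have hq3m : ValR m r q3 := by
    refine ⟨hq3.1, ?_⟩
    obtain ⟨v, hv⟩ := hmD
    have h5 : ((q3 : ℤ) : ZMod m) = r := by
      have h6 : (q3 : ℤ) = q1 + m * (1 + v * u) := by
        have : (q3 : ℤ) = q1 + m + D * u := by linarith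
        rw [this, hv]; ring
      rw [h6]
      push_cast
      rw [hq1.2, ZMod.natCast_self]
      ring
    exact_mod_cast h5
  have rep1 : ∀ U : ℕ, IsSum (ValR m r) U (U * q1) := fun U => by
    have := IsSum.sum_fin (p := ValR m r) (k := 1) U (fun _ => q1) (fun _ => IsSum.single hq1)
    simpa using this
  have rep2 : ∀ U : ℕ, IsSum (ValR m r) U (U * q2) := fun U => by
    have := IsSum.sum_fin (p := ValR m r) (k := 1) U (fun _ => q2) (fun _ => IsSum.single hq2)
    simpa using this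
  rcases le_or_gt 0 u with hu0 | hu0
  · obtain ⟨U, hU⟩ : ∃ U : ℕ, (U : ℤ) = u := ⟨u.toNat, Int.toNat_of_nonneg hu0⟩
    refine ⟨1 + U, q1 + U * q2, (IsSum.single hq1).add (rep2 U), ?_⟩
    have h7 := (IsSum.single hq3m).add (rep1 U)
    have e : q3 + U * q1 = q1 + U * q2 + m := by
      have : (q3 : ℤ) + U * q1 = q1 + U * q2 + m := by
        have h8 : (q3 : ℤ) = q1 + m + D * u := by linarith
        rw [h8, ← hU, hD]; push_cast; ring
      exact_mod_cast this
    rw [e] at h7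
    exact h7
  · obtain ⟨U, hU⟩ : ∃ U : ℕ, (U : ℤ) = -u := ⟨(-u).toNat, Int.toNat_of_nonneg (by omega)⟩
    refine ⟨1 + U, q1 + U * q1, (IsSum.single hq1).add (rep1 U), ?_⟩
    have h7 := (IsSum.single hq3m).add (rep2 U)
    have e : q3 + U * q2 = q1 + U * q1 + m := by
      have : (q3 : ℤ) + U * q2 = q1 + U * q1 + m := by
        have h8 : (q3 : ℤ) = q1 + m + D * u := by linarith
        have h9 : u = -U := by omega
        rw [h8, h9, hD]; push_cast; ring
      exact_mod_cast this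
    rw [e] at h7
    exact h7

theorem basis2 (m : ℕ) [NeZero m] (r : ZMod m) : ∃ k₀ : ℕ, ∀ k : ℕ, k₀ ≤ k → ∃ n₀ : ℕ,
    ∀ n : ℕ, n₀ ≤ n → (n : ZMod m) = k * r → IsSum (ValR m r) k n := by
  classical
  have hm1 : 1 ≤ m := Nat.one_le_iff_ne_zero.mpr (NeZero.ne m)
  obtain ⟨C, N₀, hC, hN₀, hden⟩ := density2 m r
  obtain ⟨q1, _, hq1⟩ := exists_valR m r 0
  obtain ⟨s, a, hsa, hsam⟩ := exists_diff m r
  have rep1 : ∀ U : ℕ, IsSum (ValR m r) U (U * q1) := fun U => by
    have := IsSum.sum_fin (p := ValR m r) (k := 1) U (fun _ => q1) (fun _ => IsSum.single hq1)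
    simpa using this
  set Y : Set ℕ := {y | IsSum (ValR m r) 400 (m * y + 400 * q1)} with hY
  have h0Y : 0 ∈ Y := by
    rw [hY, Set.mem_ofPred_eq, mul_zero, zero_add]
    exact rep1 400
  obtain ⟨T, hT⟩ : ∃ T : ℕ, T = 400 * q1 + 1 := ⟨_, rfl⟩
  -- lower bound for the counting function of Y
  obtain ⟨n₁, hn₁⟩ : ∃ n₁ : ℕ, 1 ≤ n₁ ∧ ∀ n : ℕ, n₁ ≤ n →
      (1 / (1600 * C)) * n ≤ ((Y ∩ Set.Icc 1 n).ncard : ℝ) := by
    refine ⟨max (400 * N₀ + 400) (⌈1600 * C * T⌉₊), by omega, fun n hn => ?_⟩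
    obtain ⟨N, hN⟩ : ∃ N : ℕ, N = n / 400 := ⟨_, rfl⟩
    have hn400 : 400 * N₀ + 400 ≤ n := (le_max_left _ _).trans hn
    have hN0 : N₀ ≤ N := by omega
    have h1 := hden N hN0
    have hNn : 400 * N ≤ n := by omega
    have hNn2 : n ≤ 800 * N := by omega
    set Z : Set ℕ := {n : ℕ | n ≤ 400 * N ∧ IsSum (ValR m r) 400 n} with hZ
    have hcov : Z ⊆ (fun y => m * y + 400 * q1) '' (Y ∩ Set.Icc 1 n)
        ∪ (Finset.range T : Set ℕ) := by
      intro z hz
      rcases le_or_gt z (400 * q1) with h | h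
      · right
        simp only [Finset.coe_range, Set.mem_Iio]; omega
      · left
        have hzc := isSum_cast hz.2
        have hdv : m ∣ z - 400 * q1 := by
          rw [← ZMod.natCast_eq_zero_iff, Nat.cast_sub h.le, hzc]
          push_cast
          rw [hq1.2]
          ring
        obtain ⟨y, hy⟩ := hdv
        have hzy : m * y + 400 * q1 = z := by omega
        have hy1 : 1 ≤ y := by
          rcases Nat.eq_zero_or_pos y with h0 | h0
          · rw [h0] at hy; omega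
          · exact h0
        have hyn : y ≤ n := by
          have h2 : y ≤ m * y := Nat.le_mul_of_pos_left y (by omega)
          have := hz.1
          omega
        refine ⟨y, ⟨?_, hy1, hyn⟩, hzy⟩
        rw [hY, Set.mem_ofPred_eq, hzy]
        exact hz.2
    have hfin : (Y ∩ Set.Icc 1 n).Finite := (Set.finite_Icc 1 n).subset Set.inter_subset_right
    have h2 : Z.ncard ≤ (Y ∩ Set.Icc 1 n).ncard + T := by
      calc Z.ncard ≤ ((fun y => m * y + 400 * q1) '' (Y ∩ Set.Icc 1 n)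
            ∪ (Finset.range T : Set ℕ)).ncard :=
            Set.ncard_le_ncard hcov ((hfin.image _).union (Finset.finite_toSet _))
        _ ≤ ((fun y => m * y + 400 * q1) '' (Y ∩ Set.Icc 1 n)).ncard
            + (Finset.range T : Set ℕ).ncard := Set.ncard_union_le _ _
        _ ≤ (Y ∩ Set.Icc 1 n).ncard + T := by
            rw [Set.ncard_coe_finset, Finset.card_range]
            exact Nat.add_le_add_right (Set.ncard_image_le hfin) _
    have h3 : (Z.ncard : ℝ) ≤ ((Y ∩ Set.Icc 1 n).ncard : ℝ) + T := by exact_mod_cast h2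
    have h4 : (n : ℝ) ≤ 800 * N := by exact_mod_cast hNn2
    have h5 : 1600 * C * T ≤ (n : ℝ) :=
      (Nat.le_ceil _).trans (by exact_mod_cast (le_max_right _ _).trans hn)
    have h6 : (T : ℝ) ≤ (1 / (1600 * C)) * n := by
      rw [one_div, inv_mul_eq_div, le_div_iff₀ (by positivity)]; linarith
    have h7 : 2 * ((1 / (1600 * C)) * n) ≤ (N : ℝ) / C := by
      calc 2 * ((1 / (1600 * C)) * n) = n / (800 * C) := by field_simp; ring
        _ ≤ (800 * N) / (800 * C) := div_le_div_of_nonneg_right h4 (by positivity)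
        _ = (N : ℝ) / C := by field_simp
    linarith
  obtain ⟨hn₁1, hn₁⟩ := hn₁
  set W : Set ℕ := Y ∪ {1} with hW
  obtain ⟨α, hα⟩ : ∃ α : ℝ, α = min (1 / (1600 * C)) (1 / n₁) := ⟨_, rfl⟩
  have hn₁r : (0 : ℝ) < n₁ := by exact_mod_cast hn₁1
  have hαpos : 0 < α := by rw [hα]; exact lt_min (by positivity) (by positivity)
  obtain ⟨j, hj⟩ := schnirelmann W (Or.inl h0Y) (Or.inr rfl) α hαpos (by
    intro n hn
    have hfin : (W ∩ Set.Icc 1 n).Finite := (Set.finite_Icc 1 n).subset Set.inter_subset_right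
    rcases le_or_gt n₁ n with h | h
    · have h1 := hn₁ n h
      have h2 : (Y ∩ Set.Icc 1 n).ncard ≤ (W ∩ Set.Icc 1 n).ncard :=
        Set.ncard_le_ncard (Set.inter_subset_inter_left _ Set.subset_union_left) hfin
      have h3 : ((Y ∩ Set.Icc 1 n).ncard : ℝ) ≤ ((W ∩ Set.Icc 1 n).ncard : ℝ) := by
        exact_mod_cast h2
      have h4 : α * n ≤ (1 / (1600 * C)) * n :=
        mul_le_mul_of_nonneg_right (by rw [hα]; exact min_le_left _ _) (Nat.cast_nonneg _)
      linarith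
    · have h1 : 1 ≤ (W ∩ Set.Icc 1 n).ncard := by
        rw [Nat.one_le_iff_ne_zero]
        intro h0
        rw [Set.ncard_eq_zero hfin] at h0
        have : (1 : ℕ) ∈ W ∩ Set.Icc 1 n := ⟨Or.inr rfl, le_refl _, hn⟩
        rw [h0] at this
        exact this
      have h2 : (1 : ℝ) ≤ ((W ∩ Set.Icc 1 n).ncard : ℝ) := by exact_mod_cast h1
      have h3 : α * n ≤ (1 / n₁) * n₁ := by
        apply mul_le_mul (by rw [hα]; exact min_le_right _ _) (by exact_mod_cast h.le)
          (Nat.cast_nonneg _) (by positivity)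
      have h4 : (1 / (n₁ : ℝ)) * n₁ = 1 := by field_simp
      linarith)
  have hlarge : ∀ n : ℕ, IsSum (ValR m r) (j * (400 + s)) (m * n + j * (400 * q1 + a)) := by
    intro n
    obtain ⟨f, hf, hfn⟩ := hj n
    have h1 : ∀ i, IsSum (ValR m r) (400 + s) (m * f i + (400 * q1 + a)) := by
      intro i
      rcases hf i with h | h
      · have h2 : IsSum (ValR m r) 400 (m * f i + 400 * q1) := h
        have := h2.add hsa
        have e : m * f i + 400 * q1 + a = m * f i + (400 * q1 + a) := by ring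
        rw [e] at this
        exact this
      · rw [Set.mem_singleton_iff] at h
        rw [h]
        have := (rep1 400).add hsam
        have e : 400 * q1 + (a + m) = m * 1 + (400 * q1 + a) := by ring
        rw [e] at this
        exact this
    have h2 := IsSum.sum_fin j (fun i => m * f i + (400 * q1 + a)) h1
    have e : ∑ i, (m * f i + (400 * q1 + a)) = m * n + j * (400 * q1 + a) := by
      rw [Finset.sum_add_distrib, ← Finset.mul_sum, hfn]; simp
    rw [e] at h2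
    exact h2
  refine ⟨j * (400 + s), fun k hk => ?_⟩
  obtain ⟨l, hl⟩ : ∃ l : ℕ, k = j * (400 + s) + l := ⟨k - j * (400 + s), by omega⟩
  refine ⟨j * (400 * q1 + a) + l * q1, fun n hn hnr => ?_⟩
  obtain ⟨x, hx⟩ : ∃ x : ℕ, n = x + (j * (400 * q1 + a) + l * q1) :=
    ⟨n - (j * (400 * q1 + a) + l * q1), by omega⟩
  have hmx : m ∣ x := by
    rw [← ZMod.natCast_eq_zero_iff]
    have h1 := isSum_cast (hlarge 0)
    rw [mul_zero, zero_add] at h1
    have h2 := isSum_cast (rep1 l)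
    rw [hx, hl, Nat.cast_add, Nat.cast_add, Nat.cast_add, h1, h2] at hnr
    have h3 : (x : ZMod m) + (((j * (400 + s) : ℕ) : ZMod m) * r + (l : ZMod m) * r)
        = (((j * (400 + s) : ℕ) : ZMod m) * r + (l : ZMod m) * r) := by
      rw [hnr]; ring
    simpa using h3
  obtain ⟨y, hy⟩ := hmx
  have h4 := (hlarge y).add (rep1 l)
  have e : m * y + j * (400 * q1 + a) + l * q1 = n := by rw [hx, hy]; ring
  rw [e, ← hl] at h4
  exact h4

end Pool.Agent.H51.ZB
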